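import Pool.Agent.N367.PPD.Conf

set_option autoImplicit false
set_option linter.unusedSectionVars false

/-!
# The Desargues gap theorem
-/

namespace Pool.Agent.N367.PPD

open Configuration Configuration.ProjectivePlane Finset
open scoped Classical

noncomputable section

variable {P L : Type} [Membership P L] [ProjectivePlane P L] [Fintype P] [Fintype L]

/-- the points off a line -/
def off (a : L) : Finset P := univ.filter (fun x => x ∉ a)

@[simp] theorem mem_off {a : L} {x : P} : x ∈ off a ↔ x ∉ a := by simp [off]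

theorem card_off (a : L) : (off a : Finset P).card = order P L ^ 2 := by
  have h1 := Finset.card_filter_add_card_filter_not (s := (univ : Finset P)) (fun x => x ∈ a)
  rw [Finset.card_univ, card_points P L] at h1
  have h2 : ((univ : Finset P).filter (fun x => x ∈ a)).card = order P L + 1 := card_pts a
  have h3 : (off a : Finset P) = univ.filter (fun x => ¬ x ∈ a) := by
    ext x; simp
  rw [h3]
  omega

/-- points that cannot be reached from `x` -/
def U (a : L) (C x : P) : Finset P := (S C a (jn L C x)).filter (fun y => y ∉ orb C a x)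

theorem U_adm {a : L} {C x y : P} (hx : x ∉ a) (hxC : C ≠ x) (hy : y ∈ U a C x) :
    Adm a C x y ∧ ¬ ∃ g, IsP C a g ∧ g.1 x = y := by
  rw [U, Finset.mem_filter, mem_S] at hy
  obtain ⟨⟨h1, h2, h3⟩, h4⟩ := hy
  have h5 : ¬ ∃ g, IsP C a g ∧ g.1 x = y := by
    rintro ⟨g, hg, hgx⟩
    exact h4 (Finset.mem_image.2 ⟨g, mem_H.2 hg, hgx⟩)
  refine ⟨⟨hx, h3, hxC, h2, ?_, h1⟩, h5⟩
  rintro rfl
  exact h5 ⟨1, IsP.one, rfl⟩

/-- for an unreachable point there are many failures -/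
theorem U_many (hn : 3 ≤ order P L) {a : L} {C x y : P} (hx : x ∉ a) (hxC : C ≠ x)
    (hy : y ∈ U a C x) : order P L ^ 3 < 1000 * (locSet a C x y).card := by
  obtain ⟨h1, h2⟩ := U_adm hx hxC hy
  exact (gap hn h1).resolve_left h2

/-- the failures for an axis, a centre and a point -/
theorem sum_U (hn : 3 ≤ order P L) {a : L} {C x : P} (hx : x ∉ a) (hxC : C ≠ x)
    (ht : ¬ Tr C a) :
    (S C a (jn L C x)).card * order P L ^ 3 ≤
      2000 * ∑ y ∈ U a C x, (locSet a C x y).card := by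
  have h1 := unreach ht hx hxC
  have h2 : (U a C x).card * order P L ^ 3 ≤ 1000 * ∑ y ∈ U a C x, (locSet a C x y).card := by
    rw [Finset.mul_sum, ← smul_eq_mul, ← Finset.sum_const]
    exact Finset.sum_le_sum fun y hy => (U_many hn hx hxC hy).le
  change _ ≤ 2 * (U a C x).card at h1
  calc (S C a (jn L C x)).card * order P L ^ 3 ≤ (2 * (U a C x).card) * order P L ^ 3 :=
        Nat.mul_le_mul_right _ h1
    _ = 2 * ((U a C x).card * order P L ^ 3) := by ring
    _ ≤ 2 * (1000 * ∑ y ∈ U a C x, (locSet a C x y).card) := Nat.mul_le_mul_left _ h2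
    _ = _ := by ring

/-! ### the little Desargues theorem -/

theorem lit_sum (a : L) (o : P) :
    ∑ c ∈ pts a, ∑ y ∈ U a c o, (locSet a c o y).card ≤ (litSet a o).card := by
  rw [Finset.sum_sigma', ← Finset.card_sigma]
  apply Finset.card_le_card_of_injOn
    (fun t : (_ : (_ : P) × P) × ((Fin 3 → P) × (Fin 3 → P)) => (t.1.1, t.2.1, t.2.2))
  · rintro ⟨⟨c, y⟩, A, B⟩ ht
    simp only [Finset.mem_coe, Finset.mem_sigma, mem_pts] at ht
    obtain ⟨⟨hc, hy⟩, hAB⟩ := ht
    rw [mem_locSet] at hAB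
    simp only at hAB
    rw [Finset.mem_coe, mem_litSet]
    exact ⟨hAB.1, hc, hAB.2.1, hAB.2.2.2.1, hAB.2.2.2.2.1, hAB.2.2.2.2.2⟩
  · rintro ⟨⟨c, y⟩, A, B⟩ ht ⟨⟨c', y'⟩, A', B'⟩ ht' hh
    simp only [Prod.mk.injEq] at hh
    obtain ⟨rfl, rfl, rfl⟩ := hh
    simp only [Finset.mem_coe, Finset.mem_sigma, mem_pts] at ht ht'
    have h1 := (mem_locSet.1 ht.2).2.2.1
    have h2 := (mem_locSet.1 ht'.2).2.2.1
    simp only at h1 h2
    have h3 : y = y' := h1.symm.trans h2
    subst h3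
    rfl

theorem lit_empty {a : L} {o : P} (ho : o ∉ a) (h : ∀ f : P, f ∈ a → Tr f a) :
    litSet a o = ∅ := by
  rw [Finset.eq_empty_iff_forall_notMem]
  rintro ⟨c, A, B⟩ ht
  rw [mem_litSet] at ht
  obtain ⟨hp, hc, h0, h1, h2, h3⟩ := ht
  simp only at hp hc h0 h1 h2 h3
  have hne := hp.1 0
  have hl := hp.2.1
  obtain ⟨l, hl, hl2⟩ := hl
  have h4 : B 0 ∉ a := by
    intro h5
    have h6 : l 0 ≠ a := fun h7 => ho (by rw [← h0, ← h7]; exact (hl2 0).2.1)
    exact hne.2.1 (pt_eq h6 (hl2 0).2.2 (hl2 0).1 h5 hc)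
  have hadm : Adm a c (A 0) (B 0) := by
    refine ⟨by rw [h0]; exact ho, h4, hne.1.symm, hne.2.1.symm, hne.2.2, ?_⟩
    rw [← eq_jn hne.1.symm (hl2 0).1 (hl2 0).2.1]
    exact (hl2 0).2.2
  obtain ⟨g, hg, hgx⟩ := h c hc (A 0) (B 0) hadm.xa hadm.ya hadm.xC hadm.yC hadm.col
  have h5 := locSet_empty hadm hg hgx
  have h6 : (A, B) ∈ locSet a c (A 0) (B 0) := mem_locSet.2 ⟨hp, rfl, rfl, h1, h2, h3⟩
  rw [h5] at h6
  exact absurd h6 (Finset.notMem_empty _)

theorem little (hn : 3 ≤ order P L) (a : L) :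
    ((∀ o, o ∉ a → litSet a o = ∅) ∧ IsPrimePow (order P L)) ∨
      ∀ o : P, o ∉ a → order P L ^ 5 ≤ 2000 * (litSet a o).card := by
  by_cases hcd : ∃ c d : P, c ∈ a ∧ d ∈ a ∧ c ≠ d ∧ Tr c a ∧ Tr d a
  · left
    obtain ⟨c, d, hc, hd, hcd, tc, td⟩ := hcd
    exact ⟨fun o ho => lit_empty ho (fun f hf => tr_axis hc hd hf hcd tc td),
      primePow hc hd hcd tc td⟩
  · right
    push Not at hcd
    intro o ho
    have h1 := lit_sum a o
    -- at most one centre is full
    have h2 : order P L ≤ ((pts a : Finset P).filter (fun c => ¬ Tr c a)).card := by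
      have h3 := Finset.card_filter_add_card_filter_not (s := (pts a : Finset P))
        (fun c => Tr c a)
      rw [card_pts] at h3
      have h4 : ((pts a : Finset P).filter (fun c => Tr c a)).card ≤ 1 := by
        rw [Finset.card_le_one]
        intro c hc d hd
        rw [Finset.mem_filter, mem_pts] at hc hd
        by_contra hne
        exact hcd c d hc.1 hd.1 hne hc.2 hd.2
      omega
    calc order P L ^ 5 = order P L * order P L ^ 4 := by ring
      _ ≤ ((pts a : Finset P).filter (fun c => ¬ Tr c a)).card * order P L ^ 4 :=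
          Nat.mul_le_mul_right _ h2
      _ = ∑ c ∈ (pts a : Finset P).filter (fun c => ¬ Tr c a), order P L ^ 4 := by
          rw [Finset.sum_const, smul_eq_mul]
      _ ≤ ∑ c ∈ (pts a : Finset P).filter (fun c => ¬ Tr c a),
            2000 * ∑ y ∈ U a c o, (locSet a c o y).card := by
          apply Finset.sum_le_sum
          intro c hc
          rw [Finset.mem_filter, mem_pts] at hc
          have hco : c ≠ o := fun h3 => ho (h3 ▸ hc.1)
          have h3 := sum_U hn ho hco hc.2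
          have hla : jn L c o ≠ a := fun h4 => ho (h4 ▸ jn_right hco)
          rw [S_card_in (jn_left hco) hla hc.1] at h3
          calc order P L ^ 4 = order P L * order P L ^ 3 := by ring
            _ ≤ _ := h3
      _ ≤ ∑ c ∈ (pts a : Finset P), 2000 * ∑ y ∈ U a c o, (locSet a c o y).card :=
          Finset.sum_le_sum_of_subset (Finset.filter_subset _ _)
      _ = 2000 * ∑ c ∈ (pts a : Finset P), ∑ y ∈ U a c o, (locSet a c o y).card := by
          rw [Finset.mul_sum]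
      _ ≤ _ := Nat.mul_le_mul_left _ h1

/-! ### Desargues' theorem -/

theorem fail_sum (s : Finset (L × P)) :
    ∑ t ∈ s, ∑ x ∈ (off t.1).erase t.2, ∑ y ∈ U t.1 t.2 x, (locSet t.1 t.2 x y).card ≤
      (failSet P L).card := by
  rw [Finset.sum_sigma', Finset.sum_sigma', ← Finset.card_sigma]
  apply Finset.card_le_card_of_injOn
    (fun t : (_ : (_ : (_ : L × P) × P) × P) × ((Fin 3 → P) × (Fin 3 → P)) =>
      (t.1.1.1.2, t.2.1, t.2.2))
  · rintro ⟨⟨⟨⟨a, C⟩, x⟩, y⟩, A, B⟩ ht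
    simp only [Finset.mem_coe, Finset.mem_sigma] at ht
    obtain ⟨⟨⟨hs1, hx⟩, hy⟩, hAB⟩ := ht
    rw [mem_locSet] at hAB
    simp only at hAB
    rw [Finset.mem_coe, mem_failSet]
    refine ⟨hAB.1, ?_⟩
    rintro ⟨b, h1, h2, h3⟩
    simp only at h1 h2 h3
    have h4 := hAB.1.axis hAB.2.2.2.1 hAB.2.2.2.2.1 h1 h2
    rw [← h4] at h3
    exact hAB.2.2.2.2.2 h3
  · rintro ⟨⟨⟨⟨a, C⟩, x⟩, y⟩, A, B⟩ ht ⟨⟨⟨⟨a', C'⟩, x'⟩, y'⟩, A', B'⟩ ht' hh
    simp only [Prod.mk.injEq] at hh
    obtain ⟨rfl, rfl, rfl⟩ := hh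
    simp only [Finset.mem_coe, Finset.mem_sigma] at ht ht'
    have h1 := mem_locSet.1 ht.2
    have h2 := mem_locSet.1 ht'.2
    simp only at h1 h2
    have h3 : a = a' := h1.1.axis h1.2.2.2.1 h1.2.2.2.2.1 h2.2.2.2.1 h2.2.2.2.2.1
    subst h3
    have h4 : x = x' := h1.2.1.symm.trans h2.2.1
    subst h4
    have h5 : y = y' := h1.2.2.1.symm.trans h2.2.2.1
    subst h5
    rfl

theorem fail_empty (h : ∀ a : L, Ds (P := P) a) : failSet P L = ∅ := by
  rw [Finset.eq_empty_iff_forall_notMem]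
  rintro ⟨C, A, B⟩ ht
  rw [mem_failSet] at ht
  obtain ⟨hp, hno⟩ := ht
  simp only at hp hno
  have d1 : (0 : Fin 3) ≠ 1 := by decide
  have d2 : (0 : Fin 3) ≠ 2 := by decide
  -- the axis
  set p := mt P (jn L (A 0) (A 1)) (jn L (B 0) (B 1)) with hpdef
  set q := mt P (jn L (A 0) (A 2)) (jn L (B 0) (B 2)) with hqdef
  have hp1 : p ∈ jn L (A 0) (A 1) := mt_left (hp.side_ne d1)
  have hp2 : p ∈ jn L (B 0) (B 1) := mt_right (hp.side_ne d1)
  have hq1 : q ∈ jn L (A 0) (A 2) := mt_left (hp.side_ne d2)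
  have hq2 : q ∈ jn L (B 0) (B 2) := mt_right (hp.side_ne d2)
  have hpq : p ≠ q := by
    intro h5
    have h6 : p = A 0 := pt_eq hp.A_join hp1 (jn_left (hp.A_ne d1)) (h5 ▸ hq1)
      (jn_left (hp.A_ne d2))
    have h7 : p = B 0 := pt_eq hp.B_join hp2 (jn_left (hp.B_ne d1)) (h5 ▸ hq2)
      (jn_left (hp.B_ne d2))
    exact (hp.1 0).2.2 (h6.symm.trans h7)
  set a := jn L p q with ha
  have hpa : p ∈ a := jn_left hpq
  have hqa : q ∈ a := jn_right hpq
  have m1 : Meet a A B 0 1 := ⟨p, hpa, fun l h1 h2 => by rw [eq_jn (hp.A_ne d1) h1 h2]; exact hp1,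
    fun l h1 h2 => by rw [eq_jn (hp.B_ne d1) h1 h2]; exact hp2⟩
  have m2 : Meet a A B 0 2 := ⟨q, hqa, fun l h1 h2 => by rw [eq_jn (hp.A_ne d2) h1 h2]; exact hq1,
    fun l h1 h2 => by rw [eq_jn (hp.B_ne d2) h1 h2]; exact hq2⟩
  have m3 : ¬ Meet a A B 1 2 := fun m3 => hno ⟨a, m1, m2, m3⟩
  obtain ⟨l, hl, hl2⟩ := hp.2.1
  -- the points `A 0`, `B 0` are off the axis
  have side : ∀ i : Fin 3, 0 ≠ i → A 0 ∉ jn L (B 0) (B i) := by
    intro i hi h1
    have h2 : jn L (B 0) (B i) = l 0 :=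
      line_eq (hp.1 0).2.2 h1 (jn_left (hp.B_ne hi)) (hl2 0).2.1 (hl2 0).2.2
    have h3 : B i ∈ l 0 := by rw [← h2]; exact jn_right (hp.B_ne hi)
    exact (hp.1 i).2.1 (pt_eq (fun h4 => hi (hl h4)) h3 (hl2 0).1 (hl2 i).2.2 (hl2 i).1)
  have side' : ∀ i : Fin 3, 0 ≠ i → B 0 ∉ jn L (A 0) (A i) := by
    intro i hi h1
    have h2 : jn L (A 0) (A i) = l 0 :=
      line_eq (hp.1 0).2.2 (jn_left (hp.A_ne hi)) h1 (hl2 0).2.1 (hl2 0).2.2
    have h3 : A i ∈ l 0 := by rw [← h2]; exact jn_right (hp.A_ne hi)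
    exact (hp.1 i).1 (pt_eq (fun h4 => hi (hl h4)) h3 (hl2 0).1 (hl2 i).2.1 (hl2 i).1)
  have hA0 : A 0 ∉ a := by
    intro h1
    have hpA : p ≠ A 0 := fun h2 => side 1 d1 (by rw [← h2]; exact hp2)
    have hqA : q ≠ A 0 := fun h2 => side 2 d2 (by rw [← h2]; exact hq2)
    have h2 : a = jn L (A 0) (A 1) := line_eq hpA hpa h1 hp1 (jn_left (hp.A_ne d1))
    have h3 : a = jn L (A 0) (A 2) := line_eq hqA hqa h1 hq1 (jn_left (hp.A_ne d2))
    exact hp.A_join (h2.symm.trans h3)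
  have hB0 : B 0 ∉ a := by
    intro h1
    have hpA : p ≠ B 0 := fun h2 => side' 1 d1 (by rw [← h2]; exact hp1)
    have hqA : q ≠ B 0 := fun h2 => side' 2 d2 (by rw [← h2]; exact hq1)
    have h2 : a = jn L (B 0) (B 1) := line_eq hpA hpa h1 hp2 (jn_left (hp.B_ne d1))
    have h3 : a = jn L (B 0) (B 2) := line_eq hqA hqa h1 hq2 (jn_left (hp.B_ne d2))
    exact hp.B_join (h2.symm.trans h3)
  have hne := hp.1 0
  have hadm : Adm a C (A 0) (B 0) := by
    refine ⟨hA0, hB0, hne.1.symm, hne.2.1.symm, hne.2.2, ?_⟩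
    rw [← eq_jn hne.1.symm (hl2 0).1 (hl2 0).2.1]
    exact (hl2 0).2.2
  obtain ⟨g, hg, hgx⟩ := h a C (A 0) (B 0) hadm.xa hadm.ya hadm.xC hadm.yC hadm.col
  have h5 := locSet_empty hadm hg hgx
  have h6 : (A, B) ∈ locSet a C (A 0) (B 0) := mem_locSet.2 ⟨hp, rfl, rfl, m1, m2, m3⟩
  rw [h5] at h6
  exact absurd h6 (Finset.notMem_empty _)

/-- a line that is not a Desargues line has few full centres -/
theorem few_full (hn : 3 ≤ order P L) {a : L} (ha : ¬ Ds (P := P) a) :
    order P L ^ 2 ≤ ((off a).filter (fun C : P => ¬ Tr C a)).card + order P L := by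
  have h1 := Finset.card_filter_add_card_filter_not (s := (off a : Finset P)) (fun C => Tr C a)
  rw [card_off] at h1
  have h2 : ((off a).filter (fun C : P => Tr C a)).card ≤ order P L := by
    by_contra hcon
    push Not at hcon
    obtain ⟨C, hC, D, hD, hCD⟩ := Finset.one_lt_card.1
      (lt_trans (by omega : 1 < order P L) hcon)
    rw [Finset.mem_filter, mem_off] at hC hD
    have hla : jn L C D ≠ a := fun h3 => hC.1 (h3 ▸ jn_left hCD)
    apply hcon.not_ge
    have h3 : (off a).filter (fun C : P => Tr C a) ⊆ (pts (jn L C D)).erase (mt P (jn L C D) a) := by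
      intro E hE
      rw [Finset.mem_filter, mem_off] at hE
      rw [Finset.mem_erase, mem_pts]
      refine ⟨fun h4 => hE.1 (by rw [h4]; exact mt_right hla), ?_⟩
      by_contra hEl
      exact ha (ds_of_three hn hC.1 hD.1 hE.1 hCD hEl hC.2 hD.2 hE.2)
    have h4 := Finset.card_le_card h3
    rw [Finset.card_erase_of_mem (mem_pts.2 (mt_left hla)), card_pts] at h4
    omega
  omega

theorem few_lines (hno : ¬ ∃ a b d : L, Ds (P := P) a ∧ Ds (P := P) b ∧ Ds (P := P) d ∧ a ≠ b ∧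
    a ≠ d ∧ mt P a b ≠ mt P a d) :
    order P L ^ 2 ≤ ((univ : Finset L).filter (fun a => ¬ Ds (P := P) a)).card := by
  have h1 := Finset.card_filter_add_card_filter_not (s := (univ : Finset L))
    (fun a => Ds (P := P) a)
  rw [Finset.card_univ, card_lines P L] at h1
  have h2 : ((univ : Finset L).filter (fun a => Ds (P := P) a)).card ≤ order P L + 1 := by
    by_contra hcon
    push Not at hcon
    obtain ⟨a, ha, b, hb, hab⟩ := Finset.one_lt_card.1
      (lt_trans (by have := one_lt_order P L; omega : 1 < order P L + 1) hcon)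
    rw [Finset.mem_filter] at ha hb
    apply hcon.not_ge
    have h3 : (univ : Finset L).filter (fun a => Ds (P := P) a) ⊆ lns (mt P a b) := by
      intro d hd
      rw [Finset.mem_filter] at hd
      rw [mem_lns]
      by_cases had : a = d
      · rw [← had]; exact mt_left hab
      by_contra hmd
      apply hno
      refine ⟨a, b, d, ha.2, hb.2, hd.2, hab, had, ?_⟩
      intro h4
      apply hmd
      rw [h4]; exact mt_right had
    have h4 := Finset.card_le_card h3
    rwa [card_lns] at h4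
  omega

theorem card_NF (hn : 3 ≤ order P L)
    (hno : ¬ ∃ a b d : L, Ds (P := P) a ∧ Ds (P := P) b ∧ Ds (P := P) d ∧ a ≠ b ∧
      a ≠ d ∧ mt P a b ≠ mt P a d) :
    order P L ^ 2 * (order P L ^ 2 - order P L) ≤
      ((univ : Finset (L × P)).filter (fun t => t.2 ∉ t.1 ∧ ¬ Tr t.2 t.1)).card := by
  have h1 := few_lines hno
  have h2 : ((univ : Finset (L × P)).filter (fun t => t.2 ∉ t.1 ∧ ¬ Tr t.2 t.1)).card =
      ∑ a : L, ((off a).filter (fun C : P => ¬ Tr C a)).card := by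
    rw [← Finset.card_sigma]
    apply Finset.card_bij (fun (t : L × P) _ => (⟨t.1, t.2⟩ : (_ : L) × P))
    · rintro ⟨a, C⟩ ht
      rw [Finset.mem_filter] at ht
      rw [Finset.mem_sigma, Finset.mem_filter, mem_off]
      exact ⟨Finset.mem_univ _, ht.2⟩
    · rintro ⟨a, C⟩ _ ⟨a', C'⟩ _ hh
      simp only [Sigma.mk.injEq, heq_eq_eq] at hh
      rw [hh.1, hh.2]
    · rintro ⟨a, C⟩ ht
      rw [Finset.mem_sigma, Finset.mem_filter, mem_off] at ht
      exact ⟨(a, C), Finset.mem_filter.2 ⟨Finset.mem_univ _, ht.2⟩, rfl⟩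
  rw [h2]
  calc order P L ^ 2 * (order P L ^ 2 - order P L)
      ≤ ((univ : Finset L).filter (fun a => ¬ Ds (P := P) a)).card *
          (order P L ^ 2 - order P L) := Nat.mul_le_mul_right _ h1
    _ = ∑ a ∈ (univ : Finset L).filter (fun a => ¬ Ds (P := P) a),
          (order P L ^ 2 - order P L) := by rw [Finset.sum_const, smul_eq_mul]
    _ ≤ ∑ a ∈ (univ : Finset L).filter (fun a => ¬ Ds (P := P) a),
          ((off a).filter (fun C : P => ¬ Tr C a)).card := by
        apply Finset.sum_le_sum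
        intro a ha
        have := few_full hn (Finset.mem_filter.1 ha).2
        omega
    _ ≤ _ := Finset.sum_le_sum_of_subset (Finset.filter_subset _ _)

theorem fail_ge (hn : 3 ≤ order P L) (s : Finset (L × P))
    (hs : ∀ t ∈ s, t.2 ∉ t.1 ∧ ¬ Tr t.2 t.1) :
    s.card * ((order P L ^ 2 - 1) * ((order P L - 1) * order P L ^ 3)) ≤
      2000 * (failSet P L).card := by
  refine le_trans ?_ (Nat.mul_le_mul_left 2000 (fail_sum s))
  rw [Finset.mul_sum, ← smul_eq_mul, ← Finset.sum_const]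
  apply Finset.sum_le_sum
  rintro ⟨a, C⟩ ht
  obtain ⟨h1, h2⟩ := hs _ ht
  simp only at h1 h2 ⊢
  rw [Finset.mul_sum]
  have h3 : ((off a).erase C).card = order P L ^ 2 - 1 := by
    rw [Finset.card_erase_of_mem (mem_off.2 h1), card_off]
  rw [← h3, ← smul_eq_mul, ← Finset.sum_const]
  apply Finset.sum_le_sum
  intro x hx
  rw [Finset.mem_erase, mem_off] at hx
  have h4 := sum_U hn hx.2 hx.1.symm h2
  have h5 := S_card_off (jn_left (L := L) hx.1.symm) h1
  have h6 : (S C a (jn L C x)).card = order P L - 1 := by omega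
  rwa [h6] at h4

theorem main (hn : 3 ≤ order P L) :
    (failSet P L = ∅ ∧ IsPrimePow (order P L)) ∨
      order P L ^ 10 ≤ 8000 * (failSet P L).card := by
  by_cases hno : ∃ a b d : L, Ds (P := P) a ∧ Ds (P := P) b ∧ Ds (P := P) d ∧ a ≠ b ∧
      a ≠ d ∧ mt P a b ≠ mt P a d
  · left
    obtain ⟨a, b, d, ha, hb, hd, hab, had, hne⟩ := hno
    refine ⟨fail_empty (fun l => ds_all ha hb hd hab had hne l), ?_⟩
    exact primePow (mt_left hab) (mt_left had) hne (ha _) (ha _)
  · right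
    have h1 := card_NF hn hno
    have h2 := fail_ge hn _ (fun t ht => (Finset.mem_filter.1 ht).2 :
      ∀ t ∈ (univ : Finset (L × P)).filter (fun t => t.2 ∉ t.1 ∧ ¬ Tr t.2 t.1),
        t.2 ∉ t.1 ∧ ¬ Tr t.2 t.1)
    have h3 := le_trans (Nat.mul_le_mul_right _ h1) h2
    generalize order P L = n at hn h3
    generalize (failSet P L).card = F at h3
    obtain ⟨m, rfl⟩ : ∃ m, n = m + 1 := ⟨n - 1, by omega⟩
    have e1 : (m + 1) ^ 2 - (m + 1) = m * (m + 1) := by
      have : (m + 1) ^ 2 = m * (m + 1) + (m + 1) := by ring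
      omega
    have e2 : (m + 1) ^ 2 - 1 = m * (m + 2) := by
      have : (m + 1) ^ 2 = m * (m + 2) + 1 := by ring
      omega
    rw [e1, e2, show m + 1 - 1 = m by omega] at h3
    have h4 : (m + 1) ^ 4 ≤ 4 * (m * m * (m * (m + 2))) := by
      obtain ⟨k, rfl⟩ : ∃ k, m = k + 2 := ⟨m - 2, by omega⟩
      nlinarith [Nat.zero_le (k ^ 2), Nat.zero_le (k ^ 3), Nat.zero_le (k ^ 4)]
    calc (m + 1) ^ 10 = (m + 1) ^ 4 * (m + 1) ^ 6 := by ring
      _ ≤ (4 * (m * m * (m * (m + 2)))) * (m + 1) ^ 6 := Nat.mul_le_mul_right _ h4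
      _ = 4 * ((m + 1) ^ 2 * (m * (m + 1)) * (m * (m + 2) * (m * (m + 1) ^ 3))) := by ring
      _ ≤ 4 * (2000 * F) := Nat.mul_le_mul_left _ h3
      _ = 8000 * F := by ring

end

end Pool.Agent.N367.PPD
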