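import Mathlib

set_option autoImplicit false
set_option linter.unusedSectionVars false

/-!
# Basic facts on finite projective planes
-/

namespace Pool.Agent.N367.PPD

open Configuration Configuration.ProjectivePlane Finset
open scoped Classical

noncomputable section

variable {P : Type} (L : Type) [Membership P L] [ProjectivePlane P L]

/-- the line through two points (an arbitrary line if the points are equal) -/
def jn (p q : P) : L :=
  if h : p ≠ q then HasLines.mkLine h else Classical.choose (Nondegenerate.exists_line (P := P) (L := L) p)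

variable {L}

theorem jn_left {p q : P} (h : p ≠ q) : p ∈ jn L p q := by
  rw [jn, dif_pos h]; exact (HasLines.mkLine_ax h).1

theorem jn_right {p q : P} (h : p ≠ q) : q ∈ jn L p q := by
  rw [jn, dif_pos h]; exact (HasLines.mkLine_ax h).2

theorem line_eq {p q : P} {l k : L} (h : p ≠ q) (h1 : p ∈ l) (h2 : q ∈ l) (h3 : p ∈ k) (h4 : q ∈ k) :
    l = k :=
  (Nondegenerate.eq_or_eq h1 h2 h3 h4).resolve_left h

theorem pt_eq {p q : P} {l k : L} (h : l ≠ k) (h1 : p ∈ l) (h2 : q ∈ l) (h3 : p ∈ k) (h4 : q ∈ k) :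
    p = q :=
  (Nondegenerate.eq_or_eq h1 h2 h3 h4).resolve_right h

theorem eq_jn {p q : P} {l : L} (h : p ≠ q) (h1 : p ∈ l) (h2 : q ∈ l) : l = jn L p q :=
  line_eq h h1 h2 (jn_left h) (jn_right h)

variable (P)

/-- the common point of two lines (an arbitrary point if the lines are equal) -/
def mt (l k : L) : P :=
  if h : l ≠ k then HasPoints.mkPoint h else Classical.choose (Nondegenerate.exists_point (P := P) (L := L) l)

variable {P}

theorem mt_left {l k : L} (h : l ≠ k) : mt P l k ∈ l := by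
  rw [mt, dif_pos h]; exact (HasPoints.mkPoint_ax h).1

theorem mt_right {l k : L} (h : l ≠ k) : mt P l k ∈ k := by
  rw [mt, dif_pos h]; exact (HasPoints.mkPoint_ax h).2

theorem eq_mt {l k : L} {p : P} (h : l ≠ k) (h1 : p ∈ l) (h2 : p ∈ k) : p = mt P l k :=
  pt_eq h h1 (mt_left h) h2 (mt_right h)

variable [Fintype P] [Fintype L]

/-- the points of a line -/
def pts (l : L) : Finset P := univ.filter (fun p => p ∈ l)

/-- the lines through a point -/
def lns (p : P) : Finset L := univ.filter (fun l => p ∈ l)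

@[simp] theorem mem_pts {l : L} {p : P} : p ∈ (pts l : Finset P) ↔ p ∈ l := by simp [pts]

@[simp] theorem mem_lns {l : L} {p : P} : l ∈ (lns p : Finset L) ↔ p ∈ l := by simp [lns]

theorem card_pts (l : L) : (pts l : Finset P).card = order P L + 1 := by
  rw [← pointCount_eq P l, pointCount, Nat.card_eq_fintype_card, Fintype.card_subtype]
  rfl

theorem card_lns (p : P) : (lns p : Finset L).card = order P L + 1 := by
  rw [← lineCount_eq L p, lineCount, Nat.card_eq_fintype_card, Fintype.card_subtype]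
  rfl

/-- the de Bruijn-Erdos theorem for an incidence relation on two finite sets -/
theorem dbe {α β : Type} (I : α → β → Prop) (s : Finset α) (t : Finset β)
    (h1 : ∀ x ∈ s, ∀ y ∈ s, x ≠ y → ∃ b ∈ t, I x b ∧ I y b)
    (h2 : ∀ x ∈ s, ∀ y ∈ s, ∀ b ∈ t, ∀ c ∈ t, I x b → I y b → I x c → I y c → x = y ∨ b = c)
    (hc : t.card < s.card) (h0 : 2 ≤ s.card) : ∃ b ∈ t, ∀ x ∈ s, I x b := by
  by_contra hcon
  push Not at hcon
  let iM : Membership s t := ⟨fun b x => I x.1 b.1⟩
  have hmem : ∀ (x : s) (b : t), x ∈ b ↔ I x.1 b.1 := fun x b => Iff.rfl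
  have hlines : ∀ {x y : s}, x ≠ y → ∃ b : t, x ∈ b ∧ y ∈ b := by
    intro x y hxy
    obtain ⟨b, hb, h3, h4⟩ := h1 x.1 x.2 y.1 y.2 (fun h => hxy (Subtype.ext h))
    exact ⟨⟨b, hb⟩, h3, h4⟩
  have hpt : ∀ b : t, ∃ x : s, x ∉ b := by
    intro b
    obtain ⟨x, hx, hxb⟩ := hcon b.1 b.2
    exact ⟨⟨x, hx⟩, hxb⟩
  have heq : ∀ {x y : s} {b c : t}, x ∈ b → y ∈ b → x ∈ c → y ∈ c → x = y ∨ b = c := by
    intro x y b c hxb hyb hxc hyc
    rcases h2 x.1 x.2 y.1 y.2 b.1 b.2 c.1 c.2 hxb hyb hxc hyc with h | h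
    · exact Or.inl (Subtype.ext h)
    · exact Or.inr (Subtype.ext h)
  have hln : ∀ x : s, ∃ b : t, x ∉ b := by
    intro x
    by_contra hx
    push Not at hx
    obtain ⟨y, hy, hyx⟩ : ∃ y ∈ s, y ≠ x.1 := by
      have : 1 < s.card := by omega
      exact Finset.exists_mem_ne this x.1
    obtain ⟨b, hxb, hyb⟩ := hlines (x := x) (y := ⟨y, hy⟩) (fun h => hyx (by rw [h]))
    obtain ⟨z, hz⟩ := hpt b
    have hyz : (⟨y, hy⟩ : s) ≠ z := fun h => hz (h ▸ hyb)
    obtain ⟨c, hyc, hzc⟩ := hlines hyz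
    rcases heq hxb hyb (hx c) hyc with h | h
    · exact hyx (by rw [h])
    · rw [h] at hz; exact hz hzc
  let iN : Nondegenerate s t := ⟨hpt, hln, heq⟩
  let iH : HasLines s t := { iN with
    mkLine := fun h => Classical.choose (hlines h)
    mkLine_ax := fun h => Classical.choose_spec (hlines h) }
  have := HasLines.card_le s t
  simp only [Fintype.card_coe] at this
  omega

end

end Pool.Agent.N367.PPD
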