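import Pool.Agent.N367.PPD.Coll

set_option autoImplicit false
set_option linter.unusedSectionVars false

/-!
# The permutation attached to a centre, an axis and a pair of points
-/

namespace Pool.Agent.N367.PPD

open Configuration Configuration.ProjectivePlane Finset
open scoped Classical

noncomputable section

variable {P L : Type} [Membership P L] [ProjectivePlane P L]

/-- the image of `z` under the (hoped-for) perspectivity with centre `C` and axis `a` mapping
`x` to `y` -/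
def im (a : L) (C x y z : P) : P := mt P (jn L C z) (jn L y (mt P (jn L x z) a))

/-- an admissible quadruple: `C`, `x`, `y` are collinear, distinct, and `x`, `y` are off `a` -/
structure Adm (a : L) (C x y : P) : Prop where
  xa : x ∉ a
  ya : y ∉ a
  xC : C ≠ x
  yC : C ≠ y
  xy : x ≠ y
  col : y ∈ jn L C x

namespace Adm

variable {a : L} {C x y z : P} (h : Adm a C x y)

include h

theorem symm : Adm a C y x :=
  ⟨h.ya, h.xa, h.yC, h.xC, h.xy.symm, by
    rw [← eq_jn h.yC (jn_left h.xC) h.col]; exact jn_right h.xC⟩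

theorem jn_eq : jn L C y = jn L C x := (eq_jn h.yC (jn_left h.xC) h.col).symm

theorem ne_a : jn L C x ≠ a := fun h1 => h.xa (h1 ▸ jn_right h.xC)

section

variable (hza : z ∉ a) (hzm : z ∉ jn L C x)

include hzm

theorem zx : x ≠ z := fun h1 => hzm (h1 ▸ jn_right h.xC)

theorem zC : C ≠ z := fun h1 => hzm (h1 ▸ jn_left h.xC)

theorem xz_ne : jn L x z ≠ a := fun h1 => h.xa (h1 ▸ jn_left (h.zx hzm))

theorem e_a : mt P (jn L x z) a ∈ a := mt_right (h.xz_ne hzm)

theorem e_xz : mt P (jn L x z) a ∈ jn L x z := mt_left (h.xz_ne hzm)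

theorem e_x : x ≠ mt P (jn L x z) a := fun h1 => h.xa (by
  have := h.e_a hzm
  rwa [← h1] at this)

theorem e_y : y ≠ mt P (jn L x z) a := fun h1 => h.ya (by
  have := h.e_a hzm
  rwa [← h1] at this)

include hza in
theorem e_z : z ≠ mt P (jn L x z) a := fun h1 => hza (by
  have := h.e_a hzm
  rwa [← h1] at this)

theorem xz_ne_m : jn L x z ≠ jn L C x := fun h1 => hzm (h1 ▸ jn_right (h.zx hzm))

theorem e_m : mt P (jn L x z) a ∉ jn L C x := by
  intro h1
  exact h.xz_ne_m hzm (line_eq (h.e_x hzm) (jn_left (h.zx hzm)) (h.e_xz hzm) (jn_right h.xC) h1)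

theorem Cz_ne : jn L C z ≠ jn L C x := fun h1 => hzm (h1 ▸ jn_right (h.zC hzm))

theorem ye_ne_m : jn L y (mt P (jn L x z) a) ≠ jn L C x := fun h1 =>
  h.e_m hzm (h1 ▸ jn_right (h.e_y hzm))

theorem ye_ne_a : jn L y (mt P (jn L x z) a) ≠ a := fun h1 =>
  h.ya (h1 ▸ jn_left (h.e_y hzm))

theorem Cz_ne_ye : jn L C z ≠ jn L y (mt P (jn L x z) a) := by
  intro h1
  apply h.Cz_ne hzm
  refine line_eq h.yC (jn_left (h.zC hzm)) ?_ (jn_left h.xC) h.col
  rw [h1]; exact jn_left (h.e_y hzm)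

theorem im_Cz : im a C x y z ∈ jn L C z := mt_left (h.Cz_ne_ye hzm)

theorem im_ye : im a C x y z ∈ jn L y (mt P (jn L x z) a) := mt_right (h.Cz_ne_ye hzm)

theorem im_m : im a C x y z ∉ jn L C x := by
  intro h1
  have h2 : im a C x y z = C :=
    pt_eq (h.Cz_ne hzm) (h.im_Cz hzm) (jn_left (h.zC hzm)) h1 (jn_left h.xC)
  have h3 : C ∈ jn L y (mt P (jn L x z) a) := by
    have := h.im_ye hzm
    rwa [h2] at this
  exact h.ye_ne_m hzm (line_eq h.yC h3 (jn_left (h.e_y hzm)) (jn_left h.xC) h.col)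

include hza in
theorem im_a : im a C x y z ∉ a := by
  intro h1
  have h2 : im a C x y z = mt P (jn L x z) a :=
    pt_eq (h.ye_ne_a hzm) (h.im_ye hzm) (jn_right (h.e_y hzm)) h1 (h.e_a hzm)
  have h3 : mt P (jn L x z) a ∈ jn L C z := by
    have := h.im_Cz hzm
    rwa [h2] at this
  have h4 : jn L C z = jn L x z :=
    line_eq (h.e_z hza hzm) (jn_right (h.zC hzm)) h3 (jn_right (h.zx hzm)) (h.e_xz hzm)
  apply h.Cz_ne hzm
  refine line_eq h.xC (jn_left (h.zC hzm)) ?_ (jn_left h.xC) (jn_right h.xC)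
  rw [h4]; exact jn_left (h.zx hzm)

include hza in
theorem im_im : im a C y x (im a C x y z) = z := by
  set w := im a C x y z with hw
  have hwa : w ∉ a := h.im_a hza hzm
  have hwm : w ∉ jn L C x := h.im_m hzm
  have hwm' : w ∉ jn L C y := by rw [h.jn_eq]; exact hwm
  have hyw : y ≠ w := h.symm.zx hwm'
  have hCw : C ≠ w := h.zC hwm
  have h1 : jn L y w = jn L y (mt P (jn L x z) a) :=
    (eq_jn hyw (jn_left (h.e_y hzm)) (h.im_ye hzm)).symm
  have h2 : mt P (jn L y w) a = mt P (jn L x z) a := by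
    rw [h1]
    exact (eq_mt (h.ye_ne_a hzm) (jn_right (h.e_y hzm)) (h.e_a hzm)).symm
  have h3 : jn L C w = jn L C z := (eq_jn hCw (jn_left (h.zC hzm)) (h.im_Cz hzm)).symm
  have h4 : jn L x (mt P (jn L x z) a) = jn L x z :=
    (eq_jn (h.e_x hzm) (jn_left (h.zx hzm)) (h.e_xz hzm)).symm
  rw [im, h2, h3, h4]
  symm
  refine eq_mt ?_ (jn_right (h.zC hzm)) (jn_right (h.zx hzm))
  intro h5
  apply h.Cz_ne hzm
  refine line_eq h.xC (jn_left (h.zC hzm)) ?_ (jn_left h.xC) (jn_right h.xC)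
  rw [h5]; exact jn_left (h.zx hzm)

include hza in
theorem im_ne : im a C x y z ≠ z := by
  intro h1
  have h2 : z ∈ jn L y (mt P (jn L x z) a) := by
    have := h.im_ye hzm
    rwa [h1] at this
  have h3 : jn L y (mt P (jn L x z) a) = jn L x z :=
    line_eq (h.e_z hza hzm) h2 (jn_right (h.e_y hzm)) (jn_right (h.zx hzm)) (h.e_xz hzm)
  have h4 : y ∈ jn L x z := by rw [← h3]; exact jn_left (h.e_y hzm)
  exact h.xz_ne_m hzm (line_eq h.xy (jn_left (h.zx hzm)) h4 (jn_right h.xC) h.col)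

end

/-- the permutation -/
def perm : Equiv.Perm P where
  toFun z := if z ∉ a ∧ z ∉ jn L C x then im a C x y z else z
  invFun z := if z ∉ a ∧ z ∉ jn L C x then im a C y x z else z
  left_inv := by
    intro z
    by_cases hz : z ∉ a ∧ z ∉ jn L C x
    · have h1 := h.im_a hz.1 hz.2
      have h2 := h.im_m hz.2
      simp only [if_pos hz]
      rw [if_pos ⟨h1, h2⟩]
      exact h.im_im hz.1 hz.2
    · simp only [if_neg hz]
  right_inv := by
    intro z
    by_cases hz : z ∉ a ∧ z ∉ jn L C x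
    · have hz' : z ∉ jn L C y := by rw [h.jn_eq]; exact hz.2
      have h1 := h.symm.im_a hz.1 hz'
      have h2 := h.symm.im_m hz'
      rw [h.jn_eq] at h2
      simp only [if_pos hz]
      rw [if_pos ⟨h1, h2⟩]
      exact h.symm.im_im hz.1 hz'
    · simp only [if_neg hz]

theorem perm_of (hza : z ∉ a) (hzm : z ∉ jn L C x) : h.perm z = im a C x y z := by
  change (if z ∉ a ∧ z ∉ jn L C x then im a C x y z else z) = _
  rw [if_pos ⟨hza, hzm⟩]

theorem perm_not (hz : z ∈ a ∨ z ∈ jn L C x) : h.perm z = z := by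
  change (if z ∉ a ∧ z ∉ jn L C x then im a C x y z else z) = _
  rw [if_neg]
  rintro ⟨h1, h2⟩
  rcases hz with hz | hz
  · exact h1 hz
  · exact h2 hz

variable [Fintype P] [Fintype L]

/-- the data attached to an admissible quadruple -/
def dat : Dat P L where
  a := a
  m := jn L C x
  C := C
  T := h.perm
  ham := h.ne_a.symm
  hC := jn_left h.xC
  hTa p hp := h.perm_not (Or.inl hp)
  hTm p hp := h.perm_not (Or.inr hp)
  hTC l hl p hp := by
    by_cases hpX : p ∉ a ∧ p ∉ jn L C x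
    · rw [h.perm_of hpX.1 hpX.2, eq_jn (h.zC hpX.2) hl hp]
      exact h.im_Cz hpX.2
    · rw [h.perm_not]
      · exact hp
      · by_contra hcon
        push Not at hcon
        exact hpX hcon

/-- few failures imply that there is a perspectivity -/
theorem exists_persp (hs : h.dat.Sm) (hn : 3 ≤ order P L) :
    ∃ (σ : Equiv.Perm P) (τ : Equiv.Perm L), (∀ p l, σ p ∈ τ l ↔ p ∈ l) ∧
      (∀ p, p ∈ a → σ p = p) ∧ (∀ l : L, C ∈ l → τ l = l) ∧ σ x = y := by
  obtain ⟨σ, τ, h1, h2, h3, h4⟩ := h.dat.collineation hs hn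
  refine ⟨σ, τ, h1, h2, h3, ?_⟩
  -- a typical point
  obtain ⟨z, hzX, hzB⟩ : ∃ z ∈ h.dat.X, z ∉ h.dat.B := by
    by_contra hcon
    push Not at hcon
    have hl : ∃ l ∈ (lns C : Finset L), l ∉ ({a, jn L C x} : Finset L) := by
      by_contra hc
      push Not at hc
      have h5 := Finset.card_le_card (fun l hl => hc l hl : (lns C : Finset L) ⊆ {a, jn L C x})
      have h6 : ({a, jn L C x} : Finset L).card ≤ 2 := Finset.card_le_two
      rw [card_lns] at h5
      omega
    obtain ⟨l, -, hl⟩ := hl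
    simp only [Finset.mem_insert, Finset.mem_singleton, not_or] at hl
    have h5 := h.dat.px_ge hl.1 hl.2
    have h6 : (h.dat.px l).card ≤ h.dat.B.card :=
      Finset.card_le_card fun p hp => hcon p (h.dat.mem_px.1 hp).1
    have h7 := h.dat.B_small hs
    omega
  rw [Dat.mem_X] at hzX
  obtain ⟨hza, hzm⟩ := hzX
  change z ∉ a at hza
  change z ∉ jn L C x at hzm
  have h5 : σ z = im a C x y z := by
    rw [h4 z ((Dat.mem_X _).2 ⟨hza, hzm⟩) hzB]
    exact h.perm_of hza hzm
  have h6 : σ x ∈ jn L C x := by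
    rw [← h3 (jn L C x) (jn_left h.xC), h1]
    exact jn_right h.xC
  have h7 : τ (jn L x z) = jn L y (mt P (jn L x z) a) := by
    have h8 : im a C x y z ≠ mt P (jn L x z) a := fun h9 =>
      h.im_a hza hzm (by rw [h9]; exact h.e_a hzm)
    refine line_eq h8 ?_ ?_ (h.im_ye hzm) (jn_right (h.e_y hzm))
    · rw [← h5, h1]; exact jn_right (h.zx hzm)
    · rw [← h2 _ (h.e_a hzm), h1]; exact h.e_xz hzm
  have h8 : σ x ∈ jn L y (mt P (jn L x z) a) := by
    rw [← h7, h1]; exact jn_left (h.zx hzm)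
  exact pt_eq (h.ye_ne_m hzm) h8 (jn_left (h.e_y hzm)) h6 h.col

end Adm

end

end Pool.Agent.N367.PPD
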