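import Pool.Agent.N367.PPD.Star

set_option autoImplicit false
set_option linter.unusedSectionVars false

/-!
# Points with few failures are mapped correctly
-/

namespace Pool.Agent.N367.PPD

open Configuration Configuration.ProjectivePlane Finset
open scoped Classical

noncomputable section

variable {P L : Type} [Membership P L] [ProjectivePlane P L] [Fintype P] [Fintype L]

namespace Dat

variable (D : Dat P L)

/-- the direction of a line -/
def dir (l : L) : P := mt P l D.a

theorem dir_mem {l : L} (h : l ≠ D.a) : D.dir l ∈ l := mt_left h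

theorem dir_a {l : L} (h : l ≠ D.a) : D.dir l ∈ D.a := mt_right h

theorem dir_eq {l : L} (h : l ≠ D.a) {e : P} (h1 : e ∈ D.a) (h2 : e ∈ l) : e = D.dir l :=
  eq_mt h h2 h1

theorem dir_ne {k l : L} (hk : k ≠ D.a) (hl : l ≠ D.a) (h : k ≠ l) {z : P} (hz : z ∉ D.a)
    (h1 : z ∈ k) (h2 : z ∈ l) : D.dir k ≠ D.dir l := by
  intro h3
  apply h
  have h4 := D.dir_mem hk
  have h5 := D.dir_mem hl
  rw [← h3] at h5
  exact line_eq (p := z) (q := D.dir k) (fun h6 => hz (h6 ▸ D.dir_a hk)) h1 h4 h2 h5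

theorem st_dir {l : L} (h : D.good l) : D.dir l ∈ D.st l :=
  D.st_mem h (D.dir_a h.1) (D.dir_mem h.1)

theorem st_ne_of_dir {k l : L} (hk : D.good k) (hl : D.good l) (h : D.dir k ≠ D.dir l) :
    D.st k ≠ D.st l := by
  intro h1
  apply D.st_ne hk
  have h2 := D.st_dir hk
  have h3 := D.st_dir hl
  rw [← h1] at h3
  exact line_eq h h2 h3 (D.dir_a hk.1) (D.dir_a hl.1)

theorem mt_st_not_a {k l : L} (hk : D.good k) (hl : D.good l) (h : D.dir k ≠ D.dir l) :
    mt P (D.st k) (D.st l) ∉ D.a := by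
  intro h1
  have hne := D.st_ne_of_dir hk hl h
  have h2 := pt_eq (D.st_ne hk) (mt_left hne) (D.st_dir hk) h1 (D.dir_a hk.1)
  have h3 := pt_eq (D.st_ne hl) (mt_right hne) (D.st_dir hl) h1 (D.dir_a hl.1)
  exact h (h2.symm.trans h3)

theorem st_hit {l : L} (h : D.good l) : ∃ w ∈ D.px l, D.T w ∈ D.st l := by
  have hn := one_lt_order P L
  by_contra hcon
  push Not at hcon
  have h1 : D.ls l (D.st l) = D.px l := Finset.filter_true_of_mem hcon
  have h2 := D.st_card h
  have h3 := D.px_ge h.1 h.2.1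
  rw [h1] at h2
  omega

theorem st_ne_m {l : L} (h : D.good l) : D.st l ≠ D.m := by
  obtain ⟨w, hw, hw'⟩ := D.st_hit h
  intro h1
  rw [h1] at hw'
  rw [mem_px] at hw
  have := D.T_X.2 hw.1
  rw [mem_X] at this
  exact this.2 hw'

/-- good lines through `z` whose image contains the image of `z` -/
def G (z : P) : Finset L := (lns z).filter (fun k => D.good k ∧ D.T z ∈ D.st k)

def lost (z : P) : Finset L := (lns z).filter (fun k => D.good k ∧ D.T z ∉ D.st k)

@[simp] theorem mem_G {z : P} {k : L} : k ∈ D.G z ↔ z ∈ k ∧ D.good k ∧ D.T z ∈ D.st k := by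
  simp [G]

@[simp] theorem mem_lost {z : P} {k : L} :
    k ∈ D.lost z ↔ z ∈ k ∧ D.good k ∧ D.T z ∉ D.st k := by
  simp [lost]

theorem lost_card (hn : 32 ≤ order P L) {z : P} (hz : z ∈ D.X) (hzB : z ∉ D.B) :
    8 * (D.lost z).card ≤ order P L := by
  have h1 : ∑ k ∈ D.lost z, ((D.px k).filter (fun w => D.T w ∈ D.st k)).card ≤ D.dg z := by
    rw [← Finset.card_biUnion]
    · apply Finset.card_le_card
      intro w hw
      rw [Finset.mem_biUnion] at hw
      obtain ⟨k, hk, hw⟩ := hw
      rw [mem_lost] at hk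
      rw [Finset.mem_filter, mem_px] at hw
      rw [Finset.mem_filter]
      exact ⟨hw.1.1, D.fl_of' (D.dir_a hk.2.1.1) (D.dir_mem hk.2.1.1) hk.1 hw.1.2
        (D.st_dir hk.2.1) hw.1.1 hk.2.2 hw.2⟩
    · intro k hk j hj hkj
      rw [Function.onFun, Finset.disjoint_left]
      intro w hw hw'
      rw [Finset.mem_coe, mem_lost] at hk hj
      rw [Finset.mem_filter, mem_px] at hw hw'
      apply hkj
      refine line_eq (p := z) (q := w) ?_ hk.1 hw.1.2 hj.1 hw'.1.2
      rintro rfl
      exact hk.2.2 hw.2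
  have h2 : ∀ k ∈ D.lost z, 9 * order P L - 10 ≤
      10 * ((D.px k).filter (fun w => D.T w ∈ D.st k)).card := by
    intro k hk
    rw [mem_lost] at hk
    have h3 := D.px_ge hk.2.1.1 hk.2.1.2.1
    have h4 := D.st_card hk.2.1
    have h5 := Finset.card_filter_add_card_filter_not (s := D.px k) (fun p => D.T p ∈ D.st k)
    rw [ls] at h4
    omega
  have h3 : D.dg z * 10 ≤ order P L ^ 2 := by
    by_contra h4
    push Not at h4
    exact hzB (Finset.mem_filter.2 ⟨hz, by omega⟩)
  have h4 : (D.lost z).card * (9 * order P L - 10) ≤ 10 * D.dg z := by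
    calc (D.lost z).card * (9 * order P L - 10) = ∑ k ∈ D.lost z, (9 * order P L - 10) := by
          rw [Finset.sum_const, smul_eq_mul]
      _ ≤ ∑ k ∈ D.lost z, 10 * ((D.px k).filter (fun w => D.T w ∈ D.st k)).card :=
          Finset.sum_le_sum h2
      _ ≤ _ := by rw [← Finset.mul_sum]; exact Nat.mul_le_mul_left _ h1
  have h5 : (D.lost z).card * (8 * order P L) ≤ order P L ^ 2 := by
    refine le_trans (Nat.mul_le_mul_left _ ?_) (h4.trans (by omega))
    omega
  have h6 : (8 * (D.lost z).card) * order P L ≤ order P L * order P L := by nlinarith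
  exact Nat.le_of_mul_le_mul_right h6 (by omega)

theorem G_card (h : D.Sm) (hn : 32 ≤ order P L) {z : P} (hz : z ∈ D.X) (hzB : z ∉ D.B) :
    4 * order P L ≤ 5 * (D.G z).card := by
  have h1 := D.lost_card hn hz hzB
  have h2 := D.bl_small h
  have h3 : (lns z : Finset L) ⊆ D.G z ∪ (D.lost z ∪ D.bl) := by
    intro k hk
    rw [mem_lns] at hk
    rw [Finset.mem_union, Finset.mem_union, mem_G, mem_lost, mem_bl]
    rw [mem_X] at hz
    by_cases hg : D.good k
    · by_cases hT : D.T z ∈ D.st k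
      · exact Or.inl ⟨hk, hg, hT⟩
      · exact Or.inr (Or.inl ⟨hk, hg, hT⟩)
    · refine Or.inr (Or.inr ⟨?_, ?_, ?_⟩)
      · rintro rfl; exact hz.1 hk
      · rintro rfl; exact hz.2 hk
      · intro h4
        exact hg ⟨fun h => hz.1 (h ▸ hk), fun h => hz.2 (h ▸ hk), h4⟩
  have h4 := Finset.card_le_card h3
  have h5 := Finset.card_union_le (D.G z) (D.lost z ∪ D.bl)
  have h6 := Finset.card_union_le (D.lost z) D.bl
  rw [card_lns] at h4
  omega

theorem card_inter_le (l k : L) (h : l ≠ k) : ((pts l : Finset P).filter (fun q => q ∈ k)).card ≤ 1 := by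
  rw [Finset.card_le_one]
  intro p hp q hq
  rw [Finset.mem_filter, mem_pts] at hp hq
  exact pt_eq h hp.1 hq.1 hp.2 hq.2

/-- points with few failures are mapped into the images of the good lines through them -/
theorem ex (h : D.Sm) {z : P} (hz : z ∈ D.X) (hzB : z ∉ D.B) {l : L} (hl : D.good l)
    (hzl : z ∈ l) : D.T z ∈ D.st l := by
  by_contra hT
  have hLF : (z, l) ∈ D.LF := by
    simp only [LF, Finset.mem_filter, Finset.mem_univ, true_and, ls, mem_px]
    exact ⟨hl, ⟨hz, hzl⟩, hT⟩
  have hn := D.big h ⟨_, hLF⟩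
  have hza : z ∉ D.a := (D.mem_X.1 hz).1
  have hzm : z ∉ D.m := (D.mem_X.1 hz).2
  -- first stage
  have hkl : ∀ k ∈ D.G z, k ≠ l := by
    rintro k hk rfl
    exact hT (D.mem_G.1 hk).2.2
  have hkd : ∀ k ∈ D.G z, D.dir k ≠ D.dir l := fun k hk =>
    D.dir_ne (D.mem_G.1 hk).2.1.1 hl.1 (hkl k hk) hza (D.mem_G.1 hk).1 hzl
  have hks : ∀ k ∈ D.G z, D.st k ≠ D.st l := fun k hk =>
    D.st_ne_of_dir (D.mem_G.1 hk).2.1 hl (hkd k hk)
  set x : L → P := fun k => D.T.symm (mt P (D.st k) (D.st l)) with hx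
  have hTx : ∀ k, D.T (x k) = mt P (D.st k) (D.st l) := fun k => by simp [hx]
  have hTxl : ∀ k ∈ D.G z, D.T (x k) ∈ D.st l := fun k hk => by
    rw [hTx]; exact mt_right (hks k hk)
  have hTxk : ∀ k ∈ D.G z, D.T (x k) ∈ D.st k := fun k hk => by
    rw [hTx]; exact mt_left (hks k hk)
  have hxa : ∀ k ∈ D.G z, x k ∉ D.a := fun k hk h1 => by
    have h2 := D.T_a.2 h1
    rw [hTx] at h2
    exact D.mt_st_not_a (D.mem_G.1 hk).2.1 hl (hkd k hk) h2
  have hxz : ∀ k ∈ D.G z, x k ≠ z := fun k hk h1 => hT (h1 ▸ hTxl k hk)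
  have hxinj : Set.InjOn x (D.G z) := by
    intro k hk j hj hkj
    rw [Finset.mem_coe] at hk hj
    by_contra hne
    have h1 := D.dir_ne (D.mem_G.1 hk).2.1.1 (D.mem_G.1 hj).2.1.1 hne hza (D.mem_G.1 hk).1
      (D.mem_G.1 hj).1
    have h2 := D.st_ne_of_dir (D.mem_G.1 hk).2.1 (D.mem_G.1 hj).2.1 h1
    have h3 := pt_eq h2 (hTxk k hk) (D.mem_G.1 hk).2.2 (by rw [hkj]; exact hTxk j hj)
      (D.mem_G.1 hj).2.2
    exact hxz k hk (D.T.injective h3)
  set P' := (D.G z).filter (fun k => x k ∈ D.X ∧ x k ∉ D.B ∧ x k ∈ l) with hP'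
  have hxk : ∀ k ∈ P', x k ∉ k := by
    intro k hk h1
    rw [hP', Finset.mem_filter] at hk
    exact hxz k hk.1 (pt_eq (hkl k hk.1) h1 (D.mem_G.1 hk.1).1 hk.2.2.2 hzl)
  have hP'card : order P L ≤ 2 * P'.card := by
    set S1 := ((pts (D.st l) : Finset P).filter (fun q => q ∈ D.m)) with hS1
    set S2 := D.X.filter (fun w => D.T w ∈ D.st l ∧ w ∉ l) with hS2
    have h1 : ((D.G z).filter (fun k => ¬ (x k ∈ D.X ∧ x k ∉ D.B ∧ x k ∈ l))).card ≤
        (S1 ∪ (S2 ∪ D.B)).card := by
      apply Finset.card_le_card_of_injOn x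
      · intro k hk
        rw [Finset.mem_coe, Finset.mem_filter] at hk
        rw [Finset.mem_coe, Finset.mem_union, Finset.mem_union]
        by_cases hm : x k ∈ D.m
        · left
          rw [hS1, Finset.mem_filter, mem_pts]
          have h2 := hTxl k hk.1
          rw [D.hTm _ hm] at h2
          exact ⟨h2, hm⟩
        · right
          have hX : x k ∈ D.X := D.mem_X.2 ⟨hxa k hk.1, hm⟩
          by_cases hB : x k ∈ D.B
          · right; exact hB
          · left
            rw [hS2, Finset.mem_filter]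
            exact ⟨hX, hTxl k hk.1, fun h3 => hk.2 ⟨hX, hB, h3⟩⟩
      · exact hxinj.mono (by intro k hk; exact (Finset.mem_filter.1 hk).1)
    have h2 : S1.card ≤ 1 := card_inter_le _ _ (D.st_ne_m hl)
    have h3 : S2.card + ((D.px l).filter (fun w => D.T w ∈ D.st l)).card ≤ order P L := by
      rw [← Finset.card_union_of_disjoint]
      · refine le_trans ?_ (D.px_le (D.st_ne hl))
        apply Finset.card_le_card_of_injOn D.T
        · intro w hw
          rw [Finset.mem_coe, Finset.mem_union] at hw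
          rw [Finset.mem_coe, mem_px]
          rcases hw with hw | hw
          · rw [hS2, Finset.mem_filter] at hw
            exact ⟨D.T_X.2 hw.1, hw.2.1⟩
          · rw [Finset.mem_filter, mem_px] at hw
            exact ⟨D.T_X.2 hw.1.1, hw.2⟩
        · exact D.T.injective.injOn
      · rw [Finset.disjoint_left]
        intro w hw hw'
        rw [hS2, Finset.mem_filter] at hw
        rw [Finset.mem_filter, mem_px] at hw'
        exact hw.2.2 hw'.1.2
    have h4 := Finset.card_filter_add_card_filter_not (s := D.px l) (fun p => D.T p ∈ D.st l)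
    have h5 := D.st_card hl
    have h6 := D.px_ge hl.1 hl.2.1
    have h7 := D.B_small h
    have h8 := Finset.card_union_le S1 (S2 ∪ D.B)
    have h9 := Finset.card_union_le S2 D.B
    have h10 := Finset.card_filter_add_card_filter_not (s := D.G z)
      (fun k => x k ∈ D.X ∧ x k ∉ D.B ∧ x k ∈ l)
    have h11 := D.G_card h hn hz hzB
    rw [ls] at h5
    rw [← hP'] at h10
    omega
  -- second stage
  have hsec : ∀ k ∈ P', ∃ H' : Finset L, order P L ≤ 2 * H'.card ∧ ∀ j ∈ H', x k ∈ j ∧ j ≠ k ∧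
      mt P j k ≠ z ∧ (mt P j k, j) ∈ D.LF := by
    intro k hk
    have hk0 := hk
    rw [hP', Finset.mem_filter] at hk
    obtain ⟨hkG, hkX, hkB, hkxl⟩ := hk
    have hkgood := (D.mem_G.1 hkG).2.1
    have hxna := hxa k hkG
    have hnk := hxk k hk0
    set H := (D.G (x k)).filter (fun j => D.dir j ≠ D.dir k) with hH
    have hjk : ∀ j ∈ H, j ≠ k := by
      rintro j hj rfl
      rw [hH, Finset.mem_filter] at hj
      exact hj.2 rfl
    have hw : ∀ j ∈ H, mt P j k ∈ j ∧ mt P j k ∈ k := fun j hj =>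
      ⟨mt_left (hjk j hj), mt_right (hjk j hj)⟩
    have hwa : ∀ j ∈ H, mt P j k ∉ D.a := by
      intro j hj h1
      have h2 := hj
      rw [hH, Finset.mem_filter] at h2
      apply h2.2
      have h3 := D.dir_eq (D.mem_G.1 h2.1).2.1.1 h1 (hw j hj).1
      have h4 := D.dir_eq hkgood.1 h1 (hw j hj).2
      rw [← h3, ← h4]
    have hwx : ∀ j ∈ H, mt P j k ≠ x k := fun j hj h1 => hnk (h1 ▸ (hw j hj).2)
    have hinj : Set.InjOn (fun j => mt P j k) H := by
      intro j hj i hi hji
      rw [Finset.mem_coe] at hj hi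
      have h1 : x k ∈ j := (D.mem_G.1 (Finset.mem_filter.1 hj).1).1
      have h2 : x k ∈ i := (D.mem_G.1 (Finset.mem_filter.1 hi).1).1
      refine line_eq (hwx j hj) (hw j hj).1 h1 ?_ h2
      simp only at hji
      rw [hji]; exact (hw i hi).1
    refine ⟨H.filter (fun j => mt P j k ∈ D.X ∧ mt P j k ≠ z ∧ D.T (mt P j k) ∈ D.st k), ?_, ?_⟩
    · have h1 : (H.filter (fun j => ¬ (mt P j k ∈ D.X ∧ mt P j k ≠ z ∧
          D.T (mt P j k) ∈ D.st k))).card ≤
          (((pts k : Finset P).filter (fun q => q ∈ D.m)) ∪ ({z} ∪ D.ls k (D.st k))).card := by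
        apply Finset.card_le_card_of_injOn (fun j => mt P j k)
        · intro j hj
          rw [Finset.mem_coe, Finset.mem_filter] at hj
          simp only [Finset.mem_coe, Finset.mem_union]
          by_cases hm : mt P j k ∈ D.m
          · left
            rw [Finset.mem_filter, mem_pts]
            exact ⟨(hw j hj.1).2, hm⟩
          · right
            have hX : mt P j k ∈ D.X := D.mem_X.2 ⟨hwa j hj.1, hm⟩
            by_cases hz' : mt P j k = z
            · left; rw [Finset.mem_singleton]; exact hz'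
            · right
              rw [ls, Finset.mem_filter, mem_px]
              exact ⟨⟨hX, (hw j hj.1).2⟩, fun h3 => hj.2 ⟨hX, hz', h3⟩⟩
        · exact hinj.mono (by intro k hk; exact (Finset.mem_filter.1 hk).1)
      have h2 : ((pts k : Finset P).filter (fun q => q ∈ D.m)).card ≤ 1 :=
        card_inter_le _ _ hkgood.2.1
      have h3 := D.st_card hkgood
      have h4 := Finset.card_union_le ((pts k : Finset P).filter (fun q => q ∈ D.m))
        ({z} ∪ D.ls k (D.st k))
      have h5 := Finset.card_union_le {z} (D.ls k (D.st k))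
      have h6 := Finset.card_filter_add_card_filter_not (s := H)
        (fun j => mt P j k ∈ D.X ∧ mt P j k ≠ z ∧ D.T (mt P j k) ∈ D.st k)
      have h7 := D.G_card h hn hkX hkB
      have h8 := Finset.card_filter_add_card_filter_not (s := D.G (x k))
        (fun j => D.dir j ≠ D.dir k)
      rw [← hH] at h8
      have h9 : ((D.G (x k)).filter (fun j => ¬ D.dir j ≠ D.dir k)).card ≤ 1 := by
        rw [Finset.card_le_one]
        intro j hj i hi
        rw [Finset.mem_filter, not_not, mem_G] at hj hi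
        have h10 := D.dir_mem hj.1.2.1.1
        have h11 := D.dir_mem hi.1.2.1.1
        rw [hj.2] at h10
        rw [hi.2] at h11
        exact line_eq (p := x k) (q := D.dir k) (fun h12 => hxna (h12 ▸ D.dir_a hkgood.1)) hj.1.1 h10
          hi.1.1 h11
      rw [Finset.card_singleton] at h5
      omega
    · intro j hj
      rw [Finset.mem_filter] at hj
      obtain ⟨hjH, hjX, hjz, hjT⟩ := hj
      have hjG := (Finset.mem_filter.1 hjH).1
      rw [mem_G] at hjG
      refine ⟨hjG.1, hjk j hjH, hjz, ?_⟩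
      simp only [LF, Finset.mem_filter, Finset.mem_univ, true_and, ls, mem_px]
      refine ⟨hjG.2.1, ⟨hjX, (hw j hjH).1⟩, ?_⟩
      intro h1
      have hne : D.st j ≠ D.st k :=
        D.st_ne_of_dir hjG.2.1 hkgood (Finset.mem_filter.1 hjH).2
      have h2 := pt_eq hne h1 hjG.2.2 hjT (hTxk k hkG)
      exact hwx j hjH (D.T.injective h2)
  choose! H' hH'1 hH'2 using hsec
  have htot : ∑ k ∈ P', (H' k).card ≤ D.LF.card := by
    rw [← Finset.card_sigma]
    apply Finset.card_le_card_of_injOn (fun y : (_ : L) × L => (mt P y.2 y.1, y.2))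
    · rintro ⟨k, j⟩ hkj
      rw [Finset.mem_coe, Finset.mem_sigma] at hkj
      exact (hH'2 k hkj.1 j hkj.2).2.2.2
    · rintro ⟨k, j⟩ hkj ⟨k', j'⟩ hkj' heq
      rw [Finset.mem_coe, Finset.mem_sigma] at hkj hkj'
      simp only at hkj hkj'
      simp only [Prod.mk.injEq] at heq
      obtain ⟨h1, h2⟩ := heq
      subst h2
      have h3 := hH'2 k hkj.1 j hkj.2
      have h4 := hH'2 k' hkj'.1 j hkj'.2
      have hkG := (Finset.mem_filter.1 hkj.1).1
      have hkG' := (Finset.mem_filter.1 hkj'.1).1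
      have h5 : k = k' := by
        refine line_eq h3.2.2.1 (mt_right h3.2.1) (D.mem_G.1 hkG).1 ?_ (D.mem_G.1 hkG').1
        rw [h1]; exact mt_right h4.2.1
      subst h5
      rfl
  have h1 : P'.card * order P L ≤ 2 * D.LF.card := by
    calc P'.card * order P L = ∑ k ∈ P', order P L := by rw [Finset.sum_const, smul_eq_mul]
      _ ≤ ∑ k ∈ P', 2 * (H' k).card := Finset.sum_le_sum fun k hk => hH'1 k hk
      _ = 2 * ∑ k ∈ P', (H' k).card := by rw [Finset.mul_sum]
      _ ≤ _ := Nat.mul_le_mul_left _ htot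
  have h2 : order P L * order P L ≤ 4 * D.LF.card := by nlinarith
  have h3 := D.LF_card
  unfold Sm at h
  have h4 : order P L * order P L * (order P L - 1) ≤ 4 * D.F := by
    calc order P L * order P L * (order P L - 1) ≤ 4 * D.LF.card * (order P L - 1) :=
          Nat.mul_le_mul_right _ h2
      _ = 4 * ((order P L - 1) * D.LF.card) := by ring
      _ ≤ _ := Nat.mul_le_mul_left _ h3
  obtain ⟨k, hk⟩ : ∃ k, order P L = k + 2 := ⟨order P L - 2, by omega⟩
  rw [hk] at h h4
  simp only [show k + 2 - 1 = k + 1 by omega] at h4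
  nlinarith

end Dat

end

end Pool.Agent.N367.PPD
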