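import Pool.Agent.N367.PPD.Ext

set_option autoImplicit false
set_option linter.unusedSectionVars false

/-!
# The collineation near a permutation with few failures
-/

namespace Pool.Agent.N367.PPD

open Configuration Configuration.ProjectivePlane Finset
open scoped Classical

noncomputable section

variable {P L : Type} [Membership P L] [ProjectivePlane P L] [Fintype P] [Fintype L]

namespace Dat

variable (D : Dat P L)

theorem Q_inj (h : D.Sm) (hn : 3 ≤ order P L) {z w q : P} (hz : z ∉ D.a) (hw : w ∉ D.a)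
    (h1 : D.Q z q) (h2 : D.Q w q) : z = w := by
  have hb2 := D.bl_small h
  have hG := D.G0_card
  have hG2 : 1 < D.G0.card := by omega
  obtain ⟨e, he, f, hf, hef⟩ := Finset.one_lt_card.1 hG2
  have key : ∀ g ∈ D.G0, jn L z g = jn L w g := by
    intro g hg
    have hga := (D.mem_G0.1 hg).1
    have hqg : q ≠ g := fun h3 => h1.1 (h3 ▸ hga)
    have h3 := line_eq hqg (h1.2.1 g hg) (D.e_mem_st hz hg) (h2.2.1 g hg) (D.e_mem_st hw hg)
    exact D.st_inj hn (D.jn_good hz hg) (D.jn_good hw hg) hga (jn_right (D.ze_ne hz hga))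
      (jn_right (D.ze_ne hw hga)) h3
  have hea := (D.mem_G0.1 he).1
  have hfa := (D.mem_G0.1 hf).1
  have hne : jn L z e ≠ jn L z f := by
    intro h3
    apply hef
    rw [← D.dir_jn hz hea, ← D.dir_jn hz hfa, h3]
  refine pt_eq hne (jn_left (D.ze_ne hz hea)) ?_ (jn_left (D.ze_ne hz hfa)) ?_
  · rw [key e he]; exact jn_left (D.ze_ne hw hea)
  · rw [key f hf]; exact jn_left (D.ze_ne hw hfa)

theorem Q_fun (h : D.Sm) (hn : 3 ≤ order P L) {z q r : P} (hz : z ∉ D.a)
    (h1 : D.Q z q) (h2 : D.Q z r) : q = r := by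
  have hb2 := D.bl_small h
  have hG := D.G0_card
  have hG2 : 1 < D.G0.card := by omega
  obtain ⟨e, he, f, hf, hef⟩ := Finset.one_lt_card.1 hG2
  exact pt_eq (D.st_jn_ne hz he hf hef) (h1.2.1 e he) (h2.2.1 e he) (h1.2.1 f hf) (h2.2.1 f hf)

/-- a permutation with few failures agrees with a collineation at all points with few failures -/
theorem collineation (h : D.Sm) (hn : 3 ≤ order P L) :
    ∃ (σ : Equiv.Perm P) (τ : Equiv.Perm L), (∀ p l, σ p ∈ τ l ↔ p ∈ l) ∧
      (∀ p, p ∈ D.a → σ p = p) ∧ (∀ l : L, D.C ∈ l → τ l = l) ∧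
      ∀ z ∈ D.X, z ∉ D.B → σ z = D.T z := by
  have hB2 := D.B_small h
  have hb2 := D.bl_small h
  have hG := D.G0_card
  have hq := fun (z : P) (hz : z ∉ D.a) => D.Q_all h hn hz
  choose! q hq using hq
  set f : P → P := fun z => if z ∈ D.a then z else q z with hf
  have hfa : ∀ z, z ∈ D.a → f z = z := fun z hz => by simp only [hf, if_pos hz]
  have hfq : ∀ z, z ∉ D.a → D.Q z (f z) := fun z hz => by
    simp only [hf, if_neg hz]; exact hq z hz
  have hfna : ∀ z, z ∉ D.a → f z ∉ D.a := fun z hz => (hfq z hz).1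
  have hinj : Function.Injective f := by
    intro z w hzw
    by_cases hz : z ∈ D.a
    · by_cases hw : w ∈ D.a
      · rw [hfa z hz, hfa w hw] at hzw; exact hzw
      · exfalso; apply hfna w hw; rw [← hzw, hfa z hz]; exact hz
    · by_cases hw : w ∈ D.a
      · exfalso; apply hfna z hz; rw [hzw, hfa w hw]; exact hw
      · have h1 := hfq w hw
        rw [← hzw] at h1
        exact D.Q_inj h hn hz hw (hfq z hz) h1
  have hsurj : Function.Surjective f := Finite.surjective_of_injective hinj
  have htyp : ∀ z ∈ D.X, z ∉ D.B → f z = D.T z := fun z hz hzB =>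
    D.Q_fun h hn (D.mem_X.1 hz).1 (hfq z (D.mem_X.1 hz).1) (D.Q_typ h hz hzB)
  -- the lines
  set ok : L → Prop := fun l => ∃ l' : L, ∀ p, p ∈ l → f p ∈ l' with hok
  have ok_a : ok D.a := ⟨D.a, fun p hp => by rw [hfa p hp]; exact hp⟩
  have ok_C : ∀ l : L, D.C ∈ l → ∀ p, p ∈ l → f p ∈ l := by
    intro l hC p hp
    by_cases hpa : p ∈ D.a
    · rw [hfa p hpa]; exact hp
    · exact (hfq p hpa).2.2 l hC hp
  have ok_st : ∀ l : L, D.good l → ∀ z, z ∈ l → z ∉ D.a → f z ∈ D.st l := by
    intro l hl z hzl hza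
    by_cases hdir : D.dir l ∈ D.G0
    · have h1 := (hfq z hza).2.1 _ hdir
      have h2 := D.dir_mem hl.1
      rwa [← eq_jn (D.ze_ne hza (D.dir_a hl.1)) hzl h2] at h1
    · by_contra hcon
      have hne : ∀ g ∈ D.G0, D.st (jn L z g) ≠ D.st l := by
        intro g hg h1
        exact hcon (h1 ▸ (hfq z hza).2.1 g hg)
      have hpa : ∀ g ∈ D.G0, mt P (D.st (jn L z g)) (D.st l) ∉ D.a := by
        intro g hg
        apply D.mt_st_not_a (D.jn_good hza hg) hl
        rw [D.dir_jn hza (D.mem_G0.1 hg).1]
        intro h1; exact hdir (h1 ▸ hg)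
      choose x hx using fun g => hsurj (mt P (D.st (jn L z g)) (D.st l))
      have hxa : ∀ g ∈ D.G0, x g ∉ D.a := by
        intro g hg h1
        apply hpa g hg
        rw [← hx g, hfa _ h1]; exact h1
      have hxj : ∀ g ∈ D.G0, x g ∈ jn L z g := by
        intro g hg
        have hga := (D.mem_G0.1 hg).1
        have h1 := (hfq (x g) (hxa g hg)).2.1 g hg
        have h2 : f (x g) ∈ D.st (jn L z g) := by rw [hx g]; exact mt_left (hne g hg)
        have h3 : f (x g) ≠ g := fun h4 => hfna _ (hxa g hg) (by rw [h4]; exact hga)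
        have h4 := line_eq h3 h1 (D.e_mem_st (hxa g hg) hg) h2 (D.e_mem_st hza hg)
        have h5 := D.st_inj hn (D.jn_good (hxa g hg) hg) (D.jn_good hza hg) hga
          (jn_right (D.ze_ne (hxa g hg) hga)) (jn_right (D.ze_ne hza hga)) h4
        rw [← h5]; exact jn_left (D.ze_ne (hxa g hg) hga)
      have hxl : ∀ g ∈ D.G0, x g ∉ l := by
        intro g hg h1
        have hga := (D.mem_G0.1 hg).1
        have hjl : jn L z g ≠ l := by
          intro h2
          apply hdir
          rw [← h2, D.dir_jn hza hga]; exact hg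
        have h2 := pt_eq hjl (hxj g hg) (jn_left (D.ze_ne hza hga)) h1 hzl
        apply hcon
        rw [← h2, hx g]; exact mt_right (hne g hg)
      have hcount : D.G0.card + ((D.px l) \ D.B).card ≤ order P L := by
        have hximg : (D.G0.image x).card = D.G0.card := by
          apply Finset.card_image_of_injOn
          intro g hg g' hg' hgg
          rw [Finset.mem_coe] at hg hg'
          by_contra hne'
          have h1 : f z ≠ mt P (D.st (jn L z g)) (D.st l) := fun h2 =>
            hcon (h2 ▸ mt_right (hne g hg))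
          have h2 : mt P (D.st (jn L z g)) (D.st l) ∈ D.st (jn L z g') := by
            rw [← hx g, hgg, hx g']; exact mt_left (hne g' hg')
          exact D.st_jn_ne hza hg hg' hne' (line_eq h1 ((hfq z hza).2.1 g hg) (mt_left (hne g hg))
            ((hfq z hza).2.1 g' hg') h2)
        rw [← hximg, ← Finset.card_union_of_disjoint]
        · have h1 : (D.G0.image x ∪ (D.px l) \ D.B).card ≤
              ((pts (D.st l) : Finset P).erase (D.dir l)).card := by
            apply Finset.card_le_card_of_injOn f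
            · intro w hw
              rw [Finset.mem_coe, Finset.mem_union] at hw
              rw [Finset.mem_coe, Finset.mem_erase, mem_pts]
              rcases hw with hw | hw
              · obtain ⟨g, hg, rfl⟩ := Finset.mem_image.1 hw
                refine ⟨fun h2 => hfna _ (hxa g hg) (h2 ▸ D.dir_a hl.1), ?_⟩
                rw [hx g]; exact mt_right (hne g hg)
              · rw [Finset.mem_sdiff, mem_px] at hw
                have h2 := (D.mem_X.1 hw.1.1).1
                refine ⟨fun h3 => hfna _ h2 (h3 ▸ D.dir_a hl.1), ?_⟩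
                rw [htyp w hw.1.1 hw.2]
                exact D.ex h hw.1.1 hw.2 hl hw.1.2
            · exact hinj.injOn
          rw [Finset.card_erase_of_mem (mem_pts.2 (D.st_dir hl)), card_pts] at h1
          omega
        · rw [Finset.disjoint_left]
          intro w hw hw'
          obtain ⟨g, hg, rfl⟩ := Finset.mem_image.1 hw
          rw [Finset.mem_sdiff, mem_px] at hw'
          exact hxl g hg hw'.1.2
      have h1 := D.px_ge hl.1 hl.2.1
      have h2 := Finset.le_card_sdiff D.B (D.px l)
      omega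
  have ok_good : ∀ l : L, D.good l → ok l := by
    intro l hl
    refine ⟨D.st l, fun p hp => ?_⟩
    by_cases hpa : p ∈ D.a
    · rw [hfa p hpa]; exact D.st_mem hl hpa hp
    · exact ok_st l hl p hp hpa
  have hnok : ∀ l : L, ¬ ok l → D.bad l := by
    intro l hl
    refine ⟨fun h1 => hl (h1 ▸ ok_a), fun h1 => hl ⟨l, ok_C l (h1 ▸ D.hC)⟩, fun h1 => hl ?_⟩
    exact ok_good l ⟨fun h1 => hl (h1 ▸ ok_a), fun h1 => hl ⟨l, ok_C l (h1 ▸ D.hC)⟩, h1⟩
  have himg : ∀ l l' : L, (∀ p, p ∈ l → f p ∈ l') → (pts l : Finset P).image f = pts l' := by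
    intro l l' hl
    apply Finset.eq_of_subset_of_card_le
    · intro p hp
      obtain ⟨r, hr, rfl⟩ := Finset.mem_image.1 hp
      exact mem_pts.2 (hl r (mem_pts.1 hr))
    · rw [Finset.card_image_of_injective _ hinj, card_pts, card_pts]
  have hback : ∀ l l' : L, (∀ p, p ∈ l → f p ∈ l') → ∀ p, f p ∈ l' → p ∈ l := by
    intro l l' hl p hp
    have h1 : f p ∈ (pts l : Finset P).image f := by rw [himg l l' hl]; exact mem_pts.2 hp
    obtain ⟨r, hr, hrp⟩ := Finset.mem_image.1 h1
    rw [← hinj hrp]; exact mem_pts.1 hr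
  set φ : L → L := fun l => if hl : ok l then Classical.choose hl else l with hφ
  have hφ1 : ∀ l, ok l → ∀ p, p ∈ l → f p ∈ φ l := by
    intro l hl
    simp only [hφ, dif_pos hl]
    exact Classical.choose_spec hl
  have htwo : ∀ l : L, ∃ p q : P, p ≠ q ∧ p ∈ l ∧ q ∈ l := by
    intro l
    have h1 : 1 < (pts l : Finset P).card := by rw [card_pts]; omega
    obtain ⟨p, hp, q, hq, hpq⟩ := Finset.one_lt_card.1 h1
    exact ⟨p, q, hpq, mem_pts.1 hp, mem_pts.1 hq⟩
  have hφinj : ∀ l k : L, ok l → ok k → φ l = φ k → l = k := by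
    intro l k hl hk hlk
    obtain ⟨p, q, hpq, hp, hq⟩ := htwo l
    refine line_eq hpq hp hq ?_ ?_
    · exact hback k (φ k) (hφ1 k hk) p (hlk ▸ hφ1 l hl p hp)
    · exact hback k (φ k) (hφ1 k hk) q (hlk ▸ hφ1 l hl q hq)
  have hall : ∀ l : L, ok l := by
    intro l
    by_contra hl
    set S := univ.filter (fun j : L => ¬ ∃ k, ok k ∧ φ k = j) with hS
    have hScard : S.card ≤ D.bl.card := by
      have h1 : (univ.filter (fun j : L => ∃ k, ok k ∧ φ k = j)).card =
          (univ.filter (fun k : L => ok k)).card := by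
        symm
        apply Finset.card_bij (fun k _ => φ k)
        · intro k hk
          rw [Finset.mem_filter] at hk ⊢
          exact ⟨Finset.mem_univ _, k, hk.2, rfl⟩
        · intro k hk k' hk' hkk
          exact hφinj k k' (Finset.mem_filter.1 hk).2 (Finset.mem_filter.1 hk').2 hkk
        · intro j hj
          obtain ⟨k, hk, rfl⟩ := (Finset.mem_filter.1 hj).2
          exact ⟨k, Finset.mem_filter.2 ⟨Finset.mem_univ _, hk⟩, rfl⟩
      have h2 := Finset.card_filter_add_card_filter_not (s := (univ : Finset L))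
        (fun j : L => ∃ k, ok k ∧ φ k = j)
      have h3 := Finset.card_filter_add_card_filter_not (s := (univ : Finset L))
        (fun k : L => ok k)
      have h4 : (univ.filter (fun k : L => ¬ ok k)).card ≤ D.bl.card := by
        apply Finset.card_le_card
        intro k hk
        exact D.mem_bl.2 (hnok k (Finset.mem_filter.1 hk).2)
      rw [← hS] at h2
      omega
    have hV : ((pts l : Finset P).image f).card = order P L + 1 := by
      rw [Finset.card_image_of_injective _ hinj, card_pts]
    obtain ⟨b, -, hb⟩ := dbe (fun (p : P) (l : L) => p ∈ l) ((pts l : Finset P).image f) S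
      (by
        intro x hx y hy hxy
        obtain ⟨z, hz, rfl⟩ := Finset.mem_image.1 hx
        obtain ⟨w, hw, rfl⟩ := Finset.mem_image.1 hy
        refine ⟨jn L (f z) (f w), ?_, jn_left hxy, jn_right hxy⟩
        rw [hS, Finset.mem_filter]
        refine ⟨Finset.mem_univ _, ?_⟩
        rintro ⟨k, hk, hk2⟩
        have h1 := hback k (φ k) (hφ1 k hk) z (hk2 ▸ jn_left hxy)
        have h2 := hback k (φ k) (hφ1 k hk) w (hk2 ▸ jn_right hxy)
        apply hl
        rw [line_eq (fun h3 => hxy (by rw [h3])) (mem_pts.1 hz) (mem_pts.1 hw) h1 h2]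
        exact hk)
      (by
        intro x _ y _ b _ c _ h1 h2 h3 h4
        exact Nondegenerate.eq_or_eq h1 h2 h3 h4)
      (by omega) (by omega)
    exact hl ⟨b, fun p hp => hb _ (Finset.mem_image_of_mem _ (mem_pts.2 hp))⟩
  have hφbij : Function.Bijective φ := by
    rw [← Finite.injective_iff_bijective]
    intro l k hlk
    exact hφinj l k (hall l) (hall k) hlk
  refine ⟨Equiv.ofBijective f ⟨hinj, hsurj⟩, Equiv.ofBijective φ hφbij, ?_, ?_, ?_, ?_⟩
  · intro p l
    simp only [Equiv.ofBijective_apply]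
    exact ⟨fun h1 => hback l (φ l) (hφ1 l (hall l)) p h1, fun h1 => hφ1 l (hall l) p h1⟩
  · intro p hp
    exact hfa p hp
  · intro l hC
    simp only [Equiv.ofBijective_apply]
    obtain ⟨p, q, hpq, hp, hq⟩ := htwo l
    exact line_eq (fun h1 => hpq (hinj h1)) (hφ1 l (hall l) p hp) (hφ1 l (hall l) q hq)
      (ok_C l hC p hp) (ok_C l hC q hq)
  · intro z hz hzB
    exact htyp z hz hzB

end Dat

end

end Pool.Agent.N367.PPD
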