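import Pool.Agent.N367.PPD.Full

set_option autoImplicit false
set_option linter.unusedSectionVars false

/-!
# Translation lines
-/

namespace Pool.Agent.N367.PPD

open Configuration Configuration.ProjectivePlane Finset
open scoped Classical

noncomputable section

variable {P L : Type} [Membership P L] [ProjectivePlane P L] [Fintype P] [Fintype L]

variable {g h : Equiv.Perm P × Equiv.Perm L} {a : L} {C : P}

/-- two full centres on the axis: all points of the axis are full centres -/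
theorem tr_axis {c d f : P} (hc : c ∈ a) (hd : d ∈ a) (hf : f ∈ a) (hcd : c ≠ d) (tc : Tr c a)
    (td : Tr d a) : Tr f a := by
  by_cases hfc : f = c
  · rw [hfc]; exact tc
  by_cases hfd : f = d
  · rw [hfd]; exact td
  intro x y hx hy hfx hfy hyx
  by_cases hxy : x = y
  · exact ⟨1, IsP.one, hxy⟩
  have hna : jn L f x ≠ a := fun h1 => hx (h1 ▸ jn_right hfx)
  have hcx : c ≠ x := fun h1 => hx (h1 ▸ hc)
  have hcy : c ≠ y := fun h1 => hy (h1 ▸ hc)
  have hdx : d ≠ x := fun h1 => hx (h1 ▸ hd)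
  have hdy : d ≠ y := fun h1 => hy (h1 ▸ hd)
  have hne : jn L c x ≠ jn L d y := by
    intro h1
    apply hx
    rw [← line_eq hcd (jn_left hcx) (h1 ▸ jn_left hdy) hc hd]
    exact jn_right hcx
  have hcxa : jn L c x ≠ a := fun h1 => hx (h1 ▸ jn_right hcx)
  have hdya : jn L d y ≠ a := fun h1 => hy (h1 ▸ jn_right hdy)
  set u := mt P (jn L c x) (jn L d y) with hu
  have hu1 : u ∈ jn L c x := mt_left hne
  have hu2 : u ∈ jn L d y := mt_right hne
  have hua : u ∉ a := by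
    intro h1
    exact hcd ((pt_eq hcxa hu1 (jn_left hcx) h1 hc).symm.trans
      (pt_eq hdya hu2 (jn_left hdy) h1 hd))
  have hcu : c ≠ u := fun h1 => hua (h1 ▸ hc)
  have hdu : d ≠ u := fun h1 => hua (h1 ▸ hd)
  obtain ⟨g, hg, hgx⟩ := tc x u hx hua hcx hcu hu1
  obtain ⟨k, hk, hky⟩ := td u y hua hy hdu hdy
    (by rw [← eq_jn hdu (jn_left hdy) hu2]; exact jn_right hdy)
  have hg1 : g ≠ 1 := by
    rintro rfl
    have h1 : x = u := hgx
    apply hfd
    have h2 : jn L f x = jn L d y := line_eq hxy (jn_right hfx) hyx (h1 ▸ hu2) (jn_right hdy)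
    exact pt_eq hna (jn_left hfx) (h2 ▸ jn_left hdy) hf hd
  have hk1 : k ≠ 1 := by
    rintro rfl
    have h1 : u = y := hky
    apply hfc
    have h2 : jn L f x = jn L c x := line_eq hxy (jn_right hfx) hyx (jn_right hcx) (h1 ▸ hu1)
    exact pt_eq hna (jn_left hfx) (h2 ▸ jn_left hcx) hf hc
  obtain ⟨f', hf'a, hf', -, -⟩ := IsP.prod hd hc hcd.symm hk hg hk1 hg1
  have hkg : (k * g).1 x = y := by
    simp only [Prod.fst_mul, Equiv.Perm.mul_apply]
    rw [hgx, hky]
  have hf'x : f' ≠ x := fun h1 => hx (h1 ▸ hf'a)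
  have h1 : y ∈ jn L f' x := by
    rw [← hf'.2 _ (jn_left hf'x), ← hkg, hf'.1.1]
    exact jn_right hf'x
  have h2 : jn L f x = jn L f' x := line_eq hxy (jn_right hfx) hyx (jn_right hf'x) h1
  have h3 : f = f' := pt_eq hna (jn_left hfx) (h2 ▸ jn_left hf'x) hf hf'a
  rw [← h3] at hf'
  exact ⟨k * g, hf', hkg⟩

theorem Tr.conj (ht : Tr C a) (hg : IsCol g) : Tr (g.1 C) (g.2 a) := by
  intro x y hx hy hCx hCy hyx
  have hx' : g.1⁻¹ x ∉ a := fun h1 => hx (by
    have := (hg (g.1⁻¹ x) a).2 h1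
    simpa using this)
  have hy' : g.1⁻¹ y ∉ a := fun h1 => hy (by
    have := (hg (g.1⁻¹ y) a).2 h1
    simpa using this)
  have hCx' : C ≠ g.1⁻¹ x := fun h1 => hCx (by rw [h1]; simp)
  have hCy' : C ≠ g.1⁻¹ y := fun h1 => hCy (by rw [h1]; simp)
  have h1 : g.2 (jn L C (g.1⁻¹ x)) = jn L (g.1 C) x := by
    refine eq_jn hCx ((hg _ _).2 (jn_left hCx')) ?_
    have := (hg (g.1⁻¹ x) _).2 (jn_right (L := L) hCx')
    simpa using this
  obtain ⟨k, hk, hkx⟩ := ht (g.1⁻¹ x) (g.1⁻¹ y) hx' hy' hCx' hCy' (by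
    rw [← h1] at hyx
    rw [← hg]
    simpa using hyx)
  refine ⟨g * k * g⁻¹, hk.conj hg, ?_⟩
  simp only [Prod.fst_mul, Prod.fst_inv, Equiv.Perm.mul_apply]
  rw [hkx]
  simp

/-- all perspectivities with axis `a` exist -/
def Ds (a : L) : Prop := ∀ C : P, Tr C a

theorem Ds.conj (ht : Ds (P := P) a) (hg : IsCol g) : Ds (P := P) (g.2 a) := by
  intro C
  have := (ht (g.1⁻¹ C)).conj hg
  simpa using this

/-- a translation line with one full centre of homologies -/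
theorem ds_of (ht : ∀ f : P, f ∈ a → Tr f a) (hC : C ∉ a) (tC : Tr C a) : Ds (P := P) a := by
  intro D
  by_cases hD : D ∈ a
  · exact ht D hD
  by_cases hCD : C = D
  · rw [← hCD]; exact tC
  have hla : jn L C D ≠ a := fun h1 => hC (h1 ▸ jn_left hCD)
  set f := mt P (jn L C D) a with hf
  have hfa : f ∈ a := mt_right hla
  have hfl : f ∈ jn L C D := mt_left hla
  have hfC : f ≠ C := fun h1 => hC (h1 ▸ hfa)
  have hfD : f ≠ D := fun h1 => hD (h1 ▸ hfa)
  obtain ⟨g, hg, hgC⟩ := ht f hfa C D hC hD hfC hfD (by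
    rw [← eq_jn hfC hfl (jn_left hCD)]; exact jn_right hCD)
  have := tC.conj hg.1.1
  rwa [hgC, hg.1.ax] at this

/-- three non-collinear full centres -/
theorem ds_of_three (hn : 3 ≤ order P L) {D E : P} (hC : C ∉ a) (hD : D ∉ a) (hE : E ∉ a)
    (hCD : C ≠ D) (hEl : E ∉ jn L C D) (tC : Tr C a) (tD : Tr D a) (tE : Tr E a) :
    Ds (P := P) a := by
  have hCE : C ≠ E := fun h1 => hEl (h1 ▸ jn_left hCD)
  have h1 := hom_elat hn hC hD hCD tC tD
  have h2 := hom_elat hn hC hE hCE tC tE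
  have hla : jn L C D ≠ a := fun h1 => hC (h1 ▸ jn_left hCD)
  have hka : jn L C E ≠ a := fun h1 => hC (h1 ▸ jn_left hCE)
  have hne : mt P (jn L C D) a ≠ mt P (jn L C E) a := by
    intro h3
    have h4 : mt P (jn L C D) a ≠ C := fun h4 => hC (by rw [← h4]; exact mt_right hla)
    apply hEl
    rw [line_eq h4 (mt_left hla) (jn_left hCD) (by rw [h3]; exact mt_left hka) (jn_left hCE)]
    exact jn_right hCE
  exact ds_of (fun f hf => tr_axis (mt_right hla) (mt_right hka) hf hne h1 h2) hC tC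

/-- two such lines: the pencil -/
theorem ds_pencil {b l : L} (ha : Ds (P := P) a) (hb : Ds (P := P) b) (hab : a ≠ b)
    (hl : mt P a b ∈ l) : Ds (P := P) l := by
  by_cases hla : l = a
  · rw [hla]; exact ha
  set Q := mt P a b with hQ
  have hQa : Q ∈ a := mt_left hab
  have hQb : Q ∈ b := mt_right hab
  obtain ⟨c, hca, hcQ⟩ : ∃ c, c ∈ a ∧ c ≠ Q := by
    obtain ⟨p, q, hpq, hp, hq⟩ := exists_two (P := P) a
    by_cases h1 : p = Q
    · exact ⟨q, hq, fun h2 => hpq (h1.trans h2.symm)⟩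
    · exact ⟨p, hp, h1⟩
  obtain ⟨x, hxb, hxQ⟩ : ∃ x, x ∈ b ∧ x ≠ Q := by
    obtain ⟨p, q, hpq, hp, hq⟩ := exists_two (P := P) b
    by_cases h1 : p = Q
    · exact ⟨q, hq, fun h2 => hpq (h1.trans h2.symm)⟩
    · exact ⟨p, hp, h1⟩
  have hxa : x ∉ a := fun h1 => hxQ (pt_eq hab.symm hxb hQb h1 hQa)
  have hcx : c ≠ x := fun h1 => hxa (h1 ▸ hca)
  have hcxa : jn L c x ≠ a := fun h1 => hxa (h1 ▸ jn_right hcx)
  have hcxl : jn L c x ≠ l := by
    intro h1
    exact hcQ (pt_eq hla (h1 ▸ jn_left hcx) hl hca hQa)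
  set y := mt P (jn L c x) l with hy
  have hyl : y ∈ l := mt_right hcxl
  have hyc : y ∈ jn L c x := mt_left hcxl
  have hya : y ∉ a := by
    intro h1
    exact hcQ ((pt_eq hcxa (jn_left hcx) hyc hca h1).trans (pt_eq hla hyl hl h1 hQa))
  have hcy : c ≠ y := fun h1 => hya (h1 ▸ hca)
  obtain ⟨g, hg, hgx⟩ := ha c x y hxa hya hcx hcy hyc
  have h1 : g.2 b = l := by
    have hyQ : y ≠ Q := fun h2 => hya (h2 ▸ hQa)
    refine line_eq hyQ ?_ ?_ hyl hl
    · rw [← hgx, hg.1.1]; exact hxb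
    · rw [← hg.1.2 Q hQa, hg.1.1]; exact hQb
  rw [← h1]
  exact hb.conj hg.1.1

/-- three non-concurrent such lines: all lines -/
theorem ds_all {b d : L} (ha : Ds (P := P) a) (hb : Ds (P := P) b) (hd : Ds (P := P) d)
    (hab : a ≠ b) (had : a ≠ d) (hne : mt P a b ≠ mt P a d) (l : L) : Ds (P := P) l := by
  by_cases hla : l = a
  · rw [hla]; exact ha
  obtain ⟨R, hRl, hR⟩ : ∃ x, x ∈ l ∧ x ≠ mt P l a := by
    obtain ⟨p, q, hpq, hp, hq⟩ := exists_two (P := P) l
    by_cases h1 : p = mt P l a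
    · exact ⟨q, hq, fun h2 => hpq (h1.trans h2.symm)⟩
    · exact ⟨p, hp, h1⟩
  have hRa : R ∉ a := fun h1 => hR (eq_mt hla hRl h1)
  have h1 : R ≠ mt P a b := fun h1 => hRa (by rw [h1]; exact mt_left hab)
  have h2 : R ≠ mt P a d := fun h1 => hRa (by rw [h1]; exact mt_left had)
  have h3 := ds_pencil ha hb hab (l := jn L R (mt P a b)) (jn_right h1)
  have h4 := ds_pencil ha hd had (l := jn L R (mt P a d)) (jn_right h2)
  have h5 : jn L R (mt P a b) ≠ jn L R (mt P a d) := by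
    intro h5
    apply hRa
    rw [← line_eq hne (jn_right h1) (h5 ▸ jn_right h2) (mt_left hab) (mt_left had)]
    exact jn_left h1
  refine ds_pencil h3 h4 h5 ?_
  rw [← eq_mt h5 (jn_left h1) (jn_left h2)]
  exact hRl

end

end Pool.Agent.N367.PPD
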