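import Pool.Agent.N367.PPD.App
import Pool.Agent.N367.PPD.Trans

set_option autoImplicit false
set_option linter.unusedSectionVars false

/-!
# Desargues configurations
-/

namespace Pool.Agent.N367.PPD

open Configuration Configuration.ProjectivePlane Finset
open scoped Classical

noncomputable section

variable {P : Type} (L : Type) [Membership P L]

/-- the triangles `A` and `B` are in perspective from the point `O` -/
def PerspPt (O : P) (A B : Fin 3 → P) : Prop :=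
  (∀ i, A i ≠ O ∧ B i ≠ O ∧ A i ≠ B i) ∧
  (∃ l : Fin 3 → L, Function.Injective l ∧ ∀ i, O ∈ l i ∧ A i ∈ l i ∧ B i ∈ l i) ∧
  (¬ ∃ l : L, ∀ i, A i ∈ l) ∧ ¬ ∃ l : L, ∀ i, B i ∈ l

variable {L}

/-- the sides `A i A j` and `B i B j` have a common point on the line `a` -/
def Meet (a : L) (A B : Fin 3 → P) (i j : Fin 3) : Prop :=
  ∃ p, p ∈ a ∧ (∀ l : L, A i ∈ l → A j ∈ l → p ∈ l) ∧ ∀ l : L, B i ∈ l → B j ∈ l → p ∈ l

variable (L)

/-- the triangles `A` and `B` are in perspective from a line -/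
def PerspLn (A B : Fin 3 → P) : Prop :=
  ∃ a : L, Meet a A B 0 1 ∧ Meet a A B 0 2 ∧ Meet a A B 1 2

variable {L} [Fintype P] 

/-- the failures of Desargues' theorem with centre `C`, axis `a` and `A 0 = x`, `B 0 = y` -/
def locSet (a : L) (C x y : P) : Finset ((Fin 3 → P) × (Fin 3 → P)) :=
  univ.filter fun t => PerspPt L C t.1 t.2 ∧ t.1 0 = x ∧ t.2 0 = y ∧ Meet a t.1 t.2 0 1 ∧
    Meet a t.1 t.2 0 2 ∧ ¬ Meet a t.1 t.2 1 2

/-- the failures of the little Desargues theorem with axis `a` and `A 0 = o` -/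
def litSet (a : L) (o : P) : Finset (P × (Fin 3 → P) × (Fin 3 → P)) :=
  univ.filter fun t => PerspPt L t.1 t.2.1 t.2.2 ∧ t.1 ∈ a ∧ t.2.1 0 = o ∧
    Meet a t.2.1 t.2.2 0 1 ∧ Meet a t.2.1 t.2.2 0 2 ∧ ¬ Meet a t.2.1 t.2.2 1 2

variable (P L)

/-- the failures of Desargues' theorem -/
def failSet : Finset (P × (Fin 3 → P) × (Fin 3 → P)) :=
  univ.filter fun t => PerspPt L t.1 t.2.1 t.2.2 ∧ ¬ PerspLn L t.2.1 t.2.2

variable {P L} [ProjectivePlane P L]

theorem mem_locSet {a : L} {C x y : P} {t : (Fin 3 → P) × (Fin 3 → P)} : t ∈ locSet a C x y ↔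
    PerspPt L C t.1 t.2 ∧ t.1 0 = x ∧ t.2 0 = y ∧ Meet a t.1 t.2 0 1 ∧
    Meet a t.1 t.2 0 2 ∧ ¬ Meet a t.1 t.2 1 2 := by simp [locSet]

theorem mem_litSet {a : L} {o : P} {t : P × (Fin 3 → P) × (Fin 3 → P)} : t ∈ litSet a o ↔
    PerspPt L t.1 t.2.1 t.2.2 ∧ t.1 ∈ a ∧ t.2.1 0 = o ∧
    Meet a t.2.1 t.2.2 0 1 ∧ Meet a t.2.1 t.2.2 0 2 ∧ ¬ Meet a t.2.1 t.2.2 1 2 := by simp [litSet]

theorem mem_failSet {t : P × (Fin 3 → P) × (Fin 3 → P)} : t ∈ failSet P L ↔
    PerspPt L t.1 t.2.1 t.2.2 ∧ ¬ PerspLn L t.2.1 t.2.2 := by simp [failSet]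

section

variable {C : P} {A B : Fin 3 → P} (h : PerspPt L C A B)

include h

theorem PerspPt.A_ne {i j : Fin 3} (hij : i ≠ j) : A i ≠ A j := by
  obtain ⟨h1, ⟨l, hl, h2⟩, -, -⟩ := h
  intro h3
  apply (h1 i).1
  refine pt_eq (fun h4 => hij (hl h4)) (h2 i).2.1 (h2 i).1 ?_ (h2 j).1
  rw [h3]; exact (h2 j).2.1

theorem PerspPt.B_ne {i j : Fin 3} (hij : i ≠ j) : B i ≠ B j := by
  obtain ⟨h1, ⟨l, hl, h2⟩, -, -⟩ := h
  intro h3
  apply (h1 i).2.1
  refine pt_eq (fun h4 => hij (hl h4)) (h2 i).2.2 (h2 i).1 ?_ (h2 j).1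
  rw [h3]; exact (h2 j).2.2

/-- corresponding sides are distinct -/
theorem PerspPt.side_ne {i j : Fin 3} (hij : i ≠ j) : jn L (A i) (A j) ≠ jn L (B i) (B j) := by
  have hA := h.A_ne hij
  have hB := h.B_ne hij
  obtain ⟨h1, ⟨l, hl, h2⟩, -, -⟩ := h
  intro h3
  have h4 : jn L (A i) (A j) = l i :=
    line_eq (h1 i).2.2 (jn_left hA) (h3 ▸ jn_left hB) (h2 i).2.1 (h2 i).2.2
  have h5 : jn L (A i) (A j) = l j :=
    line_eq (h1 j).2.2 (jn_right hA) (h3 ▸ jn_right hB) (h2 j).2.1 (h2 j).2.2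
  exact hij (hl (h4.symm.trans h5))

theorem PerspPt.A_join : jn L (A 0) (A 1) ≠ jn L (A 0) (A 2) := by
  intro h1
  apply h.2.2.1
  refine ⟨jn L (A 0) (A 1), ?_⟩
  intro i
  fin_cases i
  · exact jn_left (h.A_ne (by decide))
  · exact jn_right (h.A_ne (by decide))
  · change A 2 ∈ _
    rw [h1]; exact jn_right (h.A_ne (by decide))

theorem PerspPt.B_join : jn L (B 0) (B 1) ≠ jn L (B 0) (B 2) := by
  intro h1
  apply h.2.2.2
  refine ⟨jn L (B 0) (B 1), ?_⟩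
  intro i
  fin_cases i
  · exact jn_left (h.B_ne (by decide))
  · exact jn_right (h.B_ne (by decide))
  · change B 2 ∈ _
    rw [h1]; exact jn_right (h.B_ne (by decide))

theorem PerspPt.meet_eq {a : L} {i j : Fin 3} (hij : i ≠ j) (hm : Meet a A B i j) :
    mt P (jn L (A i) (A j)) (jn L (B i) (B j)) ∈ a := by
  obtain ⟨p, hp, h1, h2⟩ := hm
  have h3 := h1 _ (jn_left (h.A_ne hij)) (jn_right (h.A_ne hij))
  have h4 := h2 _ (jn_left (h.B_ne hij)) (jn_right (h.B_ne hij))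
  rw [← eq_mt (h.side_ne hij) h3 h4]
  exact hp

theorem PerspPt.axis {a b : L} (h1 : Meet a A B 0 1) (h2 : Meet a A B 0 2)
    (h3 : Meet b A B 0 1) (h4 : Meet b A B 0 2) : a = b := by
  have h1' := h.meet_eq (by decide) h1
  have h2' := h.meet_eq (by decide) h2
  have h3' := h.meet_eq (by decide) h3
  have h4' := h.meet_eq (by decide) h4
  have d1 : (0 : Fin 3) ≠ 1 := by decide
  have d2 : (0 : Fin 3) ≠ 2 := by decide
  refine line_eq ?_ h1' h2' h3' h4'
  intro h5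
  have h6 : mt P (jn L (A 0) (A 1)) (jn L (B 0) (B 1)) = A 0 :=
    pt_eq h.A_join (mt_left (h.side_ne d1)) (jn_left (h.A_ne d1))
      (by rw [h5]; exact mt_left (h.side_ne d2)) (jn_left (h.A_ne d2))
  have h7 : mt P (jn L (A 0) (A 1)) (jn L (B 0) (B 1)) = B 0 :=
    pt_eq h.B_join (mt_right (h.side_ne d1)) (jn_left (h.B_ne d1))
      (by rw [h5]; exact mt_right (h.side_ne d2)) (jn_left (h.B_ne d2))
  exact (h.1 0).2.2 (h6.symm.trans h7)

end

variable [Fintype L]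

/-- a perspectivity forces Desargues' theorem -/
theorem locSet_empty {a : L} {C x y : P} (h : Adm a C x y) {g : Equiv.Perm P × Equiv.Perm L}
    (hg : IsP C a g) (hgx : g.1 x = y) : locSet a C x y = ∅ := by
  rw [Finset.eq_empty_iff_forall_notMem]
  rintro ⟨A, B⟩ ht
  rw [mem_locSet] at ht
  obtain ⟨hp, h0, h0', h1, h2, h3⟩ := ht
  simp only at hp h0 h0' h1 h2 h3
  have key : ∀ i : Fin 3, 0 ≠ i → Meet a A B 0 i → g.1 (A i) = B i := by
    intro i hi hm
    obtain ⟨p, hpa, hm1, hm2⟩ := hm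
    have hA := hp.A_ne hi
    have hB := hp.B_ne hi
    have h4 := hm1 _ (jn_left hA) (jn_right hA)
    have h5 := hm2 _ (jn_left hB) (jn_right hB)
    obtain ⟨q1, ⟨l, hl, q2⟩, -, -⟩ := hp
    have hyp : B 0 ≠ p := fun h6 => h.ya (by rw [← h0', h6]; exact hpa)
    have h6 : g.2 (jn L (A 0) (A i)) = jn L (B 0) (B i) := by
      refine line_eq hyp ?_ ?_ (jn_left hB) h5
      · have := (hg.1.1 _ _).2 (jn_left (L := L) hA)
        rwa [h0, hgx, ← h0', ← h0] at this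
      · have := (hg.1.1 _ _).2 h4
        rwa [hg.1.2 p hpa] at this
    refine pt_eq (l := jn L (B 0) (B i)) (k := l i) ?_ ?_ (jn_right hB) ?_ (q2 i).2.2
    · intro h7
      apply (q1 0).2.1
      refine pt_eq (fun h8 => hi (hl h8)) (q2 0).2.2 (q2 0).1 ?_ (q2 i).1
      rw [← h7]; exact jn_left hB
    · rw [← h6, hg.1.1]; exact jn_right hA
    · rw [← hg.2 _ (q2 i).1, hg.1.1]; exact (q2 i).2.1
  have k1 := key 1 (by decide) h1
  have k2 := key 2 (by decide) h2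
  apply h3
  have hA : A 1 ≠ A 2 := hp.A_ne (by decide)
  have hB : B 1 ≠ B 2 := hp.B_ne (by decide)
  have hla : jn L (A 1) (A 2) ≠ a := by
    intro h4
    apply (hp.1 1).2.2
    rw [← k1]
    exact (hg.1.2 _ (by rw [← h4]; exact jn_left hA)).symm
  refine ⟨mt P (jn L (A 1) (A 2)) a, mt_right hla, ?_, ?_⟩
  · intro l h4 h5
    rw [eq_jn hA h4 h5]; exact mt_left hla
  · intro l h4 h5
    have h6 : g.2 (jn L (A 1) (A 2)) = l := by
      refine line_eq hB ?_ ?_ h4 h5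
      · rw [← k1, hg.1.1]; exact jn_left hA
      · rw [← k2, hg.1.1]; exact jn_right hA
    rw [← h6, ← hg.1.2 _ (mt_right hla), hg.1.1]
    exact mt_left hla

/-- failing pairs give failing configurations -/
theorem fl_conf {a : L} {C x y z w : P} (h : Adm a C x y) (hza : z ∉ a) (hzm : z ∉ jn L C x)
    (hwa : w ∉ a) (hwm : w ∉ jn L C x) (hf : h.dat.fl z w) :
    (![x, z, w], ![y, im a C x y z, im a C x y w]) ∈ locSet a C x y := by
  have hzw := h.dat.fl_ne hf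
  obtain ⟨e, hea, ⟨l, hel, hzl, hwl⟩, hno⟩ := hf
  change e ∈ a at hea
  have hTz : h.dat.T z = im a C x y z := h.perm_of hza hzm
  have hTw : h.dat.T w = im a C x y w := h.perm_of hwa hwm
  rw [hTz, hTw] at hno
  have hzx := h.zx hzm
  have hwx := h.zx hwm
  have hzC := h.zC hzm
  have hwC := h.zC hwm
  have hla : l ≠ a := fun h1 => hza (h1 ▸ hzl)
  have hTzm := h.im_m hzm
  have hTwm := h.im_m hwm
  have hTzC : im a C x y z ≠ C := fun h1 => hTzm (by rw [h1]; exact jn_left h.xC)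
  have hTwC : im a C x y w ≠ C := fun h1 => hTwm (by rw [h1]; exact jn_left h.xC)
  have hyTz : y ≠ im a C x y z := fun h1 => hTzm (by rw [← h1]; exact h.col)
  have hyTw : y ≠ im a C x y w := fun h1 => hTwm (by rw [← h1]; exact h.col)
  have hyz : jn L y (im a C x y z) = jn L y (mt P (jn L x z) a) :=
    (eq_jn hyTz (jn_left (h.e_y hzm)) (h.im_ye hzm)).symm
  have hyw : jn L y (im a C x y w) = jn L y (mt P (jn L x w) a) :=
    (eq_jn hyTw (jn_left (h.e_y hwm)) (h.im_ye hwm)).symm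
  have hCzw : jn L C z ≠ jn L C w := by
    intro h1
    have h2 : l = jn L C z := line_eq hzw hzl hwl (jn_right hzC) (h1 ▸ jn_right hwC)
    exact hno ⟨l, hel, by rw [h2]; exact h.im_Cz hzm, by rw [h2, h1]; exact h.im_Cz hwm⟩
  -- if the sides through `x` coincide then nothing fails
  have hxzw : jn L x z ≠ jn L x w := by
    intro h1
    have h2 : l = jn L x z := line_eq hzw hzl hwl (jn_right hzx) (h1 ▸ jn_right hwx)
    have h3 : e = mt P (jn L x z) a := eq_mt (h.xz_ne hzm) (h2 ▸ hel) hea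
    refine hno ⟨jn L y (mt P (jn L x z) a), ?_, h.im_ye hzm, ?_⟩
    · rw [h3]; exact jn_right (h.e_y hzm)
    · rw [h1]; exact h.im_ye hwm
  have hTzw : im a C x y z ≠ im a C x y w := by
    intro h1
    apply hzw
    rw [← h.im_im hza hzm, h1, h.im_im hwa hwm]
  rw [mem_locSet]
  refine ⟨⟨?_, ⟨![jn L C x, jn L C z, jn L C w], ?_, ?_⟩, ?_, ?_⟩, rfl, rfl, ?_, ?_, ?_⟩
  · intro i
    fin_cases i
    · exact ⟨h.xC.symm, h.yC.symm, h.xy⟩
    · exact ⟨hzC.symm, hTzC, (h.im_ne hza hzm).symm⟩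
    · exact ⟨hwC.symm, hTwC, (h.im_ne hwa hwm).symm⟩
  · intro i j hij
    fin_cases i <;> fin_cases j <;> simp at hij ⊢
    · exact h.Cz_ne hzm hij.symm
    · exact h.Cz_ne hwm hij.symm
    · exact h.Cz_ne hzm hij
    · exact hCzw hij
    · exact h.Cz_ne hwm hij
    · exact hCzw hij.symm
  · intro i
    fin_cases i
    · exact ⟨jn_left h.xC, jn_right h.xC, h.col⟩
    · exact ⟨jn_left hzC, jn_right hzC, h.im_Cz hzm⟩
    · exact ⟨jn_left hwC, jn_right hwC, h.im_Cz hwm⟩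
  · rintro ⟨k, hk⟩
    have k0 : x ∈ k := hk 0
    have k1 : z ∈ k := hk 1
    have k2 : w ∈ k := hk 2
    exact hxzw ((eq_jn hzx k0 k1).symm.trans (eq_jn hwx k0 k2))
  · rintro ⟨k, hk⟩
    have k0 : y ∈ k := hk 0
    have k1 : im a C x y z ∈ k := hk 1
    have k2 : im a C x y w ∈ k := hk 2
    have h1 : jn L y (mt P (jn L x z) a) = jn L y (mt P (jn L x w) a) := by
      rw [← hyz, ← hyw, ← eq_jn hyTz k0 k1, ← eq_jn hyTw k0 k2]
    have h2 : mt P (jn L x z) a = mt P (jn L x w) a :=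
      pt_eq (h.ye_ne_a hzm) (jn_right (h.e_y hzm)) (by rw [h1]; exact jn_right (h.e_y hwm))
        (h.e_a hzm) (h.e_a hwm)
    exact hxzw (line_eq (h.e_x hzm) (jn_left hzx) (h.e_xz hzm) (jn_left hwx)
      (by rw [h2]; exact h.e_xz hwm))
  · refine ⟨mt P (jn L x z) a, h.e_a hzm, ?_, ?_⟩
    · intro k h1 h2
      rw [eq_jn hzx h1 h2]; exact h.e_xz hzm
    · intro k h1 h2
      rw [eq_jn hyTz h1 h2, hyz]; exact jn_right (h.e_y hzm)
  · refine ⟨mt P (jn L x w) a, h.e_a hwm, ?_, ?_⟩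
    · intro k h1 h2
      rw [eq_jn hwx h1 h2]; exact h.e_xz hwm
    · intro k h1 h2
      rw [eq_jn hyTw h1 h2, hyw]; exact jn_right (h.e_y hwm)
  · rintro ⟨p, hpa, h1, h2⟩
    have h3 : p ∈ l := h1 l hzl hwl
    have h4 : p = e := pt_eq hla h3 hel hpa hea
    apply hno
    refine ⟨jn L (im a C x y z) (im a C x y w), ?_, jn_left hTzw, jn_right hTzw⟩
    rw [← h4]
    exact h2 _ (jn_left hTzw) (jn_right hTzw)

theorem F_le {a : L} {C x y : P} (h : Adm a C x y) : h.dat.F ≤ (locSet a C x y).card := by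
  apply Finset.card_le_card_of_injOn
    (fun t : P × P => (![x, t.1, t.2], ![y, im a C x y t.1, im a C x y t.2]))
  · rintro ⟨z, w⟩ ht
    rw [Finset.mem_coe, Finset.mem_filter, Finset.mem_product, Dat.mem_X, Dat.mem_X] at ht
    obtain ⟨⟨hz, hw⟩, hf⟩ := ht
    exact fl_conf h hz.1 hz.2 hw.1 hw.2 hf
  · rintro ⟨z, w⟩ _ ⟨z', w'⟩ _ hh
    simp only [Prod.mk.injEq] at hh
    have h1 := congrFun hh.1 1
    have h2 := congrFun hh.1 2
    simp at h1 h2
    rw [h1, h2]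

/-- the gap for a fixed centre, axis and pair of points -/
theorem gap (hn : 3 ≤ order P L) {a : L} {C x y : P} (h : Adm a C x y) :
    (∃ g, IsP C a g ∧ g.1 x = y) ∨ order P L ^ 3 < 1000 * (locSet a C x y).card := by
  by_cases hs : h.dat.Sm
  · left
    obtain ⟨σ, τ, h1, h2, h3, h4⟩ := h.exists_persp hs hn
    exact ⟨(σ, τ), ⟨⟨h1, h2⟩, h3⟩, h4⟩
  · right
    have h1 := F_le h
    unfold Dat.Sm at hs
    omega

end

end Pool.Agent.N367.PPD
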