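import Pool.Agent.N367.PPD.Chain

set_option autoImplicit false
set_option linter.unusedSectionVars false

/-!
# The images of the exceptional points
-/

namespace Pool.Agent.N367.PPD

open Configuration Configuration.ProjectivePlane Finset
open scoped Classical

noncomputable section

theorem reps {α β : Type} (s : Finset α) (f : α → β) :
    ∃ R ⊆ s, Set.InjOn f R ∧ R.card = (s.image f).card := by
  obtain ⟨R, h1, h2, h3⟩ := Finset.exists_subset_injOn_image_eq_of_surjOn (f := f) (s : Set α)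
    (s.image f) (by intro y hy; simpa using hy)
  refine ⟨R, by exact_mod_cast h1, h2, ?_⟩
  rw [← h3, Finset.card_image_of_injOn h2]

theorem pw_insert {α β : Type} {I : α → β → Prop} {a : α} {s : Finset α} {t : Finset β}
    (h1 : ∀ x ∈ s, x ≠ a → ∃ b ∈ t, I a b ∧ I x b)
    (h2 : ∀ x ∈ s, ∀ y ∈ s, x ≠ y → ∃ b ∈ t, I x b ∧ I y b) :
    ∀ x ∈ insert a s, ∀ y ∈ insert a s, x ≠ y → ∃ b ∈ t, I x b ∧ I y b := by
  intro x hx y hy hxy
  rw [Finset.mem_insert] at hx hy
  rcases hx with rfl | hx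
  · rcases hy with rfl | hy
    · exact absurd rfl hxy
    · exact h1 y hy (Ne.symm hxy)
  · rcases hy with rfl | hy
    · obtain ⟨b, hb, h3, h4⟩ := h1 x hx hxy
      exact ⟨b, hb, h4, h3⟩
    · exact h2 x hx y hy hxy

variable {P L : Type} [Membership P L] [ProjectivePlane P L] [Fintype P] [Fintype L]

/-- lines that pairwise meet in few points are concurrent -/
theorem conc (s : Finset L) (t : Finset P)
    (h1 : ∀ l ∈ s, ∀ k ∈ s, l ≠ k → ∃ p ∈ t, p ∈ l ∧ p ∈ k) (hc : t.card < s.card)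
    (h0 : 2 ≤ s.card) : ∃ p ∈ t, ∀ l ∈ s, p ∈ l := by
  refine dbe (fun (l : L) (p : P) => p ∈ l) s t h1 ?_ hc h0
  intro l _ k _ p _ q _ h2 h3 h4 h5
  by_cases h : l = k
  · exact Or.inl h
  · exact Or.inr (pt_eq h h2 h4 h3 h5)

namespace Dat

variable (D : Dat P L)

/-- directions all of whose lines are good -/
def G0 : Finset P := (pts D.a).filter (fun e => e ∉ D.m ∧ ∀ l : L, e ∈ l → l ≠ D.a → D.good l)

@[simp] theorem mem_G0 {e : P} :
    e ∈ D.G0 ↔ e ∈ D.a ∧ e ∉ D.m ∧ ∀ l : L, e ∈ l → l ≠ D.a → D.good l := by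
  simp [G0]

theorem G0_card : order P L ≤ D.G0.card + D.bl.card := by
  have h1 := Finset.card_filter_add_card_filter_not (s := (pts D.a : Finset P))
    (fun e => e ∉ D.m ∧ ∀ l : L, e ∈ l → l ≠ D.a → D.good l)
  have h2 : ((pts D.a : Finset P).filter
      (fun e => ¬ (e ∉ D.m ∧ ∀ l : L, e ∈ l → l ≠ D.a → D.good l))).card ≤
      ((pts D.a : Finset P).filter (fun e => e ∈ D.m)).card + D.bl.card := by
    have h3 : ∀ e ∈ (pts D.a : Finset P).filter (fun e => e ∉ D.m ∧
        ¬ ∀ l : L, e ∈ l → l ≠ D.a → D.good l), ∃ l : L, e ∈ l ∧ D.bad l := by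
      intro e he
      rw [Finset.mem_filter, mem_pts] at he
      obtain ⟨he1, he2, he3⟩ := he
      push Not at he3
      obtain ⟨l, hl1, hl2, hl3⟩ := he3
      refine ⟨l, hl1, hl2, fun h => he2 (h ▸ hl1), fun h => hl3 ⟨hl2, fun h => he2 (h ▸ hl1), h⟩⟩
    have : Nonempty L := ⟨D.a⟩
    choose! g hg1 hg2 using h3
    have h4 : ((pts D.a : Finset P).filter (fun e => e ∉ D.m ∧
        ¬ ∀ l : L, e ∈ l → l ≠ D.a → D.good l)).card ≤ D.bl.card := by
      apply Finset.card_le_card_of_injOn g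
      · intro e he
        exact D.mem_bl.2 (hg2 e he)
      · intro e he f hf hef
        have h5 := hg1 e he
        have h6 := hg1 f hf
        rw [← hef] at h6
        have he' := (Finset.mem_filter.1 he).1
        have hf' := (Finset.mem_filter.1 hf).1
        rw [mem_pts] at he' hf'
        exact pt_eq (hg2 e he).1 h5 h6 he' hf'
    refine le_trans (Finset.card_le_card ?_) ((Finset.card_union_le _ _).trans
      (Nat.add_le_add_left h4 _))
    intro e he
    rw [Finset.mem_filter] at he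
    rw [Finset.mem_union, Finset.mem_filter, Finset.mem_filter]
    by_cases h : e ∈ D.m
    · exact Or.inl ⟨he.1, h⟩
    · exact Or.inr ⟨he.1, h, fun h' => he.2 ⟨h, h'⟩⟩
  have h3 : ((pts D.a : Finset P).filter (fun e => e ∈ D.m)).card ≤ 1 := card_inter_le _ _ D.ham
  rw [card_pts] at h1
  rw [G0]
  omega

/-- different good lines of one direction have different images -/
theorem st_inj (hn : 3 ≤ order P L) {l k : L} (hl : D.good l) (hk : D.good k) {e : P}
    (he : e ∈ D.a) (hel : e ∈ l) (hek : e ∈ k) (h : D.st l = D.st k) : l = k := by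
  by_contra hne
  have h1 : ((D.px l).filter (fun w => D.T w ∈ D.st l)).card +
      ((D.px k).filter (fun w => D.T w ∈ D.st k)).card ≤ order P L := by
    rw [← Finset.card_union_of_disjoint]
    · refine le_trans ?_ (D.px_le (D.st_ne hl))
      apply Finset.card_le_card_of_injOn D.T
      · intro w hw
        rw [Finset.mem_coe, Finset.mem_union] at hw
        rw [Finset.mem_coe, mem_px]
        rcases hw with hw | hw
        · rw [Finset.mem_filter, mem_px] at hw
          exact ⟨D.T_X.2 hw.1.1, hw.2⟩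
        · rw [Finset.mem_filter, mem_px] at hw
          exact ⟨D.T_X.2 hw.1.1, h ▸ hw.2⟩
      · exact D.T.injective.injOn
    · rw [Finset.disjoint_left]
      intro w hw hw'
      rw [Finset.mem_filter, mem_px] at hw hw'
      have h2 := pt_eq hne hw.1.2 hel hw'.1.2 hek
      rw [h2, mem_X] at hw
      exact hw.1.1.1 he
  have h2 := Finset.card_filter_add_card_filter_not (s := D.px l) (fun p => D.T p ∈ D.st l)
  have h3 := Finset.card_filter_add_card_filter_not (s := D.px k) (fun p => D.T p ∈ D.st k)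
  have h4 := D.st_card hl
  have h5 := D.st_card hk
  have h6 := D.px_ge hl.1 hl.2.1
  have h7 := D.px_ge hk.1 hk.2.1
  rw [ls] at h4 h5
  omega

/-- good lines through `C` are mapped to themselves -/
theorem pencil_st (hn : 3 ≤ order P L) {l : L} (hl : D.good l) (hC : D.C ∈ l) : D.st l = l := by
  by_contra hne
  have h1 : ((D.px l).filter (fun w => D.T w ∈ D.st l)).card ≤ 1 := by
    rw [Finset.card_le_one]
    intro p hp q hq
    rw [Finset.mem_filter, mem_px] at hp hq
    apply D.T.injective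
    exact pt_eq hne hp.2 hq.2 (D.hTC l hC p hp.1.2) (D.hTC l hC q hq.1.2)
  have h2 := Finset.card_filter_add_card_filter_not (s := D.px l) (fun p => D.T p ∈ D.st l)
  have h4 := D.st_card hl
  have h6 := D.px_ge hl.1 hl.2.1
  rw [ls] at h4
  omega

section point

variable {z e f : P} (hz : z ∉ D.a)

include hz in
theorem ze_ne (he : e ∈ D.a) : z ≠ e := fun h => hz (h ▸ he)

include hz in
theorem jn_ne (he : e ∈ D.a) : jn L z e ≠ D.a := fun h => hz (h ▸ jn_left (D.ze_ne hz he))

include hz in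
theorem jn_good (he : e ∈ D.G0) : D.good (jn L z e) := by
  rw [mem_G0] at he
  exact he.2.2 _ (jn_right (D.ze_ne hz he.1)) (D.jn_ne hz he.1)

include hz in
theorem e_mem_st (he : e ∈ D.G0) : e ∈ D.st (jn L z e) :=
  D.st_mem (D.jn_good hz he) (D.mem_G0.1 he).1 (jn_right (D.ze_ne hz (D.mem_G0.1 he).1))

include hz in
theorem dir_jn (he : e ∈ D.a) : D.dir (jn L z e) = e :=
  (D.dir_eq (D.jn_ne hz he) he (jn_right (D.ze_ne hz he))).symm

include hz in
theorem st_jn_ne (he : e ∈ D.G0) (hf : f ∈ D.G0) (hef : e ≠ f) :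
    D.st (jn L z e) ≠ D.st (jn L z f) := by
  apply D.st_ne_of_dir (D.jn_good hz he) (D.jn_good hz hf)
  rw [D.dir_jn hz (D.mem_G0.1 he).1, D.dir_jn hz (D.mem_G0.1 hf).1]
  exact hef

include hz in
theorem mt_na (he : e ∈ D.G0) (hf : f ∈ D.G0) (hef : e ≠ f) :
    mt P (D.st (jn L z e)) (D.st (jn L z f)) ∉ D.a := by
  apply D.mt_st_not_a (D.jn_good hz he) (D.jn_good hz hf)
  rw [D.dir_jn hz (D.mem_G0.1 he).1, D.dir_jn hz (D.mem_G0.1 hf).1]
  exact hef

include hz in
theorem K0 (h : D.Sm) (hn : 3 ≤ order P L) {x : P} (hx : x ∈ D.X) (hxB : x ∉ D.B)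
    (he : e ∈ D.G0) (hT : D.T x ∈ D.st (jn L z e)) : x ∈ jn L z e := by
  have hxa := (D.mem_X.1 hx).1
  have hea := (D.mem_G0.1 he).1
  have h1 := D.ex h hx hxB (D.jn_good hxa he) (jn_left (D.ze_ne hxa hea))
  have hTx : D.T x ≠ e := fun h2 => (D.mem_X.1 (D.T_X.2 hx)).1 (h2 ▸ hea)
  have h2 := line_eq hTx h1 (D.e_mem_st hxa he) hT (D.e_mem_st hz he)
  have h3 := D.st_inj hn (D.jn_good hxa he) (D.jn_good hz he) hea (jn_right (D.ze_ne hxa hea))
    (jn_right (D.ze_ne hz hea)) h2
  rw [← h3]; exact jn_left (D.ze_ne hxa hea)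

include hz in
theorem K1 (h : D.Sm) (hn : 3 ≤ order P L) (hzt : ¬ (z ∈ D.X ∧ z ∉ D.B))
    (he : e ∈ D.G0) (hf : f ∈ D.G0) (hef : e ≠ f) {p : P} (hp1 : p ∈ D.st (jn L z e))
    (hp2 : p ∈ D.st (jn L z f)) (hpm : p ∉ D.m) : p ∈ D.B.image D.T := by
  have hpa : p ∉ D.a := by
    have h1 := D.mt_na hz he hf hef
    rwa [← eq_mt (D.st_jn_ne hz he hf hef) hp1 hp2] at h1
  have hX : D.T.symm p ∈ D.X := by
    rw [← D.T_X, Equiv.apply_symm_apply, mem_X]; exact ⟨hpa, hpm⟩
  rw [Finset.mem_image]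
  refine ⟨D.T.symm p, ?_, Equiv.apply_symm_apply _ _⟩
  by_contra hB
  have h1 := D.K0 hz h hn hX hB he (by rw [Equiv.apply_symm_apply]; exact hp1)
  have h2 := D.K0 hz h hn hX hB hf (by rw [Equiv.apply_symm_apply]; exact hp2)
  have hne : jn L z e ≠ jn L z f := by
    intro h3
    apply hef
    rw [← D.dir_jn hz (D.mem_G0.1 he).1, ← D.dir_jn hz (D.mem_G0.1 hf).1, h3]
  have h3 := pt_eq hne h1 (jn_left (D.ze_ne hz (D.mem_G0.1 he).1)) h2
    (jn_left (D.ze_ne hz (D.mem_G0.1 hf).1))
  rw [h3] at hX hB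
  exact hzt ⟨hX, hB⟩

end point

/-- `q` is the image of `z` -/
def Q (z q : P) : Prop :=
  q ∉ D.a ∧ (∀ e ∈ D.G0, q ∈ D.st (jn L z e)) ∧ ∀ l : L, D.C ∈ l → z ∈ l → q ∈ l

theorem Q_typ (h : D.Sm) {z : P} (hz : z ∈ D.X) (hzB : z ∉ D.B) : D.Q z (D.T z) := by
  have hza := (D.mem_X.1 hz).1
  refine ⟨(D.mem_X.1 (D.T_X.2 hz)).1, fun e he => ?_, fun l hC hzl => D.hTC l hC z hzl⟩
  exact D.ex h hz hzB (D.jn_good hza he) (jn_left (D.ze_ne hza (D.mem_G0.1 he).1))

theorem Q_B (h : D.Sm) (hn : 3 ≤ order P L) {z : P} (hzB : z ∈ D.B) : ∃ q, D.Q z q := by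
  have hzX : z ∈ D.X := (Finset.mem_filter.1 hzB).1
  have hza := (D.mem_X.1 hzX).1
  have hzm := (D.mem_X.1 hzX).2
  have hzC : D.C ≠ z := fun h1 => hzm (h1 ▸ D.hC)
  have hB1 : 1 ≤ D.B.card := Finset.card_pos.2 ⟨z, hzB⟩
  have hB2 := D.B_small h
  have hb2 := D.bl_small h
  have hG := D.G0_card
  have hzt : ¬ (z ∈ D.X ∧ z ∉ D.B) := fun h1 => h1.2 hzB
  set k := jn L D.C z with hk
  have hCk : D.C ∈ k := jn_left hzC
  have hzk : z ∈ k := jn_right hzC
  have hka : k ≠ D.a := fun h1 => hza (h1 ▸ hzk)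
  have hkm : k ≠ D.m := fun h1 => hzm (h1 ▸ hzk)
  set G' := D.G0.filter (fun e => e ∉ k) with hG'
  have hG'1 : D.G0.card ≤ G'.card + 1 := by
    have h1 := Finset.card_filter_add_card_filter_not (s := D.G0) (fun e => e ∉ k)
    have h2 : (D.G0.filter (fun e => ¬ e ∉ k)).card ≤ 1 := by
      rw [Finset.card_le_one]
      intro p hp q hq
      rw [Finset.mem_filter, not_not, mem_G0] at hp hq
      exact pt_eq hka hp.2 hq.2 hp.1.1 hq.1.1
    rw [← hG'] at h1
    omega
  set ll : P → L := fun e => D.st (jn L z e) with hll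
  have hG0 : ∀ e ∈ G', e ∈ D.G0 := fun e he => (Finset.mem_filter.1 he).1
  have hek : ∀ e ∈ G', e ∉ k := fun e he => (Finset.mem_filter.1 he).2
  have hell : ∀ e ∈ D.G0, e ∈ ll e := fun e he => D.e_mem_st hza he
  have hllinj : Set.InjOn ll D.G0 := by
    intro e he f hf hef
    by_contra hne
    exact D.st_jn_ne hza he hf hne hef
  have hllk : ∀ e ∈ G', ll e ≠ k := fun e he h1 => hek e he (h1 ▸ hell e (hG0 e he))
  have hllm : ∀ e ∈ D.G0, ll e ≠ D.m := fun e he => D.st_ne_m (D.jn_good hza he)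
  have hlla : ∀ e ∈ D.G0, ll e ≠ D.a := fun e he => D.st_ne (D.jn_good hza he)
  have hkmC : ∀ p : P, p ∈ k → p ∈ D.m → p = D.C := fun p h1 h2 => pt_eq hkm h1 hCk h2 D.hC
  -- points of `k` on the lines
  have hq : ∀ e ∈ G', ∀ p : P, p ∈ ll e → p ∈ k → p ≠ D.C → p ∈ D.B.image D.T := by
    intro e he p hp1 hp2 hpC
    have hpm : p ∉ D.m := fun h1 => hpC (hkmC p hp2 h1)
    have hpa : p ∉ D.a := by
      intro h1
      have h2 := pt_eq (hlla e (hG0 e he)) hp1 (hell e (hG0 e he)) h1 (D.mem_G0.1 (hG0 e he)).1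
      exact hek e he (h2 ▸ hp2)
    have hX : D.T.symm p ∈ D.X := by
      rw [← D.T_X, Equiv.apply_symm_apply, mem_X]; exact ⟨hpa, hpm⟩
    rw [Finset.mem_image]
    refine ⟨D.T.symm p, ?_, Equiv.apply_symm_apply _ _⟩
    by_contra hB
    have h1 := D.K0 hza h hn hX hB (hG0 e he) (by rw [Equiv.apply_symm_apply]; exact hp1)
    have h2 : D.T.symm p ∈ k := by
      rw [← D.T_C hCk, Equiv.apply_symm_apply]; exact hp2
    have hea := (D.mem_G0.1 (hG0 e he)).1
    have hne : jn L z e ≠ k := fun h3 => hek e he (h3 ▸ jn_right (D.ze_ne hza hea))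
    have h3 := pt_eq hne h1 (jn_left (D.ze_ne hza hea)) h2 hzk
    rw [h3] at hB
    exact hB hzB
  set M := G'.image (fun e => mt P (ll e) D.m) with hM
  have hMle : M.card ≤ G'.card := Finset.card_image_le
  have hF1 : (insert k (insert D.m (G'.image ll))).card = G'.card + 2 := by
    rw [Finset.card_insert_of_notMem, Finset.card_insert_of_notMem, Finset.card_image_of_injOn]
    · exact hllinj.mono (by intro e he; exact hG0 e he)
    · intro h1
      obtain ⟨e, he, h2⟩ := Finset.mem_image.1 h1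
      exact hllm e (hG0 e he) h2
    · intro h1
      rw [Finset.mem_insert] at h1
      rcases h1 with h1 | h1
      · exact hkm h1
      · obtain ⟨e, he, h2⟩ := Finset.mem_image.1 h1
        exact hllk e he h2
  have hTB : (D.B.image D.T).card = D.B.card := Finset.card_image_of_injective _ D.T.injective
  have ht1 : (insert D.C (D.B.image D.T ∪ M)).card ≤ D.B.card + M.card + 1 := by
    have h1 := Finset.card_insert_le D.C (D.B.image D.T ∪ M)
    have h2 := Finset.card_union_le (D.B.image D.T) M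
    omega
  have hpair1 : ∀ l ∈ G'.image ll, ∀ j ∈ G'.image ll, l ≠ j →
      ∃ p ∈ insert D.C (D.B.image D.T ∪ M), p ∈ l ∧ p ∈ j := by
    intro l hl j hj hlj
    obtain ⟨e, he, rfl⟩ := Finset.mem_image.1 hl
    obtain ⟨f, hf, rfl⟩ := Finset.mem_image.1 hj
    have hef : e ≠ f := fun h1 => hlj (by rw [h1])
    refine ⟨mt P (ll e) (ll f), ?_, mt_left hlj, mt_right hlj⟩
    rw [Finset.mem_insert, Finset.mem_union]
    by_cases hpm : mt P (ll e) (ll f) ∈ D.m
    · right; right
      rw [hM, Finset.mem_image]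
      exact ⟨e, he, (eq_mt (hllm e (hG0 e he)) (mt_left hlj) hpm).symm⟩
    · right; left
      exact D.K1 hza h hn hzt (hG0 e he) (hG0 f hf) hef (mt_left hlj) (mt_right hlj) hpm
  have hpair2 : ∀ l ∈ insert k (insert D.m (G'.image ll)),
      ∀ j ∈ insert k (insert D.m (G'.image ll)), l ≠ j →
      ∃ p ∈ insert D.C (D.B.image D.T ∪ M), p ∈ l ∧ p ∈ j := by
    apply pw_insert (I := fun (l : L) (p : P) => p ∈ l)
    · intro j hj hjk
      rw [Finset.mem_insert] at hj
      rcases hj with rfl | hj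
      · exact ⟨D.C, Finset.mem_insert_self _ _, hCk, D.hC⟩
      · obtain ⟨e, he, rfl⟩ := Finset.mem_image.1 hj
        refine ⟨mt P (ll e) k, ?_, mt_right hjk, mt_left hjk⟩
        rw [Finset.mem_insert, Finset.mem_union]
        by_cases hC : mt P (ll e) k = D.C
        · exact Or.inl hC
        · right; left
          exact hq e he _ (mt_left hjk) (mt_right hjk) hC
    · apply pw_insert (I := fun (l : L) (p : P) => p ∈ l)
      · intro j hj hjm
        obtain ⟨e, he, rfl⟩ := Finset.mem_image.1 hj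
        refine ⟨mt P (ll e) D.m, ?_, mt_right hjm, mt_left hjm⟩
        rw [Finset.mem_insert, Finset.mem_union]
        right; right
        rw [hM, Finset.mem_image]
        exact ⟨e, he, rfl⟩
      · exact hpair1
  -- the images are not concurrent at `C`
  have hMbig : G'.card + 1 ≤ D.B.card + M.card := by
    by_contra hcon
    push Not at hcon
    obtain ⟨p, -, hp⟩ := conc _ _ hpair2 (by omega) (by omega)
    have hpC : p = D.C := hkmC p (hp k (Finset.mem_insert_self _ _))
      (hp D.m (Finset.mem_insert_of_mem (Finset.mem_insert_self _ _)))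
    have hG'pos : 0 < G'.card := by omega
    obtain ⟨e, he⟩ := Finset.card_pos.1 hG'pos
    have hea := (D.mem_G0.1 (hG0 e he)).1
    have hgood := D.jn_good hza (hG0 e he)
    have hCe : D.C ∈ ll e := hpC ▸ hp (ll e)
      (Finset.mem_insert_of_mem (Finset.mem_insert_of_mem (Finset.mem_image_of_mem _ he)))
    have hpx := D.px_ge hgood.1 hgood.2.1
    obtain ⟨x, hx, hxB⟩ : ∃ x ∈ D.px (jn L z e), x ∉ D.B := by
      by_contra h1
      push Not at h1
      have := Finset.card_le_card (show D.px (jn L z e) ⊆ D.B from h1)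
      omega
    rw [mem_px] at hx
    have hTx := D.ex h hx.1 hxB hgood hx.2
    have hxm := (D.mem_X.1 hx.1).2
    have hxa := (D.mem_X.1 hx.1).1
    have hTxm := (D.mem_X.1 (D.T_X.2 hx.1)).2
    have hCx : D.C ≠ x := fun h1 => hxm (h1 ▸ D.hC)
    have hCTx : D.C ≠ D.T x := fun h1 => hTxm (h1 ▸ D.hC)
    have h1 := line_eq hCTx hCe hTx (jn_left hCx) (D.hTC (jn L D.C x) (jn_left hCx) x (jn_right hCx))
    have h2 : x ∈ ll e := by rw [h1]; exact jn_right hCx
    have h3 := line_eq (fun h4 => hxa (h4 ▸ hea) : x ≠ e) h2 (hell e (hG0 e he)) hx.2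
      (jn_right (D.ze_ne hza hea))
    rw [h3] at hCe
    have h4 := line_eq hzC hCe (jn_left (D.ze_ne hza hea)) hCk hzk
    exact hek e he (h4 ▸ jn_right (D.ze_ne hza hea))
  obtain ⟨R, hRG, hRinj, hRcard⟩ := reps G' (fun e => mt P (ll e) D.m)
  rw [← hM] at hRcard
  set R' := R.filter (fun e => mt P (ll e) D.m ≠ D.C) with hR'
  have hR'card : R.card ≤ R'.card + 1 := by
    have h1 := Finset.card_filter_add_card_filter_not (s := R) (fun e => mt P (ll e) D.m ≠ D.C)
    have h2 : (R.filter (fun e => ¬ mt P (ll e) D.m ≠ D.C)).card ≤ 1 := by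
      rw [Finset.card_le_one]
      intro p hp q hq
      rw [Finset.mem_filter, not_not] at hp hq
      exact hRinj hp.1 hq.1 (hp.2.trans hq.2.symm)
    rw [← hR'] at h1
    omega
  have hR'G : ∀ e ∈ R', e ∈ G' := fun e he => hRG (Finset.mem_filter.1 he).1
  have hF2 : (insert k (R'.image ll)).card = R'.card + 1 := by
    rw [Finset.card_insert_of_notMem, Finset.card_image_of_injOn]
    · exact hllinj.mono (by intro e he; exact hG0 e (hR'G e he))
    · intro h1
      obtain ⟨e, he, h2⟩ := Finset.mem_image.1 h1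
      exact hllk e (hR'G e he) h2
  have hpair3 : ∀ l ∈ insert k (R'.image ll), ∀ j ∈ insert k (R'.image ll), l ≠ j →
      ∃ p ∈ D.B.image D.T, p ∈ l ∧ p ∈ j := by
    apply pw_insert (I := fun (l : L) (p : P) => p ∈ l)
    · intro j hj hjk
      obtain ⟨e, he, rfl⟩ := Finset.mem_image.1 hj
      refine ⟨mt P (ll e) k, ?_, mt_right hjk, mt_left hjk⟩
      refine hq e (hR'G e he) _ (mt_left hjk) (mt_right hjk) ?_
      intro h1
      have h2 : D.C ∈ ll e := h1 ▸ mt_left hjk
      exact (Finset.mem_filter.1 he).2 (eq_mt (hllm e (hG0 e (hR'G e he))) h2 D.hC).symm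
    · intro l hl j hj hlj
      obtain ⟨e, he, rfl⟩ := Finset.mem_image.1 hl
      obtain ⟨f, hf, rfl⟩ := Finset.mem_image.1 hj
      have hef : e ≠ f := fun h1 => hlj (by rw [h1])
      refine ⟨mt P (ll e) (ll f), ?_, mt_left hlj, mt_right hlj⟩
      refine D.K1 hza h hn hzt (hG0 e (hR'G e he)) (hG0 f (hR'G f hf)) hef (mt_left hlj)
        (mt_right hlj) ?_
      intro hpm
      apply hef
      apply hRinj (Finset.mem_filter.1 he).1 (Finset.mem_filter.1 hf).1
      simp only
      rw [← eq_mt (hllm e (hG0 e (hR'G e he))) (mt_left hlj) hpm,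
        ← eq_mt (hllm f (hG0 f (hR'G f hf))) (mt_right hlj) hpm]
  obtain ⟨q, hqB, hq2⟩ := conc _ _ hpair3 (by omega) (by omega)
  have hqk : q ∈ k := hq2 k (Finset.mem_insert_self _ _)
  have hqX : q ∈ D.X := by
    obtain ⟨y, hy, rfl⟩ := Finset.mem_image.1 hqB
    exact D.T_X.2 (Finset.mem_filter.1 hy).1
  refine ⟨q, (D.mem_X.1 hqX).1, ?_, ?_⟩
  · intro f hf
    by_cases hfk : f ∈ k
    · have hfa := (D.mem_G0.1 hf).1
      have h1 : jn L z f = k := (eq_jn (D.ze_ne hza hfa) hzk hfk).symm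
      have h2 := D.jn_good hza hf
      rw [h1] at h2 ⊢
      rw [D.pencil_st hn h2 hCk]
      exact hqk
    · have hfG : f ∈ G' := Finset.mem_filter.2 ⟨hf, hfk⟩
      by_contra hqf
      have h1 : R'.card ≤ (insert (mt P (ll f) D.m) (D.B.image D.T)).card := by
        have hne : ∀ e ∈ R', e ≠ f ∧ ll f ≠ ll e := by
          intro e he
          have h2 : q ∈ ll e := hq2 _ (Finset.mem_insert_of_mem (Finset.mem_image_of_mem _ he))
          have h3 : e ≠ f := fun h4 => hqf (h4 ▸ h2)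
          exact ⟨h3, fun h4 => hqf (by rw [hll] at h4 h2; simp only at h4 h2; rw [h4]; exact h2)⟩
        apply Finset.card_le_card_of_injOn (fun e => mt P (ll f) (ll e))
        · intro e he
          have h3 := hne e he
          simp only [Finset.coe_insert, Set.mem_insert_iff, Finset.mem_coe]
          by_cases hpm : mt P (ll f) (ll e) ∈ D.m
          · left; exact eq_mt (hllm f hf) (mt_left h3.2) hpm
          · right
            exact D.K1 hza h hn hzt hf (hG0 e (hR'G e he)) h3.1.symm (mt_left h3.2)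
              (mt_right h3.2) hpm
        · intro e he e' he' heq
          simp only at heq
          by_contra hee
          have h3 := hne e he
          have h4 := hne e' he'
          have h5 : q ∈ ll e := hq2 _ (Finset.mem_insert_of_mem (Finset.mem_image_of_mem _ he))
          have h6 : q ∈ ll e' := hq2 _ (Finset.mem_insert_of_mem (Finset.mem_image_of_mem _ he'))
          have h7 : ll e ≠ ll e' := fun h8 =>
            hee (hllinj (hG0 e (hR'G e he)) (hG0 e' (hR'G e' he')) h8)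
          have h8 : mt P (ll f) (ll e) = q := by
            refine pt_eq h7 (mt_right h3.2) h5 ?_ h6
            rw [heq]; exact mt_right h4.2
          exact hqf (h8 ▸ mt_left h3.2)
      have h2 := Finset.card_insert_le (mt P (ll f) D.m) (D.B.image D.T)
      omega
  · intro l hCl hzl
    rw [line_eq hzC hCl hzl hCk hzk]
    exact hqk

theorem Q_m (h : D.Sm) (hn : 3 ≤ order P L) {z : P} (hzm : z ∈ D.m) (hza : z ∉ D.a) :
    ∃ q, D.Q z q := by
  have hB2 := D.B_small h
  have hb2 := D.bl_small h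
  have hG := D.G0_card
  by_cases hzC : D.C = z
  · subst hzC
    refine ⟨D.C, hza, fun e he => ?_, fun l h1 _ => h1⟩
    have hea := (D.mem_G0.1 he).1
    rw [D.pencil_st hn (D.jn_good hza he) (jn_left (D.ze_ne hza hea))]
    exact jn_left (D.ze_ne hza hea)
  have hzt : ¬ (z ∈ D.X ∧ z ∉ D.B) := fun h1 => (D.mem_X.1 h1.1).2 hzm
  set ll : P → L := fun e => D.st (jn L z e) with hll
  have hell : ∀ e ∈ D.G0, e ∈ ll e := fun e he => D.e_mem_st hza he
  have hllinj : Set.InjOn ll D.G0 := by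
    intro e he f hf hef
    by_contra hne
    exact D.st_jn_ne hza he hf hne hef
  have hllm : ∀ e ∈ D.G0, ll e ≠ D.m := fun e he => D.st_ne_m (D.jn_good hza he)
  have hlla : ∀ e ∈ D.G0, ll e ≠ D.a := fun e he => D.st_ne (D.jn_good hza he)
  set M := D.G0.image (fun e => mt P (ll e) D.m) with hM
  have hMle : M.card ≤ D.G0.card := Finset.card_image_le
  have hTB : (D.B.image D.T).card = D.B.card := Finset.card_image_of_injective _ D.T.injective
  have hF1 : (insert D.m (D.G0.image ll)).card = D.G0.card + 1 := by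
    rw [Finset.card_insert_of_notMem, Finset.card_image_of_injOn hllinj]
    intro h1
    obtain ⟨e, he, h2⟩ := Finset.mem_image.1 h1
    exact hllm e he h2
  have hpair1 : ∀ l ∈ D.G0.image ll, ∀ j ∈ D.G0.image ll, l ≠ j →
      ∃ p ∈ D.B.image D.T ∪ M, p ∈ l ∧ p ∈ j := by
    intro l hl j hj hlj
    obtain ⟨e, he, rfl⟩ := Finset.mem_image.1 hl
    obtain ⟨f, hf, rfl⟩ := Finset.mem_image.1 hj
    have hef : e ≠ f := fun h1 => hlj (by rw [h1])
    refine ⟨mt P (ll e) (ll f), ?_, mt_left hlj, mt_right hlj⟩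
    rw [Finset.mem_union]
    by_cases hpm : mt P (ll e) (ll f) ∈ D.m
    · right
      rw [hM, Finset.mem_image]
      exact ⟨e, he, (eq_mt (hllm e he) (mt_left hlj) hpm).symm⟩
    · left
      exact D.K1 hza h hn hzt he hf hef (mt_left hlj) (mt_right hlj) hpm
  have hpair2 : ∀ l ∈ insert D.m (D.G0.image ll), ∀ j ∈ insert D.m (D.G0.image ll), l ≠ j →
      ∃ p ∈ D.B.image D.T ∪ M, p ∈ l ∧ p ∈ j := by
    apply pw_insert (I := fun (l : L) (p : P) => p ∈ l)
    · intro j hj hjm
      obtain ⟨e, he, rfl⟩ := Finset.mem_image.1 hj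
      refine ⟨mt P (ll e) D.m, ?_, mt_right hjm, mt_left hjm⟩
      rw [Finset.mem_union]
      right
      rw [hM, Finset.mem_image]
      exact ⟨e, he, rfl⟩
    · exact hpair1
  have hut := Finset.card_union_le (D.B.image D.T) M
  by_cases hcase : D.B.card + M.card < D.G0.card + 1
  · obtain ⟨p, -, hp⟩ := conc _ _ hpair2 (by omega) (by omega)
    have hpm : p ∈ D.m := hp D.m (Finset.mem_insert_self _ _)
    have hpl : ∀ e ∈ D.G0, p ∈ ll e := fun e he =>
      hp _ (Finset.mem_insert_of_mem (Finset.mem_image_of_mem _ he))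
    refine ⟨p, ?_, hpl, ?_⟩
    · have h2 : 1 < D.G0.card := by omega
      obtain ⟨e, he, f, hf, hef⟩ := Finset.one_lt_card.1 h2
      intro hpa
      have h3 := pt_eq (hlla e he) (hpl e he) (hell e he) hpa (D.mem_G0.1 he).1
      have h4 := pt_eq (hlla f hf) (hpl f hf) (hell f hf) hpa (D.mem_G0.1 hf).1
      exact hef (h3.symm.trans h4)
    · intro l hCl hzl
      rw [line_eq hzC hCl hzl D.hC hzm]
      exact hpm
  · exfalso
    push Not at hcase
    obtain ⟨R, hRG, hRinj, hRcard⟩ := reps D.G0 (fun e => mt P (ll e) D.m)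
    rw [← hM] at hRcard
    have hF2 : (R.image ll).card = R.card := Finset.card_image_of_injOn
      (hllinj.mono (by exact_mod_cast hRG))
    have hpair3 : ∀ l ∈ R.image ll, ∀ j ∈ R.image ll, l ≠ j →
        ∃ p ∈ D.B.image D.T, p ∈ l ∧ p ∈ j := by
      intro l hl j hj hlj
      obtain ⟨e, he, rfl⟩ := Finset.mem_image.1 hl
      obtain ⟨f, hf, rfl⟩ := Finset.mem_image.1 hj
      have hef : e ≠ f := fun h1 => hlj (by rw [h1])
      refine ⟨mt P (ll e) (ll f), ?_, mt_left hlj, mt_right hlj⟩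
      refine D.K1 hza h hn hzt (hRG he) (hRG hf) hef (mt_left hlj) (mt_right hlj) ?_
      intro hpm
      apply hef
      apply hRinj he hf
      simp only
      rw [← eq_mt (hllm e (hRG he)) (mt_left hlj) hpm,
        ← eq_mt (hllm f (hRG hf)) (mt_right hlj) hpm]
    obtain ⟨q, hqB, hq2⟩ := conc _ _ hpair3 (by omega) (by omega)
    obtain ⟨x0, hx0B, hx0⟩ := Finset.mem_image.1 hqB
    have hx0X := (Finset.mem_filter.1 hx0B).1
    have hx0m := (D.mem_X.1 hx0X).2
    have hCx0 : D.C ≠ x0 := fun h1 => hx0m (h1 ▸ D.hC)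
    set k0 := jn L D.C x0 with hk0
    have hCk0 : D.C ∈ k0 := jn_left hCx0
    have hk0m : k0 ≠ D.m := fun h1 => hx0m (h1 ▸ jn_right hCx0)
    have hk0a : k0 ≠ D.a := fun h1 => (D.mem_X.1 hx0X).1 (h1 ▸ jn_right hCx0)
    have hqk0 : q ∈ k0 := hx0 ▸ D.hTC k0 hCk0 x0 (jn_right hCx0)
    have hzk0 : z ∉ k0 := fun h1 => hzC (pt_eq hk0m hCk0 h1 D.hC hzm)
    have hjk : ∀ e ∈ R, jn L z e ≠ k0 := fun e he h1 =>
      hzk0 (h1 ▸ jn_left (D.ze_ne hza (D.mem_G0.1 (hRG he)).1))
    have hex : ∃ e ∈ R, e ∉ k0 ∧ mt P (jn L z e) k0 ∉ D.B := by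
      by_contra h1
      push Not at h1
      have h2 : R ⊆ R.filter (fun e => e ∈ k0) ∪ R.filter (fun e => mt P (jn L z e) k0 ∈ D.B) := by
        intro e he
        rw [Finset.mem_union, Finset.mem_filter, Finset.mem_filter]
        by_cases h3 : e ∈ k0
        · exact Or.inl ⟨he, h3⟩
        · exact Or.inr ⟨he, h1 e he h3⟩
      have h3 := Finset.card_le_card h2
      have h4 := Finset.card_union_le (R.filter (fun e => e ∈ k0))
        (R.filter (fun e => mt P (jn L z e) k0 ∈ D.B))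
      have h5 : (R.filter (fun e => e ∈ k0)).card ≤ 1 := by
        rw [Finset.card_le_one]
        intro p hp q hq
        rw [Finset.mem_filter] at hp hq
        exact pt_eq hk0a hp.2 hq.2 (D.mem_G0.1 (hRG hp.1)).1 (D.mem_G0.1 (hRG hq.1)).1
      have h6 : (R.filter (fun e => mt P (jn L z e) k0 ∈ D.B)).card ≤ D.B.card := by
        apply Finset.card_le_card_of_injOn (fun e => mt P (jn L z e) k0)
        · intro e he
          exact (Finset.mem_filter.1 he).2
        · intro e he f hf hef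
          have he1 := (Finset.mem_filter.1 he).1
          have hf1 := (Finset.mem_filter.1 hf).1
          have hea := (D.mem_G0.1 (hRG he1)).1
          have hfa := (D.mem_G0.1 (hRG hf1)).1
          simp only at hef
          have h7 : z ≠ mt P (jn L z e) k0 := fun h8 => hzk0 (h8 ▸ mt_right (hjk e he1))
          have h8 : jn L z e = jn L z f := by
            refine line_eq h7 (jn_left (D.ze_ne hza hea)) (mt_left (hjk e he1))
              (jn_left (D.ze_ne hza hfa)) ?_
            rw [hef]; exact mt_left (hjk f hf1)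
          rw [← D.dir_jn hza hea, ← D.dir_jn hza hfa, h8]
      omega
    obtain ⟨e, heR, hek0, hxB⟩ := hex
    have heG := hRG heR
    have hea := (D.mem_G0.1 heG).1
    have hem := (D.mem_G0.1 heG).2.1
    set x := mt P (jn L z e) k0 with hx
    have hx1 : x ∈ jn L z e := mt_left (hjk e heR)
    have hx2 : x ∈ k0 := mt_right (hjk e heR)
    have hxa : x ∉ D.a := by
      intro h1
      have h2 := pt_eq (D.jn_ne hza hea) hx1 (jn_right (D.ze_ne hza hea)) h1 hea
      exact hek0 (h2 ▸ hx2)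
    have hxm : x ∉ D.m := by
      intro h1
      have h2 := pt_eq hk0m hx2 hCk0 h1 D.hC
      rw [h2] at hx1
      have h3 := line_eq hzC hx1 (jn_left (D.ze_ne hza hea)) D.hC hzm
      exact hem (h3 ▸ jn_right (D.ze_ne hza hea))
    have hxX : x ∈ D.X := D.mem_X.2 ⟨hxa, hxm⟩
    have hTx1 := D.ex h hxX hxB (D.jn_good hza heG) hx1
    have hTx2 := D.hTC k0 hCk0 x hx2
    have hqe : q ∈ ll e := hq2 _ (Finset.mem_image_of_mem _ heR)
    have hne : ll e ≠ k0 := fun h1 => hek0 (h1 ▸ hell e heG)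
    have h1 : D.T x = q := pt_eq hne hTx1 hqe hTx2 hqk0
    rw [← hx0] at h1
    exact hxB (D.T.injective h1 ▸ hx0B)

theorem Q_all (h : D.Sm) (hn : 3 ≤ order P L) {z : P} (hza : z ∉ D.a) : ∃ q, D.Q z q := by
  by_cases hzm : z ∈ D.m
  · exact D.Q_m h hn hzm hza
  · by_cases hzB : z ∈ D.B
    · exact D.Q_B h hn hzB
    · exact ⟨_, D.Q_typ h (D.mem_X.2 ⟨hza, hzm⟩) hzB⟩

end Dat

end

end Pool.Agent.N367.PPD
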