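import Pool.Agent.N367.PPD.Group

set_option autoImplicit false
set_option linter.unusedSectionVars false

/-!
# Full groups of perspectivities
-/

namespace Pool.Agent.N367.PPD

open Configuration Configuration.ProjectivePlane Finset
open scoped Classical

noncomputable section

variable {P L : Type} [Membership P L] [ProjectivePlane P L] [Fintype P] [Fintype L]

variable {g h : Equiv.Perm P × Equiv.Perm L} {a : L} {C : P}

/-- the finset of perspectivities -/
def H (C : P) (a : L) : Finset (Equiv.Perm P × Equiv.Perm L) := univ.filter (fun g => IsP C a g)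

@[simp] theorem mem_H : g ∈ H C a ↔ IsP C a g := by simp [H]

/-- points on a line through the centre moved by perspectivities -/
def S (C : P) (a : L) (l : L) : Finset P := (pts l).filter (fun y => C ≠ y ∧ y ∉ a)

@[simp] theorem mem_S {l : L} {y : P} : y ∈ S C a l ↔ y ∈ l ∧ C ≠ y ∧ y ∉ a := by simp [S]

theorem S_card_in {l : L} (hl : C ∈ l) (hla : l ≠ a) (hC : C ∈ a) :
    (S C a l).card = order P L := by
  have h1 : S C a l = (pts l).erase C := by
    ext y
    rw [mem_S, Finset.mem_erase, mem_pts]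
    constructor
    · rintro ⟨h1, h2, -⟩; exact ⟨h2.symm, h1⟩
    · rintro ⟨h1, h2⟩
      exact ⟨h2, h1.symm, fun h3 => h1 (pt_eq hla h2 hl h3 hC)⟩
  rw [h1, Finset.card_erase_of_mem (mem_pts.2 hl), card_pts]
  omega

theorem S_card_off {l : L} (hl : C ∈ l) (hC : C ∉ a) :
    (S C a l).card + 1 = order P L := by
  have hla : l ≠ a := fun h1 => hC (h1 ▸ hl)
  have h1 : S C a l = ((pts l).erase C).erase (mt P l a) := by
    ext y
    rw [mem_S, Finset.mem_erase, Finset.mem_erase, mem_pts]
    constructor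
    · rintro ⟨h1, h2, h3⟩
      exact ⟨fun h4 => h3 (by rw [h4]; exact mt_right hla), h2.symm, h1⟩
    · rintro ⟨h1, h2, h3⟩
      exact ⟨h3, h2.symm, fun h4 => h1 (eq_mt hla h3 h4)⟩
  have h2 : mt P l a ∈ (pts l).erase C := by
    rw [Finset.mem_erase, mem_pts]
    exact ⟨fun h2 => hC (by rw [← h2]; exact mt_right hla), mt_left hla⟩
  rw [h1, Finset.card_erase_of_mem h2, Finset.card_erase_of_mem (mem_pts.2 hl), card_pts]
  have := one_lt_order P L
  omega

theorem S_card {l k : L} (hl : C ∈ l) (hk : C ∈ k) (hla : l ≠ a) (hka : k ≠ a) :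
    (S C a l).card = (S C a k).card := by
  by_cases hC : C ∈ a
  · rw [S_card_in hl hla hC, S_card_in hk hka hC]
  · have h1 := S_card_off hl hC
    have h2 := S_card_off hk hC
    omega

theorem S_le {l : L} (hl : C ∈ l) (hla : l ≠ a) : (S C a l).card ≤ order P L := by
  by_cases hC : C ∈ a
  · exact (S_card_in hl hla hC).le
  · have h1 := S_card_off hl hC
    omega

/-- the orbit of a point -/
def orb (C : P) (a : L) (x : P) : Finset P := (H C a).image (fun g => g.1 x)

theorem orb_card {x : P} (hx : x ∉ a) (hxC : C ≠ x) : (orb C a x).card = (H C a).card := by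
  apply Finset.card_image_of_injOn
  intro g hg h hh hgh
  rw [Finset.mem_coe, mem_H] at hg hh
  exact hg.eq_of hh hx hxC hgh

theorem IsP.move (hg : IsP C a g) {x : P} (hx : x ∉ a) (hxC : C ≠ x) {l : L} (hl : C ∈ l)
    (hxl : x ∈ l) : g.1 x ∈ S C a l := by
  rw [mem_S]
  refine ⟨?_, ?_, hg.1.na hx⟩
  · rw [← hg.2 l hl, hg.1.1]; exact hxl
  · intro h1
    apply hxC
    have h2 : g.1 C = C := by
      by_cases hCa : C ∈ a
      · exact hg.1.2 C hCa
      · obtain ⟨y, hy, hyl⟩ := exists_off (P := P) a l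
        have hCy : C ≠ y := fun h3 => hyl (h3 ▸ hl)
        have hne : jn L C y ≠ l := fun h3 => hyl (h3 ▸ jn_right hCy)
        refine pt_eq hne ?_ (jn_left hCy) ?_ hl
        · rw [← hg.2 _ (jn_left hCy), hg.1.1]; exact jn_left hCy
        · rw [← hg.2 _ hl, hg.1.1]; exact hl
    exact g.1.injective (by rw [h2]; exact h1)

theorem orb_sub {x : P} (hx : x ∉ a) (hxC : C ≠ x) {l : L} (hl : C ∈ l) (hxl : x ∈ l) :
    orb C a x ⊆ S C a l := by
  intro y hy
  obtain ⟨g, hg, rfl⟩ := Finset.mem_image.1 hy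
  rw [mem_H] at hg
  exact hg.move hx hxC hl hxl

/-- a group with more than half of the possible elements is full -/
theorem half {l : L} (hl : C ∈ l) (hla : l ≠ a) (h1 : (S C a l).card < 2 * (H C a).card) :
    Tr C a := by
  intro x y hx hy hxC hyC hyx
  have hna : jn L C x ≠ a := fun h2 => hx (h2 ▸ jn_right hxC)
  have h2 := orb_sub hx hxC (jn_left hxC) (jn_right hxC)
  have h3 := orb_sub hy hyC (jn_left hxC) hyx
  have h4 := orb_card hx hxC
  have h5 := orb_card hy hyC
  have h6 := S_card hl (jn_left hxC) hla hna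
  have h7 : ¬ Disjoint (orb C a x) (orb C a y) := by
    intro h7
    have h8 := Finset.card_le_card (Finset.union_subset h2 h3)
    rw [Finset.card_union_of_disjoint h7] at h8
    omega
  rw [Finset.not_disjoint_iff] at h7
  obtain ⟨z, hz1, hz2⟩ := h7
  obtain ⟨g, hg, hgz⟩ := Finset.mem_image.1 hz1
  obtain ⟨k, hk, hkz⟩ := Finset.mem_image.1 hz2
  rw [mem_H] at hg hk
  refine ⟨k⁻¹ * g, hk.inv.mul hg, ?_⟩
  simp only [Prod.fst_mul, Prod.fst_inv, Equiv.Perm.mul_apply]
  rw [Equiv.Perm.inv_eq_iff_eq]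
  exact hgz.trans hkz.symm

theorem Tr.card (ht : Tr C a) {l : L} (hl : C ∈ l) (hne : (S C a l).Nonempty) :
    (H C a).card = (S C a l).card := by
  obtain ⟨x, hx⟩ := hne
  rw [mem_S] at hx
  rw [← orb_card hx.2.2 hx.2.1]
  congr 1
  apply Finset.Subset.antisymm (orb_sub hx.2.2 hx.2.1 hl hx.1)
  intro y hy
  rw [mem_S] at hy
  obtain ⟨g, hg, hgy⟩ := ht x y hx.2.2 hy.2.2 hx.2.1 hy.2.1
    (by rw [← eq_jn hx.2.1 hl hx.1]; exact hy.1)
  exact Finset.mem_image.2 ⟨g, mem_H.2 hg, hgy⟩

/-- points that cannot be reached -/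
theorem unreach (ht : ¬ Tr C a) {x : P} (hx : x ∉ a) (hxC : C ≠ x) :
    (S C a (jn L C x)).card ≤
      2 * ((S C a (jn L C x)).filter (fun y => y ∉ orb C a x)).card := by
  have hna : jn L C x ≠ a := fun h2 => hx (h2 ▸ jn_right hxC)
  have h1 : 2 * (H C a).card ≤ (S C a (jn L C x)).card := by
    by_contra h1
    push Not at h1
    exact ht (half (jn_left hxC) hna h1)
  have h2 := orb_card hx hxC
  have h3 := Finset.le_card_sdiff (orb C a x) (S C a (jn L C x))
  rw [Finset.sdiff_eq_filter] at h3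
  omega

theorem card_psp (C : P) (a : L) : Nat.card (psp C a) = (H C a).card := by
  rw [Nat.card_eq_fintype_card, Fintype.card_subtype]
  rfl

theorem exists_line_off (a : L) (c : P) : ∃ l : L, c ∈ l ∧ l ≠ a := by
  have h1 : 1 < (lns c : Finset L).card := by
    rw [card_lns]
    have := one_lt_order P L
    omega
  obtain ⟨l, hl, hla⟩ := Finset.exists_mem_ne h1 a
  exact ⟨l, mem_lns.1 hl, hla⟩

theorem card_H_in (hC : C ∈ a) (ht : Tr C a) : (H C a).card = order P L := by
  obtain ⟨l, hl, hla⟩ := exists_line_off a C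
  have h1 := S_card_in hl hla hC
  have hn := one_lt_order P L
  rw [ht.card hl (Finset.card_pos.1 (by omega)), h1]

theorem card_H_off (hC : C ∉ a) (ht : Tr C a) : (H C a).card + 1 = order P L := by
  obtain ⟨l, hl, hla⟩ := exists_line_off a C
  have h1 := S_card_off hl hC
  have hn := one_lt_order P L
  rw [ht.card hl (Finset.card_pos.1 (by omega)), h1]

/-- two full groups of elations: the order is a prime power -/
theorem primePow {c d : P} (hc : c ∈ a) (hd : d ∈ a) (hcd : c ≠ d) (tc : Tr c a) (td : Tr d a) :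
    IsPrimePow (order P L) := by
  have hn := one_lt_order P L
  have h1 := card_H_in hc tc
  have h2 := card_H_in hd td
  have hne : order P L ≠ 1 := by omega
  have hp := Nat.minFac_prime hne
  set p := (order P L).minFac with hpdef
  have : Fact p.Prime := ⟨hp⟩
  have h3 : p ∣ Nat.card (psp c a) := by
    rw [card_psp, h1]; exact Nat.minFac_dvd _
  obtain ⟨g, hg⟩ := exists_prime_orderOf_dvd_card' p h3
  have hg1 : g.1 ≠ 1 := by
    intro h4
    have h5 : g = 1 := Subtype.ext h4
    rw [h5, orderOf_one] at hg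
    exact hp.one_lt.ne hg
  have hgp : g.1 ^ p = 1 := by
    have h4 : g ^ p = 1 := by rw [← hg]; exact pow_orderOf_eq_one g
    have h5 := congrArg Subtype.val h4
    simpa using h5
  have hG : IsPGroup p (psp d a) := by
    intro h
    refine ⟨1, ?_⟩
    rw [pow_one]
    apply Subtype.ext
    by_cases h4 : h.1 = 1
    · simp [h4]
    · obtain ⟨f, hfa, hf, -, hfd⟩ := IsP.prod hc hd hcd g.2 h.2 hg1 h4
      have h5 : (g.1 * h.1) ^ p = h.1 ^ p := by
        have h6 : Commute g.1 h.1 := IsP.comm hc hd hcd g.2 h.2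
        rw [h6.mul_pow, hgp, one_mul]
      have h6 : IsP d a (h.1 ^ p) := (psp d a).pow_mem h.2 p
      have h7 : IsP f a (h.1 ^ p) := by
        rw [← h5]; exact (psp f a).pow_mem hf p
      simpa using IsP.disj hfa hd hfd h7 h6
  obtain ⟨k, hk⟩ := (IsPGroup.iff_card).1 hG
  rw [card_psp, h2] at hk
  have hk0 : k ≠ 0 := by
    rintro rfl
    rw [pow_zero] at hk
    omega
  rw [hk]
  exact hp.isPrimePow.pow hk0

/-- two full groups of homologies with a common axis -/
theorem hom_elat {D : P} (hn : 3 ≤ order P L) (hC : C ∉ a) (hD : D ∉ a) (hCD : C ≠ D)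
    (tC : Tr C a) (tD : Tr D a) : Tr (mt P (jn L C D) a) a := by
  set l := jn L C D with hl
  have hla : l ≠ a := fun h1 => hC (h1 ▸ jn_left hCD)
  have hCl : C ∈ l := jn_left hCD
  have hDl : D ∈ l := jn_right hCD
  set c := mt P l a with hc
  have hca : c ∈ a := mt_right hla
  have hcl : c ∈ l := mt_left hla
  have hcC : c ≠ C := fun h1 => hC (h1 ▸ hca)
  have hcard := card_H_off hC tC
  have main : ∀ y, y ∈ l → y ∉ a → y ≠ C → y ≠ D → ∃ k, IsP c a k ∧ k.1 C = y := by
    intro y hyl hya hyC hyD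
    obtain ⟨g0, hg0, hg0C⟩ := tD C y hC hya hCD.symm hyD.symm
      (by rw [← eq_jn hCD.symm hDl hCl]; exact hyl)
    -- all the products map `C` to `y` and fix `l`
    have hk1 : ∀ g ∈ H C a, IsAx a (g0 * g) ∧ (g0 * g).2 l = l ∧ (g0 * g).1 C = y := by
      intro g hg
      rw [mem_H] at hg
      refine ⟨hg0.1.mul hg.1, ?_, ?_⟩
      · simp only [Prod.snd_mul, Equiv.Perm.mul_apply]
        rw [hg.2 l hCl, hg0.2 l hDl]
      · simp only [Prod.fst_mul, Equiv.Perm.mul_apply]
        have h1 : g.1 C = C := by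
          obtain ⟨u, hua, hul⟩ := exists_off (P := P) a l
          have hCu : C ≠ u := fun h3 => hul (h3 ▸ hCl)
          have hne : jn L C u ≠ l := fun h3 => hul (h3 ▸ jn_right hCu)
          refine pt_eq hne ?_ (jn_left hCu) ?_ hCl
          · rw [← hg.2 _ (jn_left hCu), hg.1.1]; exact jn_left hCu
          · rw [← hg.2 _ hCl, hg.1.1]; exact hCl
        rw [h1, hg0C]
    by_contra hcon
    push Not at hcon
    have hfix : ∀ g ∈ H C a, ∃ z, z ∉ a ∧ (g0 * g).1 z = z := by
      intro g hg
      by_contra h1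
      push Not at h1
      obtain ⟨k1, k2, k3⟩ := hk1 g hg
      obtain ⟨f, hfa, hf, hfl⟩ := k1.elation h1
      have h2 := hfl C hC
      rw [k3, ← eq_jn hyC.symm hCl hyl] at h2
      have h3 : f = c := eq_mt hla h2 hfa
      rw [h3] at hf
      exact hcon _ hf k3
    have : Nonempty P := ⟨C⟩
    choose! z hza hz using hfix
    have hzl : ∀ g ∈ H C a, z g ∈ l := by
      intro g hg
      by_contra h1
      obtain ⟨k1, k2, k3⟩ := hk1 g hg
      have h2 := k1.fixed (hza g hg) (hz g hg)
      have hzC : z g ≠ C := fun h3 => h1 (h3 ▸ hCl)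
      have hne : jn L (z g) C ≠ l := fun h3 => h1 (h3 ▸ jn_left hzC)
      apply hyC
      rw [← k3]
      refine pt_eq hne ?_ (jn_right hzC) ?_ hCl
      · rw [← h2.2 _ (jn_left hzC), k1.1]; exact jn_right hzC
      · rw [← k2, k1.1]; exact hCl
    have hzC : ∀ g ∈ H C a, z g ≠ C := by
      intro g hg h1
      have h2 := hz g hg
      rw [h1, (hk1 g hg).2.2] at h2
      exact hyC h2
    have hzy : ∀ g ∈ H C a, z g ≠ y := by
      intro g hg h1
      have h2 := hz g hg
      rw [h1] at h2
      exact hyC ((g0 * g).1.injective (h2.trans (hk1 g hg).2.2.symm))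
    have hinj : (H C a).card ≤ ((S C a l).erase y).card := by
      apply Finset.card_le_card_of_injOn z
      · intro g hg
        rw [Finset.mem_coe] at hg ⊢
        rw [Finset.mem_erase, mem_S]
        exact ⟨hzy g hg, hzl g hg, (hzC g hg).symm, hza g hg⟩
      · intro g hg g' hg' hgg
        rw [Finset.mem_coe] at hg hg'
        obtain ⟨k1, k2, k3⟩ := hk1 g hg
        obtain ⟨k1', k2', k3'⟩ := hk1 g' hg'
        have h1 := k1.fixed (hza g hg) (hz g hg)
        have h2 := k1'.fixed (hza g' hg') (hz g' hg')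
        rw [← hgg] at h2
        exact mul_left_cancel (h1.eq_of h2 hC (hzC g hg) (k3.trans k3'.symm))
    have h1 : y ∈ S C a l := mem_S.2 ⟨hyl, hyC.symm, hya⟩
    rw [Finset.card_erase_of_mem h1] at hinj
    have h2 := S_card_off hCl hC
    have h3 := Finset.card_pos.2 ⟨y, h1⟩
    omega
  -- the orbit of `C` is large
  apply half hcl hla
  have h1 : (S c a l).erase D ⊆ orb c a C := by
    intro y hy
    rw [Finset.mem_erase, mem_S] at hy
    rw [orb, Finset.mem_image]
    by_cases hyC : y = C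
    · exact ⟨1, mem_H.2 IsP.one, by rw [hyC]; rfl⟩
    · obtain ⟨k, hk, hky⟩ := main y hy.2.1 hy.2.2.2 hyC hy.1
      exact ⟨k, mem_H.2 hk, hky⟩
  have h2 := Finset.card_le_card h1
  have h3 := Finset.pred_card_le_card_erase (s := S c a l) (a := D)
  have h4 := S_card_in hcl hla hca
  rw [orb_card hC hcC] at h2
  omega

end

end Pool.Agent.N367.PPD
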