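import Pool.Agent.N367.PPD.Basic

set_option autoImplicit false
set_option linter.unusedSectionVars false

/-!
# Perspectivities
-/

namespace Pool.Agent.N367.PPD

open Configuration Configuration.ProjectivePlane Finset
open scoped Classical

noncomputable section

variable {P L : Type} [Membership P L]

/-- collineations -/
def IsCol (g : Equiv.Perm P × Equiv.Perm L) : Prop := ∀ p l, g.1 p ∈ g.2 l ↔ p ∈ l

/-- collineations fixing the points of `a` -/
def IsAx (a : L) (g : Equiv.Perm P × Equiv.Perm L) : Prop := IsCol g ∧ ∀ p, p ∈ a → g.1 p = p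

/-- perspectivities with centre `C` and axis `a` -/
def IsP (C : P) (a : L) (g : Equiv.Perm P × Equiv.Perm L) : Prop :=
  IsAx a g ∧ ∀ l : L, C ∈ l → g.2 l = l

variable {g h : Equiv.Perm P × Equiv.Perm L} {a : L} {C : P}

theorem IsCol.one : IsCol (1 : Equiv.Perm P × Equiv.Perm L) := fun _ _ => Iff.rfl

theorem IsCol.mul (hg : IsCol g) (hh : IsCol h) : IsCol (g * h) := fun p l => by
  simp only [Prod.fst_mul, Prod.snd_mul, Equiv.Perm.mul_apply]
  rw [hg, hh]

theorem IsCol.inv (hg : IsCol g) : IsCol g⁻¹ := fun p l => by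
  simp only [Prod.fst_inv, Prod.snd_inv]
  rw [← hg (g.1⁻¹ p) (g.2⁻¹ l)]
  simp

theorem IsAx.one : IsAx a (1 : Equiv.Perm P × Equiv.Perm L) := ⟨IsCol.one, fun _ _ => rfl⟩

theorem IsAx.mul (hg : IsAx a g) (hh : IsAx a h) : IsAx a (g * h) :=
  ⟨hg.1.mul hh.1, fun p hp => by
    simp only [Prod.fst_mul, Equiv.Perm.mul_apply]
    rw [hh.2 p hp, hg.2 p hp]⟩

theorem IsAx.inv (hg : IsAx a g) : IsAx a g⁻¹ :=
  ⟨hg.1.inv, fun p hp => by
    simp only [Prod.fst_inv]
    rw [Equiv.Perm.inv_eq_iff_eq]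
    exact (hg.2 p hp).symm⟩

theorem IsP.one : IsP C a (1 : Equiv.Perm P × Equiv.Perm L) := ⟨IsAx.one, fun _ _ => rfl⟩

theorem IsP.mul (hg : IsP C a g) (hh : IsP C a h) : IsP C a (g * h) :=
  ⟨hg.1.mul hh.1, fun l hl => by
    simp only [Prod.snd_mul, Equiv.Perm.mul_apply]
    rw [hh.2 l hl, hg.2 l hl]⟩

theorem IsP.inv (hg : IsP C a g) : IsP C a g⁻¹ :=
  ⟨hg.1.inv, fun l hl => by
    simp only [Prod.snd_inv]
    rw [Equiv.Perm.inv_eq_iff_eq]
    exact (hg.2 l hl).symm⟩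

theorem IsP.conj (hg : IsP C a g) (hh : IsCol h) : IsP (h.1 C) (h.2 a) (h * g * h⁻¹) := by
  refine ⟨⟨(hh.mul hg.1.1).mul hh.inv, fun p hp => ?_⟩, fun l hl => ?_⟩
  · simp only [Prod.fst_mul, Prod.fst_inv, Equiv.Perm.mul_apply]
    have h1 : h.1⁻¹ p ∈ a := by
      rw [← hh (h.1⁻¹ p) a]
      simpa using hp
    rw [hg.1.2 _ h1]
    simp
  · simp only [Prod.snd_mul, Prod.snd_inv, Equiv.Perm.mul_apply]
    have h1 : C ∈ h.2⁻¹ l := by
      rw [← hh C (h.2⁻¹ l)]
      simpa using hl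
    rw [hg.2 _ h1]
    simp

/-- the group of perspectivities -/
def psp (C : P) (a : L) : Subgroup (Equiv.Perm P × Equiv.Perm L) where
  carrier := {g | IsP C a g}
  one_mem' := IsP.one
  mul_mem' hg hh := IsP.mul hg hh
  inv_mem' hg := IsP.inv hg

theorem mem_psp : g ∈ psp C a ↔ IsP C a g := Iff.rfl

variable [ProjectivePlane P L]

/-- transitivity -/
def Tr (C : P) (a : L) : Prop :=
  ∀ x y : P, x ∉ a → y ∉ a → C ≠ x → C ≠ y → y ∈ jn L C x → ∃ g, IsP C a g ∧ g.1 x = y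

variable [Fintype P] [Fintype L]

theorem exists_off (a m : L) : ∃ u : P, u ∉ a ∧ u ∉ m := by
  by_contra hcon
  push Not at hcon
  have h1 : (univ : Finset P) ⊆ pts a ∪ pts m := by
    intro u _
    rw [Finset.mem_union, mem_pts, mem_pts]
    by_cases h : u ∈ a
    · exact Or.inl h
    · exact Or.inr (hcon u h)
  have h2 := Finset.card_le_card h1
  have h3 := Finset.card_union_le (pts a : Finset P) (pts m)
  rw [card_pts, card_pts] at h3
  rw [Finset.card_univ, card_points P L] at h2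
  have h4 := one_lt_order P L
  nlinarith

theorem exists_two (l : L) : ∃ p q : P, p ≠ q ∧ p ∈ l ∧ q ∈ l := by
  have h1 : 1 < (pts l : Finset P).card := by
    rw [card_pts]
    have := one_lt_order P L
    omega
  obtain ⟨p, hp, q, hq, hpq⟩ := Finset.one_lt_card.1 h1
  exact ⟨p, q, hpq, mem_pts.1 hp, mem_pts.1 hq⟩

theorem IsAx.ax (hg : IsAx a g) : g.2 a = a := by
  obtain ⟨p, q, hpq, hp, hq⟩ := exists_two (P := P) a
  refine line_eq hpq ?_ ?_ hp hq
  · have := (hg.1 p a).2 hp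
    rwa [hg.2 p hp] at this
  · have := (hg.1 q a).2 hq
    rwa [hg.2 q hq] at this

theorem IsAx.na (hg : IsAx a g) {p : P} (hp : p ∉ a) : g.1 p ∉ a := fun h1 => by
  rw [← hg.ax, hg.1] at h1
  exact hp h1

/-- a fixed point off the axis is a centre -/
theorem IsAx.fixed (hg : IsAx a g) {p : P} (hp : p ∉ a) (hf : g.1 p = p) : IsP p a g := by
  refine ⟨hg, fun l hl => ?_⟩
  have hla : l ≠ a := fun h1 => hp (h1 ▸ hl)
  have h1 : p ≠ mt P l a := fun h2 => hp (by rw [h2]; exact mt_right hla)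
  refine line_eq h1 ?_ ?_ hl (mt_left hla)
  · have := (hg.1 p l).2 hl
    rwa [hf] at this
  · have := (hg.1 (mt P l a) l).2 (mt_left hla)
    rwa [hg.2 _ (mt_right hla)] at this

theorem IsP.eq_one (hg : IsP C a g) {x : P} (hx : x ∉ a) (hxC : C ≠ x) (hf : g.1 x = x) :
    g = 1 := by
  have hgx := hg.1.fixed hx hf
  have hna : jn L C x ≠ a := fun h1 => hx (h1 ▸ jn_right hxC)
  have key : ∀ (Q R : P), IsP Q a g → IsP R a g → ∀ u, Q ≠ u → R ≠ u → jn L Q u ≠ jn L R u →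
      g.1 u = u := by
    intro Q R hQ hR u h1 h2 h3
    refine pt_eq h3 ?_ (jn_right h1) ?_ (jn_right h2)
    · rw [← hQ.2 _ (jn_left h1), hQ.1.1]; exact jn_right h1
    · rw [← hR.2 _ (jn_left h2), hR.1.1]; exact jn_right h2
  have hoff : ∀ u, u ∉ a → u ∉ jn L C x → g.1 u = u := by
    intro u hu hum
    have h1 : C ≠ u := fun h1 => hum (h1 ▸ jn_left hxC)
    have h2 : x ≠ u := fun h1 => hum (h1 ▸ jn_right hxC)
    refine key C x hg hgx u h1 h2 ?_
    intro h3
    apply hum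
    rw [← line_eq hxC (jn_left h1) (h3 ▸ jn_left h2) (jn_left hxC) (jn_right hxC)]
    exact jn_right h1
  obtain ⟨u, hua, hum⟩ := exists_off (P := P) a (jn L C x)
  have hgu := hg.1.fixed hua (hoff u hua hum)
  have hall : ∀ p, g.1 p = p := by
    intro p
    by_cases hpa : p ∈ a
    · exact hg.1.2 p hpa
    by_cases hpm : p ∈ jn L C x
    · have h1 : u ≠ p := fun h1 => hum (h1 ▸ hpm)
      by_cases hpx : x = p
      · rw [← hpx]; exact hf
      · refine key u x hgu hgx p h1 hpx ?_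
        intro h2
        apply hum
        have h3 : jn L x p = jn L C x :=
          line_eq hpx (jn_left hpx) (jn_right hpx) (jn_right hxC) hpm
        rw [← h3, ← h2]; exact jn_left h1
    · exact hoff p hpa hpm
  have h1 : g.1 = 1 := Equiv.ext hall
  have h2 : g.2 = 1 := by
    apply Equiv.ext
    intro l
    obtain ⟨p, q, hpq, hp, hq⟩ := exists_two (P := P) l
    refine line_eq hpq ?_ ?_ hp hq
    · have := (hg.1.1 p l).2 hp
      rwa [hall] at this
    · have := (hg.1.1 q l).2 hq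
      rwa [hall] at this
  exact Prod.ext h1 h2

theorem IsP.eq_of (hg : IsP C a g) (hh : IsP C a h) {x : P} (hx : x ∉ a) (hxC : C ≠ x)
    (hf : g.1 x = h.1 x) : g = h := by
  have h1 := (hh.inv.mul hg).eq_one hx hxC (by
    simp only [Prod.fst_mul, Prod.fst_inv, Equiv.Perm.mul_apply]
    rw [hf]; simp)
  exact (inv_mul_eq_one.1 h1).symm

theorem IsP.disj {c d : P} (hc : c ∈ a) (hd : d ∈ a) (hcd : c ≠ d) (hg : IsP c a g)
    (hh : IsP d a g) : g = 1 := by
  obtain ⟨x, hx, -⟩ := exists_off (P := P) a a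
  have hcx : c ≠ x := fun h1 => hx (h1 ▸ hc)
  have hdx : d ≠ x := fun h1 => hx (h1 ▸ hd)
  refine hg.eq_one hx hcx ?_
  refine pt_eq (l := jn L c x) (k := jn L d x) ?_ ?_ (jn_right hcx) ?_ (jn_right hdx)
  · intro h1
    apply hx
    rw [← line_eq hcd (jn_left hcx) (h1 ▸ jn_left hdx) hc hd]
    exact jn_right hcx
  · rw [← hg.2 _ (jn_left hcx), hg.1.1]; exact jn_right hcx
  · rw [← hh.2 _ (jn_left hdx), hh.1.1]; exact jn_right hdx

theorem IsP.comm {c d : P} (hc : c ∈ a) (hd : d ∈ a) (hcd : c ≠ d) (hg : IsP c a g)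
    (hh : IsP d a h) : g * h = h * g := by
  have h1 : IsP c a (g * (h * g⁻¹ * h⁻¹)) := by
    have := hg.inv.conj hh.1.1
    rw [hh.1.ax, hh.1.2 c hc] at this
    exact hg.mul this
  have h2 : IsP d a (g * h * g⁻¹ * h⁻¹) := by
    have := hh.conj hg.1.1
    rw [hg.1.ax, hg.1.2 d hd] at this
    exact this.mul hh.inv
  have h3 := IsP.disj hc hd hcd h1 (by simpa only [mul_assoc] using h2)
  have h4 : g * h * (h * g)⁻¹ = 1 := by
    rw [mul_inv_rev]
    simpa only [mul_assoc] using h3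
  exact mul_inv_eq_one.1 h4

/-- a collineation with an axis and no fixed point off the axis is an elation -/
theorem IsAx.elation (hg : IsAx a g) (hf : ∀ p, p ∉ a → g.1 p ≠ p) :
    ∃ f, f ∈ a ∧ IsP f a g ∧ ∀ p, p ∉ a → f ∈ jn L p (g.1 p) := by
  have hne : ∀ p, p ∉ a → jn L p (g.1 p) ≠ a := fun p hp h1 =>
    hp (h1 ▸ jn_left (hf p hp).symm)
  have hfix : ∀ p, p ∉ a → g.2 (jn L p (g.1 p)) = jn L p (g.1 p) := by
    intro p hp
    have h1 : g.1 p ≠ mt P (jn L p (g.1 p)) a := fun h2 => hg.na hp (by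
      rw [h2]; exact mt_right (hne p hp))
    refine line_eq h1 ?_ ?_ (jn_right (hf p hp).symm) (mt_left (hne p hp))
    · rw [hg.1]; exact jn_left (hf p hp).symm
    · have := (hg.1 (mt P (jn L p (g.1 p)) a) (jn L p (g.1 p))).2 (mt_left (hne p hp))
      rwa [hg.2 _ (mt_right (hne p hp))] at this
  obtain ⟨x, hx, -⟩ := exists_off (P := P) a a
  set f := mt P (jn L x (g.1 x)) a with hfdef
  have hfa : f ∈ a := mt_right (hne x hx)
  have hfx : f ∈ jn L x (g.1 x) := mt_left (hne x hx)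
  have hall : ∀ p, p ∉ a → f ∈ jn L p (g.1 p) := by
    intro p hp
    by_cases h1 : jn L x (g.1 x) = jn L p (g.1 p)
    · rw [← h1]; exact hfx
    · have h2 : mt P (jn L x (g.1 x)) (jn L p (g.1 p)) ∈ a := by
        by_contra h3
        refine hf _ h3 (pt_eq h1 ?_ (mt_left h1) ?_ (mt_right h1))
        · have h4 := (hg.1 _ _).2 (mt_left (P := P) h1)
          rwa [hfix x hx] at h4
        · have h4 := (hg.1 _ _).2 (mt_right (P := P) h1)
          rwa [hfix p hp] at h4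
      have h3 : mt P (jn L x (g.1 x)) (jn L p (g.1 p)) = f := eq_mt (hne x hx) (mt_left h1) h2
      rw [← h3]; exact mt_right h1
  refine ⟨f, hfa, ⟨hg, fun l hl => ?_⟩, hall⟩
  by_cases hla : l = a
  · rw [hla]; exact hg.ax
  · -- a point of `l` off `a`
    obtain ⟨p, hpl, hpf⟩ : ∃ p, p ∈ l ∧ p ≠ f := by
      obtain ⟨p, q, hpq, hp, hq⟩ := exists_two (P := P) l
      by_cases h1 : p = f
      · exact ⟨q, hq, fun h2 => hpq (h1.trans h2.symm)⟩
      · exact ⟨p, hp, h1⟩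
    have hpa : p ∉ a := fun h1 => hpf (pt_eq hla hpl hl h1 hfa)
    have h1 : l = jn L p (g.1 p) := line_eq hpf hpl hl (jn_left (hf p hpa).symm) (hall p hpa)
    rw [h1]; exact hfix p hpa

theorem IsP.prod {c d : P} (hc : c ∈ a) (hd : d ∈ a) (hcd : c ≠ d) (hg : IsP c a g)
    (hh : IsP d a h) (hg1 : g ≠ 1) (hh1 : h ≠ 1) :
    ∃ f, f ∈ a ∧ IsP f a (g * h) ∧ f ≠ c ∧ f ≠ d := by
  obtain ⟨f, hfa, hf, -⟩ := (hg.1.mul hh.1).elation (by
    intro p hp h1
    simp only [Prod.fst_mul, Equiv.Perm.mul_apply] at h1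
    have hcp : c ≠ p := fun h1 => hp (h1 ▸ hc)
    have hdp : d ≠ p := fun h1 => hp (h1 ▸ hd)
    apply hh1
    refine hh.eq_one hp hdp ?_
    refine pt_eq (l := jn L c p) (k := jn L d p) ?_ ?_ (jn_right hcp) ?_ (jn_right hdp)
    · intro h2
      apply hp
      rw [← line_eq hcd (jn_left hcp) (h2 ▸ jn_left hdp) hc hd]
      exact jn_right hcp
    · rw [← hg.1.1, h1, hg.2 _ (jn_left hcp)]; exact jn_right hcp
    · rw [← hh.2 _ (jn_left hdp), hh.1.1]; exact jn_right hdp)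
  refine ⟨f, hfa, hf, ?_, ?_⟩
  · rintro rfl
    apply hh1
    have h1 : IsP f a (g⁻¹ * (g * h)) := hg.inv.mul hf
    rw [inv_mul_cancel_left] at h1
    exact IsP.disj hc hd hcd h1 hh
  · rintro rfl
    apply hg1
    have h1 : IsP f a (g * h * h⁻¹) := hf.mul hh.inv
    rw [mul_inv_cancel_right] at h1
    exact IsP.disj hc hd hcd hg h1

end

end Pool.Agent.N367.PPD
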