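import Pool.Agent.N367.PPD.Basic

set_option autoImplicit false
set_option linter.unusedSectionVars false

/-!
# Permutations of the points of a plane that preserve the directions of many lines: counting
-/

namespace Pool.Agent.N367.PPD

open Configuration Configuration.ProjectivePlane Finset
open scoped Classical

noncomputable section

variable {P L : Type} [Membership P L] [ProjectivePlane P L] [Fintype P] [Fintype L]

/-- A permutation `T` of the points that fixes the points of two lines `a`, `m` and maps every line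
through the point `C` of `m` to itself. -/
structure Dat (P L : Type) [Membership P L] where
  a : L
  m : L
  C : P
  T : Equiv.Perm P
  ham : a ≠ m
  hC : C ∈ m
  hTa : ∀ p, p ∈ a → T p = p
  hTm : ∀ p, p ∈ m → T p = p
  hTC : ∀ l : L, C ∈ l → ∀ p, p ∈ l → T p ∈ l

namespace Dat

variable (D : Dat P L)

/-- points outside the two lines -/
def X : Finset P := univ.filter (fun p => p ∉ D.a ∧ p ∉ D.m)

@[simp] theorem mem_X {p : P} : p ∈ D.X ↔ p ∉ D.a ∧ p ∉ D.m := by simp [X]

theorem T_a {p : P} : D.T p ∈ D.a ↔ p ∈ D.a := by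
  constructor
  · intro h
    have := D.hTa _ h
    have h2 := D.T.injective this
    rwa [h2] at h
  · intro h; rw [D.hTa _ h]; exact h

theorem T_m {p : P} : D.T p ∈ D.m ↔ p ∈ D.m := by
  constructor
  · intro h
    have := D.hTm _ h
    have h2 := D.T.injective this
    rwa [h2] at h
  · intro h; rw [D.hTm _ h]; exact h

theorem T_X {p : P} : D.T p ∈ D.X ↔ p ∈ D.X := by
  rw [mem_X, mem_X, T_a, T_m]

theorem T_C {l : L} (h : D.C ∈ l) {p : P} : D.T p ∈ l ↔ p ∈ l := by
  refine ⟨fun h1 => ?_, D.hTC l h p⟩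
  have hmap : (pts l).image D.T = pts l := by
    apply Finset.eq_of_subset_of_card_le
    · intro q hq
      obtain ⟨r, hr, rfl⟩ := Finset.mem_image.1 hq
      exact mem_pts.2 (D.hTC l h r (mem_pts.1 hr))
    · rw [Finset.card_image_of_injective _ D.T.injective]
  have : D.T p ∈ (pts l).image D.T := by rw [hmap]; exact mem_pts.2 h1
  obtain ⟨r, hr, hrp⟩ := Finset.mem_image.1 this
  rw [← D.T.injective hrp]; exact mem_pts.1 hr

/-- the pair `z, w` fails: for some `e` on `a` the points `e, z, w` are collinear and their images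
are not -/
def fl (z w : P) : Prop :=
  ∃ e, e ∈ D.a ∧ (∃ l : L, e ∈ l ∧ z ∈ l ∧ w ∈ l) ∧ ¬ ∃ l : L, e ∈ l ∧ D.T z ∈ l ∧ D.T w ∈ l

/-- the number of failing pairs -/
def F : ℕ := ((D.X ×ˢ D.X).filter (fun x => D.fl x.1 x.2)).card

/-- points of a line outside the two lines -/
def px (l : L) : Finset P := D.X.filter (fun p => p ∈ l)

@[simp] theorem mem_px {l : L} {p : P} : p ∈ D.px l ↔ p ∈ D.X ∧ p ∈ l := by
  simp only [px, Finset.mem_filter]

/-- points of `l` not mapped to `k` -/
def ls (l k : L) : Finset P := (D.px l).filter (fun p => D.T p ∉ k)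

/-- `k` is a candidate for the image of `l` -/
def cd (l k : L) : Prop := k ≠ D.a ∧ ∀ e, e ∈ D.a → e ∈ l → e ∈ k

def good (l : L) : Prop :=
  l ≠ D.a ∧ l ≠ D.m ∧ ∃ k, D.cd l k ∧ 10 * (D.ls l k).card ≤ order P L

def bad (l : L) : Prop :=
  l ≠ D.a ∧ l ≠ D.m ∧ ¬ ∃ k, D.cd l k ∧ 10 * (D.ls l k).card ≤ order P L

/-- the image of a good line -/
def st (l : L) : L := if h : D.good l then Classical.choose h.2.2 else l

theorem st_cd {l : L} (h : D.good l) : D.cd l (D.st l) := by
  rw [st, dif_pos h]; exact (Classical.choose_spec h.2.2).1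

theorem st_ne {l : L} (h : D.good l) : D.st l ≠ D.a := (D.st_cd h).1

theorem st_mem {l : L} (h : D.good l) {e : P} (h1 : e ∈ D.a) (h2 : e ∈ l) : e ∈ D.st l :=
  (D.st_cd h).2 e h1 h2

theorem st_card {l : L} (h : D.good l) : 10 * (D.ls l (D.st l)).card ≤ order P L := by
  rw [st, dif_pos h]; exact (Classical.choose_spec h.2.2).2

theorem px_le {l : L} (h : l ≠ D.a) : (D.px l).card ≤ order P L := by
  have h1 : D.px l ⊆ (pts l).erase (mt P l D.a) := by
    intro p hp
    rw [mem_px, mem_X] at hp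
    rw [Finset.mem_erase]
    refine ⟨fun h2 => hp.1.1 ?_, mem_pts.2 hp.2⟩
    rw [h2]; exact mt_right h
  have h2 := Finset.card_le_card h1
  rw [Finset.card_erase_of_mem (mem_pts.2 (mt_left h)), card_pts] at h2
  omega

theorem px_ge {l : L} (h : l ≠ D.a) (h' : l ≠ D.m) : order P L ≤ (D.px l).card + 1 := by
  have h1 : (pts l : Finset P) ⊆ insert (mt P l D.a) (insert (mt P l D.m) (D.px l)) := by
    intro p hp
    rw [mem_pts] at hp
    rw [Finset.mem_insert, Finset.mem_insert, mem_px, mem_X]
    by_cases h1 : p ∈ D.a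
    · left; exact eq_mt h hp h1
    by_cases h2 : p ∈ D.m
    · right; left; exact eq_mt h' hp h2
    · right; right; exact ⟨⟨h1, h2⟩, hp⟩
  have h2 := Finset.card_le_card h1
  have h3 := Finset.card_insert_le (mt P l D.a) (insert (mt P l D.m) (D.px l))
  have h4 := Finset.card_insert_le (mt P l D.m) (D.px l)
  rw [card_pts] at h2
  omega

theorem fl_ne {z w : P} (h : D.fl z w) : z ≠ w := by
  rintro rfl
  obtain ⟨e, he, ⟨l, h1, h2, -⟩, h3⟩ := h
  apply h3
  by_cases hz : D.T z = e
  · exact ⟨D.a, he, hz ▸ he, hz ▸ he⟩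
  · exact ⟨jn L e (D.T z), jn_left (Ne.symm hz), jn_right (Ne.symm hz), jn_right (Ne.symm hz)⟩

/-- failing pairs on a line -/
def fp (l : L) : Finset (P × P) := (D.px l ×ˢ D.px l).filter (fun x => D.fl x.1 x.2)

theorem fp_card (l : L) :
    (D.fp l).card = ∑ z ∈ D.px l, ((D.px l).filter (fun w => D.fl z w)).card := by
  rw [fp, Finset.card_filter, Finset.sum_product]
  apply Finset.sum_congr rfl
  intro z _
  rw [Finset.card_filter]

theorem fp_sum (s : Finset L) : ∑ l ∈ s, (D.fp l).card ≤ D.F := by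
  rw [← Finset.card_biUnion]
  · apply Finset.card_le_card
    intro x hx
    rw [Finset.mem_biUnion] at hx
    obtain ⟨l, -, hx⟩ := hx
    rw [fp, Finset.mem_filter, Finset.mem_product, mem_px, mem_px] at hx
    rw [Finset.mem_filter, Finset.mem_product]
    exact ⟨⟨hx.1.1.1, hx.1.2.1⟩, hx.2⟩
  · intro l _ k _ hlk
    rw [Function.onFun, Finset.disjoint_left]
    intro x hx hx'
    rw [fp, Finset.mem_filter, Finset.mem_product, mem_px, mem_px] at hx hx'
    exact hlk (line_eq (D.fl_ne hx.2) hx.1.1.2 hx.1.2.2 hx'.1.1.2 hx'.1.2.2)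

/-- the key remark: a pair on a line `l` fails if the images are on no common line through `e` -/
theorem fl_of {l k : L} {e z w : P} (he : e ∈ D.a) (hel : e ∈ l) (hz : z ∈ l) (hw : w ∈ l)
    (hek : e ∈ k) (hzX : z ∈ D.X) (hTz : D.T z ∈ k) (hTw : D.T w ∉ k) : D.fl z w := by
  refine ⟨e, he, ⟨l, hel, hz, hw⟩, ?_⟩
  rintro ⟨j, h1, h2, h3⟩
  have hne : e ≠ D.T z := by
    rintro rfl
    have := D.T_X.2 hzX
    rw [mem_X] at this
    exact this.1 he
  rw [line_eq hne h1 h2 hek hTz] at h3
  exact hTw h3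

theorem fl_of' {l k : L} {e z w : P} (he : e ∈ D.a) (hel : e ∈ l) (hz : z ∈ l) (hw : w ∈ l)
    (hek : e ∈ k) (hwX : w ∈ D.X) (hTz : D.T z ∉ k) (hTw : D.T w ∈ k) : D.fl z w := by
  refine ⟨e, he, ⟨l, hel, hz, hw⟩, ?_⟩
  rintro ⟨j, h1, h2, h3⟩
  have hne : e ≠ D.T w := by
    rintro rfl
    have := D.T_X.2 hwX
    rw [mem_X] at this
    exact this.1 he
  rw [line_eq hne h1 h3 hek hTw] at h2
  exact hTz h2

theorem bad_fp {l : L} (h : D.bad l) : (order P L - 1) * order P L ≤ 10 * (D.fp l).card := by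
  obtain ⟨h1, h2, h3⟩ := h
  have hs : ∀ z ∈ D.px l, order P L ≤ 10 * ((D.px l).filter (fun w => D.fl z w)).card := by
    intro z hz
    rw [mem_px] at hz
    have hTz := D.T_X.2 hz.1
    rw [mem_X] at hTz
    set e := mt P l D.a with he
    have hel : e ∈ l := mt_left h1
    have hea : e ∈ D.a := mt_right h1
    have hne : e ≠ D.T z := fun h => hTz.1 (h ▸ hea)
    set k := jn L e (D.T z) with hk
    by_contra hcon
    push Not at hcon
    apply h3
    refine ⟨k, ⟨fun h => hTz.1 (h ▸ jn_right hne), ?_⟩, ?_⟩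
    · intro e' he' he'l
      have : e' = e := eq_mt h1 he'l he'
      rw [this]; exact jn_left hne
    · refine le_trans ?_ hcon.le
      apply Nat.mul_le_mul_left
      apply Finset.card_le_card
      intro w hw
      rw [ls, Finset.mem_filter, mem_px] at hw
      rw [Finset.mem_filter, mem_px]
      exact ⟨hw.1, D.fl_of hea hel hz.2 hw.1.2 (jn_left hne) hz.1 (jn_right hne) hw.2⟩
  rw [fp_card, Finset.mul_sum]
  calc (order P L - 1) * order P L ≤ (D.px l).card * order P L :=
        Nat.mul_le_mul_right _ (by have := D.px_ge h1 h2; omega)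
    _ = ∑ z ∈ D.px l, order P L := by rw [Finset.sum_const, smul_eq_mul]
    _ ≤ _ := Finset.sum_le_sum hs

theorem good_fp {l : L} (h : D.good l) :
    (order P L - 1) * (D.ls l (D.st l)).card ≤ (D.fp l).card := by
  have hn := one_lt_order P L
  have h1 := h.1
  have hs : ∀ z ∈ D.px l, (D.ls l (D.st l)).card ≤ ((D.px l).filter (fun w => D.fl z w)).card := by
    intro z hz
    rw [mem_px] at hz
    have hel : mt P l D.a ∈ l := mt_left h1
    have hea : mt P l D.a ∈ D.a := mt_right h1
    have hek := D.st_mem h hea hel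
    by_cases hTz : D.T z ∈ D.st l
    · apply Finset.card_le_card
      intro w hw
      rw [ls, Finset.mem_filter, mem_px] at hw
      rw [Finset.mem_filter, mem_px]
      exact ⟨hw.1, D.fl_of hea hel hz.2 hw.1.2 hek hz.1 hTz hw.2⟩
    · have h4 : (D.px l).filter (fun p => ¬ D.T p ∉ D.st l) ⊆ (D.px l).filter (fun w => D.fl z w) := by
        intro w hw
        rw [Finset.mem_filter, mem_px, not_not] at hw
        rw [Finset.mem_filter, mem_px]
        exact ⟨hw.1, D.fl_of' hea hel hz.2 hw.1.2 hek hw.1.1 hTz hw.2⟩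
      have h5 := Finset.card_le_card h4
      have h6 := Finset.card_filter_add_card_filter_not (s := D.px l) (fun p => D.T p ∉ D.st l)
      have h7 := D.px_ge h.1 h.2.1
      have h8 := D.st_card h
      rw [ls] at h8 ⊢
      omega
  rw [fp_card]
  calc (order P L - 1) * (D.ls l (D.st l)).card ≤ (D.px l).card * (D.ls l (D.st l)).card :=
        Nat.mul_le_mul_right _ (by have := D.px_ge h.1 h.2.1; omega)
    _ = ∑ z ∈ D.px l, (D.ls l (D.st l)).card := by rw [Finset.sum_const, smul_eq_mul]
    _ ≤ _ := Finset.sum_le_sum hs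

/-- the bad lines -/
def bl : Finset L := univ.filter (fun l => D.bad l)

@[simp] theorem mem_bl {l : L} : l ∈ D.bl ↔ D.bad l := by simp [bl]

/-- the lost flags: a point of a good line whose image is not on the image of the line -/
def LF : Finset (P × L) := univ.filter (fun x => D.good x.2 ∧ x.1 ∈ D.ls x.2 (D.st x.2))

/-- number of failures at a point -/
def dg (z : P) : ℕ := (D.X.filter (fun w => D.fl z w)).card

/-- points with many failures -/
def B : Finset P := D.X.filter (fun z => order P L ^ 2 < 10 * D.dg z)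

theorem bl_card : D.bl.card * ((order P L - 1) * order P L) ≤ 10 * D.F := by
  calc D.bl.card * ((order P L - 1) * order P L)
      = ∑ l ∈ D.bl, (order P L - 1) * order P L := by rw [Finset.sum_const, smul_eq_mul]
    _ ≤ ∑ l ∈ D.bl, 10 * (D.fp l).card := Finset.sum_le_sum fun l hl => D.bad_fp (D.mem_bl.1 hl)
    _ = 10 * ∑ l ∈ D.bl, (D.fp l).card := by rw [Finset.mul_sum]
    _ ≤ 10 * D.F := Nat.mul_le_mul_left _ (D.fp_sum _)

theorem LF_card : (order P L - 1) * D.LF.card ≤ D.F := by
  have h1 : D.LF.card = ∑ l ∈ univ.filter (fun l => D.good l), (D.ls l (D.st l)).card := by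
    rw [← Finset.card_sigma]
    symm
    apply Finset.card_bij (fun (x : (_ : L) × P) _ => (x.2, x.1))
    · rintro ⟨l, p⟩ hx
      simp only [Finset.mem_sigma, Finset.mem_filter, Finset.mem_univ, true_and] at hx
      simp only [LF, Finset.mem_filter, Finset.mem_univ, true_and]
      exact hx
    · rintro ⟨l, p⟩ _ ⟨l', p'⟩ _ h
      simp only [Prod.mk.injEq] at h
      obtain ⟨rfl, rfl⟩ := h
      rfl
    · rintro ⟨p, l⟩ hx
      simp only [LF, Finset.mem_filter, Finset.mem_univ, true_and] at hx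
      refine ⟨⟨l, p⟩, ?_, rfl⟩
      simp only [Finset.mem_sigma, Finset.mem_filter, Finset.mem_univ, true_and]
      exact hx
  rw [h1, Finset.mul_sum]
  refine le_trans (Finset.sum_le_sum fun l hl => ?_) (D.fp_sum (univ.filter (fun l => D.good l)))
  exact D.good_fp (Finset.mem_filter.1 hl).2

theorem F_eq : D.F = ∑ z ∈ D.X, D.dg z := by
  rw [F, Finset.card_filter, Finset.sum_product]
  apply Finset.sum_congr rfl
  intro z _
  rw [dg, Finset.card_filter]

theorem B_card : D.B.card * order P L ^ 2 ≤ 10 * D.F := by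
  rw [F_eq, Finset.mul_sum]
  calc D.B.card * order P L ^ 2 = ∑ z ∈ D.B, order P L ^ 2 := by
        rw [Finset.sum_const, smul_eq_mul]
    _ ≤ ∑ z ∈ D.B, 10 * D.dg z := by
        apply Finset.sum_le_sum
        intro z hz
        exact (Finset.mem_filter.1 hz).2.le
    _ ≤ ∑ z ∈ D.X, 10 * D.dg z :=
        Finset.sum_le_sum_of_subset (Finset.filter_subset _ _)

/-- the smallness assumption -/
def Sm : Prop := 1000 * D.F ≤ order P L ^ 3

theorem bl_small (h : D.Sm) : 90 * D.bl.card ≤ order P L := by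
  have hn := one_lt_order P L
  have h1 := D.bl_card
  unfold Sm at h
  obtain ⟨k, hk⟩ : ∃ k, order P L = k + 2 := ⟨order P L - 2, by omega⟩
  rw [hk] at h h1 hn ⊢
  simp only [show k + 2 - 1 = k + 1 by omega] at h1
  by_contra hcon
  push Not at hcon
  have h2 : 100 * D.bl.card * ((k + 1) * (k + 2)) ≤ (k + 2) ^ 3 := by nlinarith
  have h3 : 100 * D.bl.card * (k + 1) ≤ (k + 2) ^ 2 := by
    have : (100 * D.bl.card * (k + 1)) * (k + 2) ≤ (k + 2) ^ 2 * (k + 2) := by nlinarith
    exact Nat.le_of_mul_le_mul_right this (by omega)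
  have h4 : 1 ≤ D.bl.card := by
    by_contra h5
    have : D.bl.card = 0 := by omega
    omega
  have h5 : 10 ≤ k := by
    by_contra h6
    have : k ≤ 9 := by omega
    nlinarith
  nlinarith

theorem B_small (h : D.Sm) : 100 * D.B.card ≤ order P L := by
  have hn := one_lt_order P L
  have h1 := D.B_card
  unfold Sm at h
  have h2 : (100 * D.B.card) * order P L ^ 2 ≤ order P L * order P L ^ 2 := by nlinarith
  exact Nat.le_of_mul_le_mul_right h2 (by positivity)

theorem big (h : D.Sm) (hLF : D.LF.Nonempty) : 32 ≤ order P L := by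
  have hn := one_lt_order P L
  have h1 := D.LF_card
  have h2 : 1 ≤ D.LF.card := hLF.card_pos
  unfold Sm at h
  have h3 : order P L - 1 ≤ D.F := le_trans (by nlinarith [Nat.zero_le (order P L - 1)]) h1
  have h4 : 1000 * (order P L - 1) ≤ order P L ^ 3 := by omega
  by_contra hcon
  have h5 : order P L ≤ 31 := by omega
  generalize order P L = n at *
  interval_cases n <;> omega

end Dat

end

end Pool.Agent.N367.PPD
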